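import Pool.Agent.PCV.ADefs

/-!
# [PCV-A1] slices of polynomials

`revSlice D f z` is monic of degree `D` (leading coefficient `f_0(z) = constantCoeff f = 1`), so it has `D` roots and
equals `∏_{b ∈ bs} (X - C b)` (`IsAlgClosed.splits`, `Polynomial.eq_prod_roots_of_monic_of_splits_id` or similar).
For `t ≠ 0`: `f (t z) = ∑_i t^i f_i(z)` (`i ≤ D`, `MvPolynomial.sum_homogeneousComponent`,
`IsHomogeneous.eval₂/eval smul`) `= t^D * eval (1/t) (revSlice D f z) = t^D ∏ (1/t - b) = ∏ (1 - b t)` (there are `D`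
factors).  For `t = 0` both sides are `1`.
Bound: if `b ≠ 0`, `b ∈ bs D f z` then `f (z/b) = 0` by `eval_slice` with `t = 1/b`, hence `z/b ∉ Ball d`:
`∑ ‖z i / b‖² ≥ 1`, i.e. `‖b‖² ≤ ∑ ‖z i‖²`.
-/

open MeasureTheory Set Filter Topology

namespace PCV

theorem a1_monic {d : ℕ} (D : ℕ) (f : MvPolynomial (Fin d) ℂ)
    (h0 : MvPolynomial.constantCoeff f = 1) (z : Fin d → ℂ) :
    (revSlice D f z).Monic ∧ (revSlice D f z).natDegree = D := by
  have h1 : revSlice D f z = Polynomial.X ^ D + ∑ i ∈ Finset.range D,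
      Polynomial.C (MvPolynomial.eval z (MvPolynomial.homogeneousComponent (i + 1) f)) *
        Polynomial.X ^ (D - (i + 1)) := by
    unfold revSlice
    rw [Finset.sum_range_succ', MvPolynomial.homogeneousComponent_zero, MvPolynomial.eval_C,
      ← MvPolynomial.constantCoeff_eq, h0, Polynomial.C_1, one_mul, Nat.sub_zero, add_comm]
  have h2 : (∑ i ∈ Finset.range D,
      Polynomial.C (MvPolynomial.eval z (MvPolynomial.homogeneousComponent (i + 1) f)) *
        Polynomial.X ^ (D - (i + 1))).degree < (D : WithBot ℕ) := by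
    refine (Polynomial.degree_sum_le _ _).trans_lt ?_
    rw [Finset.sup_lt_iff (by exact WithBot.bot_lt_coe D)]
    intro i hi
    refine (Polynomial.degree_C_mul_X_pow_le _ _).trans_lt ?_
    have := Finset.mem_range.1 hi
    exact_mod_cast (show D - (i + 1) < D by omega)
  rw [h1]
  refine ⟨Polynomial.monic_X_pow_add h2, Polynomial.natDegree_eq_of_degree_eq_some ?_⟩
  rw [Polynomial.degree_add_eq_left_of_degree_lt (by rw [Polynomial.degree_X_pow]; exact h2),
    Polynomial.degree_X_pow]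

theorem a1_hom {d : ℕ} (i : ℕ) (f : MvPolynomial (Fin d) ℂ) (z : Fin d → ℂ) (t : ℂ) :
    MvPolynomial.eval (fun j => t * z j) (MvPolynomial.homogeneousComponent i f) =
      t ^ i * MvPolynomial.eval z (MvPolynomial.homogeneousComponent i f) := by
  have hh := MvPolynomial.homogeneousComponent_isHomogeneous i f
  rw [MvPolynomial.eval_eq, MvPolynomial.eval_eq, Finset.mul_sum]
  refine Finset.sum_congr rfl fun u hu => ?_
  have h1 := hh (MvPolynomial.mem_support_iff.1 hu)
  have h2 : ∏ j ∈ u.support, (t * z j) ^ u j = t ^ i * ∏ j ∈ u.support, z j ^ u j := by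
    have h3 : t ^ i = ∏ j ∈ u.support, t ^ u j := by
      rw [Finset.prod_pow_eq_pow_sum, ← h1]
      congr 1
      rw [Finsupp.weight_apply]
      simp [Finsupp.sum]
    rw [h3, ← Finset.prod_mul_distrib]
    exact Finset.prod_congr rfl fun j _ => mul_pow _ _ _
  rw [h2]
  ring

theorem a1_eval {d : ℕ} (D : ℕ) (f : MvPolynomial (Fin d) ℂ) (hD : f.totalDegree ≤ D)
    (z : Fin d → ℂ) (t : ℂ) : MvPolynomial.eval (fun j => t * z j) f =
      ∑ i ∈ Finset.range (D + 1),
        t ^ i * MvPolynomial.eval z (MvPolynomial.homogeneousComponent i f) := by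
  have h1 : f = ∑ i ∈ Finset.range (D + 1), MvPolynomial.homogeneousComponent i f := by
    conv_lhs => rw [← MvPolynomial.sum_homogeneousComponent f]
    refine Finset.sum_subset (Finset.range_mono (by omega)) fun i _ hi => ?_
    rw [Finset.mem_range, not_lt] at hi
    exact MvPolynomial.homogeneousComponent_eq_zero _ _ (by omega)
  conv_lhs => rw [h1]
  rw [map_sum]
  exact Finset.sum_congr rfl fun i _ => a1_hom i f z t

theorem card_bs {d : ℕ} (D : ℕ) (f : MvPolynomial (Fin d) ℂ) (hD : f.totalDegree ≤ D)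
    (h0 : MvPolynomial.constantCoeff f = 1) (z : Fin d → ℂ) : Multiset.card (bs D f z) = D := by
  unfold bs
  rw [IsAlgClosed.card_roots_eq_natDegree, (a1_monic D f h0 z).2]

theorem eval_slice {d : ℕ} (D : ℕ) (f : MvPolynomial (Fin d) ℂ) (hD : f.totalDegree ≤ D)
    (h0 : MvPolynomial.constantCoeff f = 1) (z : Fin d → ℂ) (t : ℂ) :
    MvPolynomial.eval (fun i => t * z i) f = ((bs D f z).map fun b => 1 - b * t).prod := by
  by_cases ht : t = 0
  · subst ht
    have h1 : (fun i => (0 : ℂ) * z i) = 0 := by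
      ext i
      simp
    rw [h1, MvPolynomial.eval_zero, h0]
    simp
  · have h1 := (IsAlgClosed.splits (revSlice D f z)).eval_eq_prod_roots_of_monic
      (a1_monic D f h0 z).1 (1 / t)
    have h2 : t ^ D * Polynomial.eval (1 / t) (revSlice D f z) =
        MvPolynomial.eval (fun i => t * z i) f := by
      rw [a1_eval D f hD z t]
      unfold revSlice
      rw [Polynomial.eval_finsetSum, Finset.mul_sum]
      refine Finset.sum_congr rfl fun i hi => ?_
      rw [Polynomial.eval_mul, Polynomial.eval_C, Polynomial.eval_pow, Polynomial.eval_X]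
      have h3 : t ^ D = t ^ i * t ^ (D - i) := by
        rw [← pow_add]
        congr 1
        have := Finset.mem_range.1 hi
        omega
      rw [h3, one_div, inv_pow]
      have h4 : t ^ (D - i) ≠ 0 := pow_ne_zero _ ht
      field_simp
    rw [← h2, h1]
    have h3 : t ^ D = ((bs D f z).map fun _ => t).prod := by
      rw [Multiset.map_const', Multiset.prod_replicate, card_bs D f hD h0 z]
    rw [h3]
    change _ * ((bs D f z).map fun b => 1 / t - b).prod = _
    rw [← Multiset.prod_map_mul]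
    congr 1
    refine Multiset.map_congr rfl fun b _ => ?_
    field_simp

theorem bs_bound {d : ℕ} (D : ℕ) (f : MvPolynomial (Fin d) ℂ) (hD : f.totalDegree ≤ D)
    (h0 : MvPolynomial.constantCoeff f = 1) (hf : ∀ z ∈ PCM.Ball d, MvPolynomial.eval z f ≠ 0)
    (z : Fin d → ℂ) : ∀ b ∈ bs D f z, ‖b‖ ≤ Real.sqrt (∑ i, ‖z i‖ ^ 2) := by
  intro b hb
  by_cases hb0 : b = 0
  · rw [hb0, norm_zero]
    exact Real.sqrt_nonneg _
  · have h1 : MvPolynomial.eval (fun i => b⁻¹ * z i) f = 0 := by
      rw [eval_slice D f hD h0 z b⁻¹]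
      refine Multiset.prod_eq_zero (Multiset.mem_map.2 ⟨b, hb, ?_⟩)
      rw [mul_inv_cancel₀ hb0, sub_self]
    have h2 : (fun i => b⁻¹ * z i) ∉ PCM.Ball d := fun h => hf _ h h1
    have h3 : 1 ≤ ∑ i, ‖b⁻¹ * z i‖ ^ 2 := not_lt.1 h2
    have h4 : ∑ i, ‖b⁻¹ * z i‖ ^ 2 = (‖b‖ ^ 2)⁻¹ * ∑ i, ‖z i‖ ^ 2 := by
      rw [Finset.mul_sum]
      refine Finset.sum_congr rfl fun i _ => ?_
      rw [norm_mul, norm_inv, mul_pow, inv_pow]
    rw [h4] at h3
    have h5 : 0 < ‖b‖ ^ 2 := by
      have := norm_pos_iff.2 hb0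
      positivity
    refine Real.le_sqrt_of_sq_le ?_
    rw [← div_eq_inv_mul, le_div_iff₀ h5] at h3
    linarith

end PCV
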