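import Mathlib

/-!
# [PCV-A2] elementary symmetric functions of powers are polynomials in the elementary symmetric functions

The polynomial `MvPolynomial.aeval (fun i => X i ^ k) (MvPolynomial.esymm (Fin D) ℂ l)` is symmetric, hence (fundamental
theorem of symmetric polynomials, `MvPolynomial.esymmAlgEquiv` / `MvPolynomial.esymmAlgHom_surjective`...)
it is a polynomial `G₀ : MvPolynomial (Fin n) ℂ` in `esymm (Fin D) ℂ (i+1)`, `i < n`; rename the variables `i ↦ i+1` to
get `G : MvPolynomial ℕ ℂ`.  A multiset `s` with `card s = D` is `Finset.univ.val.map v` for some `v : Fin D → ℂ`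
(`Multiset` as image of a list / vector); evaluate at `v`: `MvPolynomial.aeval_esymm_eq_multiset_esymm`.
Alternative: Newton identities.
-/

open MeasureTheory Set Filter Topology

namespace PCV

theorem exists_esymm_pow (D k l : ℕ) : ∃ G : MvPolynomial ℕ ℂ, ∀ s : Multiset ℂ,
    Multiset.card s = D → (s.map (· ^ k)).esymm l = MvPolynomial.eval (fun i => s.esymm i) G := by
  classical
  set p : MvPolynomial (Fin D) ℂ :=
    MvPolynomial.aeval (fun i : Fin D => (MvPolynomial.X i : MvPolynomial (Fin D) ℂ) ^ k)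
      (MvPolynomial.esymm (Fin D) ℂ l) with hp
  have hsymm : p ∈ MvPolynomial.symmetricSubalgebra (Fin D) ℂ := by
    rw [MvPolynomial.mem_symmetricSubalgebra]
    intro e
    rw [hp]
    have h1 : (MvPolynomial.rename e) (MvPolynomial.aeval (fun i : Fin D => (MvPolynomial.X i : MvPolynomial (Fin D) ℂ) ^ k)
        (MvPolynomial.esymm (Fin D) ℂ l)) =
        MvPolynomial.aeval (fun i : Fin D => (MvPolynomial.X i : MvPolynomial (Fin D) ℂ) ^ k)
          (MvPolynomial.rename e (MvPolynomial.esymm (Fin D) ℂ l)) := by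
      rw [MvPolynomial.aeval_rename, ← AlgHom.comp_apply, MvPolynomial.comp_aeval]
      congr 2
      funext i
      rw [map_pow, MvPolynomial.rename_X]
      rfl
    rw [h1, MvPolynomial.rename_esymm]
  obtain ⟨G₀, hG₀⟩ := (MvPolynomial.esymmAlgHom_fin_bijective (R := ℂ) D).2 ⟨p, hsymm⟩
  have hG : MvPolynomial.aeval (fun i : Fin D => MvPolynomial.esymm (Fin D) ℂ (i + 1)) G₀ = p := by
    have h1 := congrArg Subtype.val hG₀
    rwa [MvPolynomial.esymmAlgHom_apply] at h1
  refine ⟨MvPolynomial.rename (fun i : Fin D => (i : ℕ) + 1) G₀, ?_⟩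
  intro s hs
  obtain ⟨v, rfl⟩ : ∃ v : Fin D → ℂ, s = Finset.univ.val.map v := by
    subst hs
    refine ⟨fun i => s.toList.get (i.cast (by rw [Multiset.length_toList])), ?_⟩
    rw [Fin.univ_val_map]
    conv_lhs => rw [← Multiset.coe_toList s]
    congr 1
    apply List.ext_get
    · rw [List.length_ofFn, Multiset.length_toList]
    · intro n h1 h2
      rw [List.get_ofFn]
      rfl
  have h1 : (Multiset.map (fun x => x ^ k) (Finset.univ.val.map v)).esymm l = MvPolynomial.eval v p := by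
    rw [hp, Multiset.map_map]
    have h2 : MvPolynomial.eval v (MvPolynomial.aeval (fun i : Fin D => (MvPolynomial.X i : MvPolynomial (Fin D) ℂ) ^ k)
        (MvPolynomial.esymm (Fin D) ℂ l)) = MvPolynomial.aeval (fun i => v i ^ k) (MvPolynomial.esymm (Fin D) ℂ l) := by
      have h3 : MvPolynomial.eval v = ((MvPolynomial.aeval v : MvPolynomial (Fin D) ℂ →ₐ[ℂ] ℂ) : MvPolynomial (Fin D) ℂ →+* ℂ) := by
        rw [MvPolynomial.coe_aeval_eq_eval]
      rw [h3]
      show (MvPolynomial.aeval v : MvPolynomial (Fin D) ℂ →ₐ[ℂ] ℂ) _ = _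
      rw [← AlgHom.comp_apply, MvPolynomial.comp_aeval]
      congr 2
      funext i
      rw [map_pow, MvPolynomial.aeval_X]
    rw [h2, MvPolynomial.aeval_esymm_eq_multiset_esymm]
    rfl
  rw [h1, ← hG, MvPolynomial.eval_rename]
  have h3 : MvPolynomial.eval v = ((MvPolynomial.aeval v : MvPolynomial (Fin D) ℂ →ₐ[ℂ] ℂ) : MvPolynomial (Fin D) ℂ →+* ℂ) := by
    rw [MvPolynomial.coe_aeval_eq_eval]
  rw [h3]
  show (MvPolynomial.aeval v : MvPolynomial (Fin D) ℂ →ₐ[ℂ] ℂ) _ = _
  rw [← AlgHom.comp_apply, MvPolynomial.comp_aeval, ← MvPolynomial.coe_aeval_eq_eval]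
  show _ = (MvPolynomial.aeval _ : MvPolynomial (Fin D) ℂ →ₐ[ℂ] ℂ) G₀
  congr 2
  funext i
  rw [MvPolynomial.aeval_esymm_eq_multiset_esymm]
  rfl

end PCV
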