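import Pool.Agent.PCV.A1
import Pool.Agent.PCV.A2

/-!
# [PCV-A3] the slices of a polynomial without zeros in the ball form a family

* `card`: `card_bs`.  `bound`: `bs_bound` and `∑ j, ‖ins i w j‖² = nw w` (`Fin.sum_univ_succAbove`,
  `Fin.insertNth_apply_same`, `Fin.insertNth_apply_succAbove`).
* `hol`: by Vieta (`Polynomial.coeff_eq_esymm_roots_of_card` for the monic polynomial `revSlice D f z` with `D` roots):
  for `j ≤ D`, `(bs D f z).esymm j = (-1)^j * coeff (D-j) (revSlice D f z) = (-1)^j f_j(z)`, and `esymm j = 0` for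
  `j > D` (`Multiset.powersetCard` empty).  `w ↦ eval (ins i w) P` is analytic for every polynomial `P` (induction, or
  `AnalyticOnNhd.aeval_mvPolynomial`), each coordinate of `ins i w` being constant or a coordinate of `w`.  Then
  `exists_esymm_pow` expresses the function as a polynomial in analytic functions.
-/

open MeasureTheory Set Filter Topology

namespace PCV

theorem sum_ins {m : ℕ} (i : Fin (m + 1)) (w : Fin m → ℂ) : ∑ j, ‖ins i w j‖ ^ 2 = nw w := by
  rw [Fin.sum_univ_succAbove _ i]
  unfold nw ins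
  rw [Fin.insertNth_apply_same, norm_one, one_pow]
  congr 1
  refine Finset.sum_congr rfl fun k _ => ?_
  rw [Fin.insertNth_apply_succAbove]

theorem a3_coeff {d : ℕ} (D : ℕ) (f : MvPolynomial (Fin d) ℂ) (z : Fin d → ℂ) {j : ℕ} (hj : j ≤ D) :
    (revSlice D f z).coeff (D - j) = MvPolynomial.eval z (MvPolynomial.homogeneousComponent j f) := by
  unfold revSlice
  rw [Polynomial.finsetSum_coeff, Finset.sum_eq_single j]
  · rw [Polynomial.coeff_C_mul, Polynomial.coeff_X_pow, if_pos rfl, mul_one]
  · intro i hi hij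
    have hi' : i ≤ D := Nat.lt_succ_iff.1 (Finset.mem_range.1 hi)
    rw [Polynomial.coeff_C_mul, Polynomial.coeff_X_pow, if_neg (by omega), mul_zero]
  · intro h
    exact absurd (Finset.mem_range.2 (Nat.lt_succ_of_le hj)) h

theorem a3_deg {d : ℕ} (D : ℕ) (f : MvPolynomial (Fin d) ℂ) (h0 : MvPolynomial.constantCoeff f = 1) (z : Fin d → ℂ) :
    (revSlice D f z).natDegree = D ∧ (revSlice D f z).leadingCoeff = 1 := by
  have h1 : (revSlice D f z).coeff D = 1 := by
    have h2 := a3_coeff D f z (Nat.zero_le D)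
    rw [Nat.sub_zero] at h2
    rw [h2, MvPolynomial.homogeneousComponent_zero, MvPolynomial.eval_C]
    rw [← h0]
    rfl
  have h2 : (revSlice D f z).natDegree ≤ D := by
    unfold revSlice
    refine Polynomial.natDegree_sum_le_of_forall_le _ _ fun i _ => ?_
    refine (Polynomial.natDegree_C_mul_X_pow_le _ _).trans ?_
    omega
  have h3 : (revSlice D f z).natDegree = D := by
    refine le_antisymm h2 (Polynomial.le_natDegree_of_ne_zero ?_)
    rw [h1]
    exact one_ne_zero
  refine ⟨h3, ?_⟩
  rw [Polynomial.leadingCoeff, h3, h1]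

theorem a3_esymm {d : ℕ} (D : ℕ) (f : MvPolynomial (Fin d) ℂ) (hD : f.totalDegree ≤ D)
    (h0 : MvPolynomial.constantCoeff f = 1) (z : Fin d → ℂ) (j : ℕ) :
    (bs D f z).esymm j = if j ≤ D then (-1) ^ j * MvPolynomial.eval z (MvPolynomial.homogeneousComponent j f) else 0 := by
  have hcard := card_bs D f hD h0 z
  by_cases hj : j ≤ D
  · rw [if_pos hj]
    obtain ⟨h1, h2⟩ := a3_deg D f h0 z
    have h3 := Polynomial.coeff_eq_esymm_roots_of_card (p := revSlice D f z) (k := D - j)
      (by rw [h1]; exact hcard) (by rw [h1]; omega)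
    rw [h1, h2, a3_coeff D f z hj, Nat.sub_sub_self hj, one_mul] at h3
    rw [h3, ← mul_assoc, ← mul_pow, neg_one_mul, neg_neg, one_pow, one_mul]
    rfl
  · rw [if_neg hj]
    unfold Multiset.esymm
    rw [Multiset.powersetCard_eq_empty _ (by rw [hcard]; omega)]
    rfl

theorem a3_ins {m : ℕ} (i : Fin (m + 1)) (c : Fin (m + 1)) :
    AnalyticOnNhd ℂ (fun w : Fin m → ℂ => ins i w c) Set.univ := by
  rcases Fin.eq_self_or_eq_succAbove i c with rfl | ⟨k, rfl⟩
  · have h1 : (fun w : Fin m → ℂ => ins c w c) = fun _ => 1 := by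
      funext w
      exact Fin.insertNth_apply_same _ _ _
    rw [h1]
    exact analyticOnNhd_const
  · have h1 : (fun w : Fin m → ℂ => ins i w (i.succAbove k)) = fun w => w k := by
      funext w
      exact Fin.insertNth_apply_succAbove _ _ _ _
    rw [h1]
    exact (ContinuousLinearMap.proj (R := ℂ) (φ := fun _ : Fin m => ℂ) k).analyticOnNhd _

theorem bs_fam (m D : ℕ) (f : MvPolynomial (Fin (m + 1)) ℂ) (hD : f.totalDegree ≤ D)
    (h0 : MvPolynomial.constantCoeff f = 1)
    (hf : ∀ z ∈ PCM.Ball (m + 1), MvPolynomial.eval z f ≠ 0) (i : Fin (m + 1)) :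
    Fam m D (fun w => bs D f (ins i w)) := by
  refine ⟨fun w => card_bs D f hD h0 _, ?_, ?_⟩
  · intro w b hb
    have h1 := bs_bound D f hD h0 hf (ins i w) b hb
    rwa [sum_ins] at h1
  · intro l k
    obtain ⟨G, hG⟩ := exists_esymm_pow D k l
    have h1 : (fun w => ((bs D f (ins i w)).map (· ^ k)).esymm l) =
        fun w => MvPolynomial.aeval (fun j => (bs D f (ins i w)).esymm j) G := by
      funext w
      rw [hG _ (card_bs D f hD h0 _)]
      exact (DFunLike.congr_fun (MvPolynomial.coe_aeval_eq_eval _) _).symm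
    rw [h1]
    refine AnalyticOnNhd.aeval_mvPolynomial (fun j => ?_) G
    simp only [a3_esymm D f hD h0]
    by_cases hj : j ≤ D
    · simp only [if_pos hj]
      refine analyticOnNhd_const.mul ?_
      have h2 : (fun w : Fin m → ℂ => MvPolynomial.eval (ins i w) (MvPolynomial.homogeneousComponent j f)) =
          fun w => MvPolynomial.aeval (ins i w) (MvPolynomial.homogeneousComponent j f) := by
        funext w
        exact (DFunLike.congr_fun (MvPolynomial.coe_aeval_eq_eval _) _).symm
      rw [h2]
      exact AnalyticOnNhd.aeval_mvPolynomial (fun c => a3_ins i c) _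
    · simp only [if_neg hj]
      exact analyticOnNhd_const

end PCV
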