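import Pool.Agent.PCV.Defs
import Pool.Agent.PCM.Defs

/-!
# [PCV] definitions for the algebraic and the one variable part
-/

open MeasureTheory Set Filter Topology

namespace PCV

/-- the reversed slice polynomial `∑ f_i(z) X^(D-i)`, `f_i` the homogeneous components of `f` -/
noncomputable def revSlice {d : ℕ} (D : ℕ) (f : MvPolynomial (Fin d) ℂ) (z : Fin d → ℂ) :
    Polynomial ℂ :=
  ∑ i ∈ Finset.range (D + 1),
    Polynomial.C (MvPolynomial.eval z (MvPolynomial.homogeneousComponent i f)) *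
      Polynomial.X ^ (D - i)

/-- the inverses of the zeros of `t ↦ f (t z)` (with zeros added to make `D` of them) -/
noncomputable def bs {d : ℕ} (D : ℕ) (f : MvPolynomial (Fin d) ℂ) (z : Fin d → ℂ) : Multiset ℂ :=
  (revSlice D f z).roots

/-- the point `w` with a `1` inserted at place `i` -/
noncomputable def ins {m : ℕ} (i : Fin (m + 1)) (w : Fin m → ℂ) : Fin (m + 1) → ℂ :=
  i.insertNth (α := fun _ => ℂ) 1 w

/-- `J` consists of the iterates of `μ d/dμ` in the unit disc -/
def IsJet (J : ℕ → ℂ → ℂ) : Prop :=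
  ∀ i, ∀ μ ∈ Metric.ball (0 : ℂ) 1, ∃ d' : ℂ, HasDerivAt (J i) d' μ ∧ μ * d' = J (i + 1) μ

/-- the dilation `z ↦ f (ρ z)` of a polynomial -/
noncomputable def dil {d : ℕ} (ρ : ℝ) (f : MvPolynomial (Fin d) ℂ) : MvPolynomial (Fin d) ℂ :=
  MvPolynomial.aeval (fun i => MvPolynomial.C (ρ : ℂ) * MvPolynomial.X i) f

end PCV
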