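import Mathlib

/-!
# [PCV] polynomials without zeros in the ball: definitions for the sublevel estimates

Throughout `Fin m → ℂ` carries its usual (maximum) norm `‖·‖` and Lebesgue measure `volume`; the closed ball of
radius `r` is a polydisc of volume `(π r²)^m`.
-/

open MeasureTheory Set Filter Topology

namespace PCV

/-- the square of the Euclidean norm of `(1, w)` -/
noncomputable def nw {m : ℕ} (w : Fin m → ℂ) : ℝ := 1 + ∑ i, ‖w i‖ ^ 2

/-- the square of the Euclidean norm -/
noncomputable def e2 {m : ℕ} (v : Fin m → ℂ) : ℝ := ∑ i, ‖v i‖ ^ 2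

/-- the (complex linear in `v`) inner product of `v` with `w` -/
noncomputable def pw {m : ℕ} (w v : Fin m → ℂ) : ℂ := ∑ i, v i * (starRingEnd ℂ) (w i)

/-- A family of multisets of `D` complex numbers of modulus at most `|(1,w)|`, such that the elementary symmetric
functions of the powers are holomorphic in `w`. -/
structure Fam (m D : ℕ) (B : (Fin m → ℂ) → Multiset ℂ) : Prop where
  card : ∀ w, Multiset.card (B w) = D
  bound : ∀ w, ∀ b ∈ B w, ‖b‖ ≤ Real.sqrt (nw w)
  hol : ∀ l k : ℕ, AnalyticOnNhd ℂ (fun w => ((B w).map (· ^ k)).esymm l) Set.univ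

open Classical in
/-- the number of elements of `B w` of modulus at least `(1-τ)|(1,w)|` -/
noncomputable def cnt {m : ℕ} (B : (Fin m → ℂ) → Multiset ℂ) (w : Fin m → ℂ) (τ : ℝ) : ℕ :=
  Multiset.countP (fun b => (1 - τ) * Real.sqrt (nw w) ≤ ‖b‖) (B w)

/-- somewhere in the closed ball of radius `3R` about `c` at least `l` elements have modulus at least
`(1-ΛR²)|(1,w)|` -/
def near {m : ℕ} (B : (Fin m → ℂ) → Multiset ℂ) (Λ : ℝ) (c : Fin m → ℂ) (R : ℝ) (l : ℕ) : Prop :=
  ∃ w, ‖w - c‖ ≤ 3 * R ∧ l ≤ cnt B w (Λ * R ^ 2)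

/-- second difference -/
noncomputable def dd {m : ℕ} (N : (Fin m → ℂ) → ℝ) (y v : Fin m → ℂ) : ℝ := N (y + v) + N (y - v) - 2 * N y

/-- the function whose sublevel sets are estimated -/
noncomputable def NN {m : ℕ} (κ : ℕ) (q : (Fin m → ℂ) → ℂ) (w : Fin m → ℂ) : ℝ :=
  κ * Real.log (nw w) - 2 * Real.log ‖q w‖

/-- the second derivative of `log nw` at `w` in the direction `v` -/
noncomputable def PP {m : ℕ} (w v : Fin m → ℂ) : ℝ :=
  2 * e2 v / nw w - 4 * (pw w v).re ^ 2 / nw w ^ 2

end PCV
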