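import Pool.Agent.PCM.P6

/-!
# [PCV-N1] the law with density `c (1-|z|²)^q` on the ball

`IsLaw d m μ` (`PCM/Defs.lean`): probability measure on the closed ball of `Fin d → ℂ` with
`∫ z^α conj(z)^β = δ_{αβ} α! m!/(|α|+m)!`.
Proved by induction on `d` for the balls of all radii.
-/

open MeasureTheory Set Filter Topology

namespace PCV

theorem n1_angle (a b : ℕ) :
    ∫ θ in Set.Ioo (-Real.pi) Real.pi, (((Real.cos θ : ℝ) : ℂ) + ((Real.sin θ : ℝ) : ℂ) * Complex.I) ^ a *
      (starRingEnd ℂ) (((Real.cos θ : ℝ) : ℂ) + ((Real.sin θ : ℝ) : ℂ) * Complex.I) ^ b =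
      if a = b then ((2 * Real.pi : ℝ) : ℂ) else 0 := by
  have e : ∀ θ : ℝ, (((Real.cos θ : ℝ) : ℂ) + ((Real.sin θ : ℝ) : ℂ) * Complex.I) ^ a *
      (starRingEnd ℂ) (((Real.cos θ : ℝ) : ℂ) + ((Real.sin θ : ℝ) : ℂ) * Complex.I) ^ b =
      Complex.exp ((((a : ℤ) - (b : ℤ) : ℤ) : ℂ) * Complex.I * θ) := by
    intro θ
    have h1 : ((Real.cos θ : ℝ) : ℂ) + ((Real.sin θ : ℝ) : ℂ) * Complex.I =
        Complex.exp (θ * Complex.I) := by
      rw [Complex.exp_mul_I]
      push_cast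
      rfl
    rw [h1, ← Complex.exp_conj, ← Complex.exp_nat_mul, ← Complex.exp_nat_mul, ← Complex.exp_add]
    congr 1
    simp only [map_mul, Complex.conj_I, Complex.conj_ofReal]
    push_cast
    ring
  simp only [e]
  rw [← integral_Ioc_eq_integral_Ioo, ← intervalIntegral.integral_of_le (by linarith [Real.pi_pos])]
  by_cases hab : a = b
  · subst hab
    simp
    push_cast
    ring
  · rw [if_neg hab]
    have hne : ((a : ℤ) - (b : ℤ)) ≠ 0 := by omega
    have hc : ((((a : ℤ) - (b : ℤ) : ℤ) : ℂ) * Complex.I) ≠ 0 := by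
      refine mul_ne_zero (by exact_mod_cast hne) Complex.I_ne_zero
    rw [integral_exp_mul_complex hc]
    have h1 : Complex.exp ((((a : ℤ) - (b : ℤ) : ℤ) : ℂ) * Complex.I * ((Real.pi : ℝ) : ℂ)) =
        Complex.exp ((((a : ℤ) - (b : ℤ) : ℤ) : ℂ) * Complex.I * ((-Real.pi : ℝ) : ℂ)) := by
      rw [Complex.exp_eq_exp_iff_exists_int]
      refine ⟨(a : ℤ) - b, ?_⟩
      push_cast
      ring
    rw [h1, sub_self, zero_div]

theorem n1_radial (a p : ℕ) (t : ℝ) (ht : 0 < t) :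
    ∫ r in Set.Ioi (0 : ℝ), (if r ^ 2 < t then r * r ^ (a + a) * (t - r ^ 2) ^ p else 0) =
      (a.factorial : ℝ) * (p.factorial : ℝ) / ((a + p + 1).factorial : ℝ) * t ^ (a + p + 1) / 2 := by
  have hs : 0 ≤ √t := Real.sqrt_nonneg t
  have h1 : ∫ r in Set.Ioi (0 : ℝ), (if r ^ 2 < t then r * r ^ (a + a) * (t - r ^ 2) ^ p else 0) =
      ∫ r in Set.Ioo (0 : ℝ) (√t), r * r ^ (a + a) * (t - r ^ 2) ^ p := by
    rw [← integral_indicator measurableSet_Ioi, ← integral_indicator measurableSet_Ioo]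
    congr 1
    funext r
    by_cases hr : 0 < r
    · rw [Set.indicator_of_mem (show r ∈ Set.Ioi (0 : ℝ) from hr)]
      by_cases hrt : r ^ 2 < t
      · rw [if_pos hrt, Set.indicator_of_mem]
        exact ⟨hr, (Real.lt_sqrt hr.le).2 hrt⟩
      · rw [if_neg hrt, Set.indicator_of_notMem]
        rintro ⟨-, h⟩
        exact hrt ((Real.lt_sqrt hr.le).1 h)
    · rw [Set.indicator_of_notMem (show r ∉ Set.Ioi (0 : ℝ) from hr), Set.indicator_of_notMem]
      rintro ⟨h, -⟩
      exact hr h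
  rw [h1, ← integral_Ioc_eq_integral_Ioo, ← intervalIntegral.integral_of_le hs]
  have hd : ∀ x ∈ Set.uIcc (0 : ℝ) (√t), HasDerivAt (fun x : ℝ => x ^ 2 / t) (2 * x / t) x := by
    intro x _
    have h := (hasDerivAt_pow 2 x).div_const t
    simpa using h
  have h2 := intervalIntegral.integral_comp_mul_deriv (a := (0 : ℝ)) (b := √t)
    (f := fun x : ℝ => x ^ 2 / t) (f' := fun x : ℝ => 2 * x / t)
    (g := fun u : ℝ => u ^ a * (1 - u) ^ p) hd (by fun_prop) (by fun_prop)
  have h3 : (fun x : ℝ => x * x ^ (a + a) * (t - x ^ 2) ^ p) = fun x : ℝ =>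
      (t ^ (a + p + 1) / 2) * ((((fun u : ℝ => u ^ a * (1 - u) ^ p) ∘ fun x : ℝ => x ^ 2 / t) x) *
        (2 * x / t)) := by
    funext x
    simp only [Function.comp]
    have h4 : 1 - x ^ 2 / t = (t - x ^ 2) / t := by
      field_simp
    rw [h4, div_pow, div_pow, ← pow_mul, two_mul, pow_add t, pow_add t, pow_one]
    have h5 : t ^ a ≠ 0 := pow_ne_zero _ ht.ne'
    have h6 : t ^ p ≠ 0 := pow_ne_zero _ ht.ne'
    field_simp
  rw [h3, intervalIntegral.integral_const_mul, h2]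
  have h7 : √t ^ 2 / t = 1 := by
    rw [Real.sq_sqrt ht.le, div_self ht.ne']
  have h8 : (0 : ℝ) ^ 2 / t = 0 := by simp
  rw [h7, h8, PCM.beta_nat]
  ring

theorem n1_one (a b p : ℕ) (t : ℝ) (ht : 0 < t) :
    ∫ z : ℂ, (if ‖z‖ ^ 2 < t then z ^ a * (starRingEnd ℂ) z ^ b * (((t - ‖z‖ ^ 2) ^ p : ℝ) : ℂ)
      else 0) =
    if a = b then ((Real.pi * (a.factorial : ℝ) * (p.factorial : ℝ) / ((a + p + 1).factorial : ℝ) *
      t ^ (a + p + 1) : ℝ) : ℂ) else 0 := by
  rw [← Complex.integral_comp_polarCoord_symm]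
  have key : ∀ q ∈ polarCoord.target, q.1 • (if ‖Complex.polarCoord.symm q‖ ^ 2 < t then
      (Complex.polarCoord.symm q) ^ a * (starRingEnd ℂ) (Complex.polarCoord.symm q) ^ b *
        (((t - ‖Complex.polarCoord.symm q‖ ^ 2) ^ p : ℝ) : ℂ) else 0) =
      ((if q.1 ^ 2 < t then q.1 * q.1 ^ (a + b) * (t - q.1 ^ 2) ^ p else 0 : ℝ) : ℂ) *
      ((((Real.cos q.2 : ℝ) : ℂ) + ((Real.sin q.2 : ℝ) : ℂ) * Complex.I) ^ a *
      (starRingEnd ℂ) (((Real.cos q.2 : ℝ) : ℂ) + ((Real.sin q.2 : ℝ) : ℂ) * Complex.I) ^ b) := by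
    intro q hq
    have hq1 : 0 < q.1 := hq.1
    rw [Complex.norm_polarCoord_symm, sq_abs, Complex.polarCoord_symm_apply]
    split_ifs with h
    · simp only [map_mul, Complex.conj_ofReal, mul_pow, Complex.real_smul, pow_add]
      push_cast
      ring
    · simp
  rw [setIntegral_congr_fun polarCoord.open_target.measurableSet key, polarCoord_target,
    Measure.volume_eq_prod]
  rw [setIntegral_prod_mul (μ := (volume : Measure ℝ)) (ν := (volume : Measure ℝ))
    (fun r : ℝ => ((if r ^ 2 < t then r * r ^ (a + b) * (t - r ^ 2) ^ p else 0 : ℝ) : ℂ))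
    (fun θ : ℝ => (((Real.cos θ : ℝ) : ℂ) + ((Real.sin θ : ℝ) : ℂ) * Complex.I) ^ a *
      (starRingEnd ℂ) (((Real.cos θ : ℝ) : ℂ) + ((Real.sin θ : ℝ) : ℂ) * Complex.I) ^ b),
    n1_angle]
  by_cases hab : a = b
  · subst hab
    rw [if_pos rfl, if_pos rfl, integral_complex_ofReal, n1_radial a p t ht]
    push_cast
    ring
  · rw [if_neg hab, if_neg hab, mul_zero]


/-- `∑ ‖z i‖²` -/
noncomputable def n1V {d : ℕ} (z : Fin d → ℂ) : ℝ := ∑ i, ‖z i‖ ^ 2

/-- the integrand -/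
noncomputable def n1G (d q : ℕ) (α β : Fin d →₀ ℕ) (t : ℝ) (z : Fin d → ℂ) : ℂ :=
  ((∏ i, z i ^ α i) * ∏ i, (starRingEnd ℂ) (z i) ^ β i) * (((t - n1V z) ^ q : ℝ) : ℂ)

theorem n1V_continuous (d : ℕ) : Continuous (n1V (d := d)) := by
  unfold n1V
  fun_prop

theorem n1V_nonneg {d : ℕ} (z : Fin d → ℂ) : 0 ≤ n1V z :=
  Finset.sum_nonneg fun i _ => by positivity

theorem n1G_continuous (d q : ℕ) (α β : Fin d →₀ ℕ) (t : ℝ) : Continuous (n1G d q α β t) := by
  have h1 := n1V_continuous d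
  have h2 := Complex.continuous_conj
  unfold n1G
  fun_prop

theorem n1V_lt_subset (d : ℕ) (t : ℝ) : {z : Fin d → ℂ | n1V z < t} ⊆ Metric.closedBall 0 (√t) := by
  intro z hz
  rw [mem_closedBall_zero_iff, pi_norm_le_iff_of_nonneg (Real.sqrt_nonneg t)]
  intro i
  apply Real.le_sqrt_of_sq_le
  have h1 : ‖z i‖ ^ 2 ≤ n1V z :=
    Finset.single_le_sum (f := fun i => ‖z i‖ ^ 2) (fun _ _ => by positivity) (Finset.mem_univ i)
  exact h1.trans (le_of_lt hz)

theorem n1_meas (d : ℕ) (t : ℝ) : MeasurableSet {z : Fin d → ℂ | n1V z < t} :=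
  (isOpen_lt (n1V_continuous d) continuous_const).measurableSet

theorem n1_integrable (d q : ℕ) (α β : Fin d →₀ ℕ) (t : ℝ) :
    IntegrableOn (n1G d q α β t) {z | n1V z < t} :=
  ((n1G_continuous d q α β t).continuousOn.integrableOn_compact
    (isCompact_closedBall 0 (√t))).mono_set (n1V_lt_subset d t)

theorem n1_ext {d : ℕ} (α β : Fin (d + 1) →₀ ℕ) : α = β ↔ α 0 = β 0 ∧ α.tail = β.tail := by
  constructor
  · rintro rfl
    exact ⟨rfl, rfl⟩
  · rintro ⟨h1, h2⟩
    ext i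
    refine Fin.cases h1 (fun j => ?_) i
    exact DFunLike.congr_fun h2 j

theorem n1_cons {d : ℕ} (z₀ : ℂ) (z : Fin d → ℂ) :
    n1V (Fin.cons z₀ z : Fin (d + 1) → ℂ) = ‖z₀‖ ^ 2 + n1V z := by
  unfold n1V
  rw [Fin.sum_univ_succ]
  simp only [Fin.cons_zero, Fin.cons_succ]

theorem n1G_cons {d q : ℕ} (α β : Fin (d + 1) →₀ ℕ) (t : ℝ) (z₀ : ℂ) (z : Fin d → ℂ) :
    n1G (d + 1) q α β t (Fin.cons z₀ z) = (z₀ ^ α 0 * (starRingEnd ℂ) z₀ ^ β 0) *
      n1G d q α.tail β.tail (t - ‖z₀‖ ^ 2) z := by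
  unfold n1G
  rw [n1_cons, Fin.prod_univ_succ, Fin.prod_univ_succ]
  simp only [Fin.cons_zero, Fin.cons_succ, Finsupp.tail_apply]
  rw [← sub_sub]
  ring

theorem n1_moments (d q : ℕ) (α β : Fin d →₀ ℕ) (t : ℝ) (ht : 0 < t) :
    ∫ z in {z : Fin d → ℂ | n1V z < t}, n1G d q α β t z =
    if α = β then ((Real.pi ^ d * (∏ i, ((α i).factorial : ℝ)) * q.factorial /
      (((∑ i, α i) + d + q).factorial : ℝ) * t ^ ((∑ i, α i) + d + q) : ℝ) : ℂ) else 0 := by
  induction d generalizing t with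
  | zero =>
    have h1 : {z : Fin 0 → ℂ | n1V z < t} = Set.univ := by
      ext z
      simp [n1V, ht]
    rw [h1, Measure.restrict_univ, Measure.volume_pi_eq_dirac default, integral_dirac,
      if_pos (Subsingleton.elim α β)]
    have h2 : (q.factorial : ℝ) ≠ 0 := by positivity
    simp [n1G, n1V, h2]
  | succ d ih =>
    set e := MeasurableEquiv.piFinSuccAbove (fun _ : Fin (d + 1) => ℂ) 0 with he
    have hmp : MeasurePreserving e volume volume :=
      volume_preserving_piFinSuccAbove (fun _ : Fin (d + 1) => ℂ) 0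
    have hes : ∀ p : ℂ × (Fin d → ℂ), e.symm p = Fin.cons p.1 p.2 := fun p => by
      simp [he, MeasurableEquiv.piFinSuccAbove]
      rfl
    set S : Set (Fin (d + 1) → ℂ) := {z | n1V z < t} with hS
    set F : (Fin (d + 1) → ℂ) → ℂ := S.indicator (n1G (d + 1) q α β t) with hF
    have hFi : Integrable F := (integrable_indicator_iff (n1_meas _ _)).2 (n1_integrable _ _ _ _ _)
    have hFi' : Integrable (F ∘ e.symm) ((volume : Measure ℂ).prod (volume : Measure (Fin d → ℂ))) :=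
      (hmp.symm.integrable_comp_emb e.symm.measurableEmbedding).2 hFi
    rw [← integral_indicator (n1_meas _ _), ← hF, ← hmp.symm.integral_comp' F]
    have h1 : ∫ p : ℂ × (Fin d → ℂ), F (e.symm p) =
        ∫ z₀ : ℂ, ∫ z : Fin d → ℂ, F (e.symm (z₀, z)) :=
      integral_prod (fun p => F (e.symm p)) hFi'
    rw [h1]
    have h2 : ∀ z₀ : ℂ, ∫ z : Fin d → ℂ, F (e.symm (z₀, z)) =
        (if α.tail = β.tail then ((Real.pi ^ d * (∏ i, ((α.tail i).factorial : ℝ)) * q.factorial /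
          (((∑ i, α.tail i) + d + q).factorial : ℝ) : ℝ) : ℂ) else 0) *
        (if ‖z₀‖ ^ 2 < t then z₀ ^ α 0 * (starRingEnd ℂ) z₀ ^ β 0 *
          (((t - ‖z₀‖ ^ 2) ^ ((∑ i, α.tail i) + d + q) : ℝ) : ℂ) else 0) := by
      intro z₀
      by_cases hz : ‖z₀‖ ^ 2 < t
      · have h3 : ∀ z : Fin d → ℂ, F (e.symm (z₀, z)) = (z₀ ^ α 0 * (starRingEnd ℂ) z₀ ^ β 0) *
            ({z : Fin d → ℂ | n1V z < t - ‖z₀‖ ^ 2}.indicator
              (n1G d q α.tail β.tail (t - ‖z₀‖ ^ 2)) z) := by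
          intro z
          rw [hes, hF]
          by_cases hz2 : n1V z < t - ‖z₀‖ ^ 2
          · rw [Set.indicator_of_mem, Set.indicator_of_mem, n1G_cons]
            · exact hz2
            · show n1V (Fin.cons z₀ z : Fin (d + 1) → ℂ) < t
              rw [n1_cons]
              linarith
          · rw [Set.indicator_of_notMem, Set.indicator_of_notMem, mul_zero]
            · exact hz2
            · show ¬ n1V (Fin.cons z₀ z : Fin (d + 1) → ℂ) < t
              rw [n1_cons]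
              intro h
              apply hz2
              linarith
        simp only [h3]
        rw [integral_const_mul, integral_indicator (n1_meas _ _), ih _ _ _ (sub_pos.2 hz),
          if_pos hz]
        split_ifs
        · push_cast
          ring
        · ring
      · have h3 : ∀ z : Fin d → ℂ, F (e.symm (z₀, z)) = 0 := by
          intro z
          rw [hes, hF, Set.indicator_of_notMem]
          show ¬ n1V (Fin.cons z₀ z : Fin (d + 1) → ℂ) < t
          rw [n1_cons]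
          have := n1V_nonneg z
          intro h
          apply hz
          linarith
        simp only [h3]
        rw [integral_zero, if_neg hz, mul_zero]
    simp only [h2]
    rw [integral_const_mul, n1_one _ _ _ _ ht]
    by_cases h0 : α 0 = β 0
    · by_cases htl : α.tail = β.tail
      · rw [if_pos h0, if_pos htl, if_pos ((n1_ext α β).2 ⟨h0, htl⟩), Fin.prod_univ_succ,
          Fin.sum_univ_succ]
        have e1 : ∑ i : Fin d, α i.succ = ∑ i, α.tail i := rfl
        have e2 : ∏ i : Fin d, ((α i.succ).factorial : ℝ) =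
          ∏ i, ((α.tail i).factorial : ℝ) := rfl
        rw [e1, e2]
        have e3 : α 0 + (∑ i, α.tail i) + (d + 1) + q = α 0 + ((∑ i, α.tail i) + d + q) + 1 := by
          ring
        rw [e3]
        have h5 : ((((∑ i, α.tail i) + d + q).factorial : ℝ)) ≠ 0 := by positivity
        rw [← Complex.ofReal_mul]
        congr 1
        field_simp
        rw [pow_succ]
      · rw [if_neg htl, if_neg (fun h => htl ((n1_ext α β).1 h).2), zero_mul]
    · rw [if_neg h0, if_neg (fun h => h0 ((n1_ext α β).1 h).1), mul_zero]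

theorem ball_moments (d q : ℕ) (α β : Fin d →₀ ℕ) :
    ∫ z in PCM.Ball d, ((∏ i, z i ^ α i) * ∏ i, (starRingEnd ℂ) (z i) ^ β i) *
      (((1 - ∑ i, ‖z i‖ ^ 2) ^ q : ℝ) : ℂ) =
    if α = β then ((Real.pi ^ d * (∏ i, ((α i).factorial : ℝ)) * q.factorial /
      (((∑ i, α i) + d + q).factorial : ℝ) : ℝ) : ℂ) else 0 := by
  have h := n1_moments d q α β 1 one_pos
  rw [one_pow, mul_one] at h
  exact h

theorem exists_law_density (d q : ℕ) : ∃ c : NNReal, PCM.IsLaw d (d + q)
    ((c : ENNReal) • ((volume : Measure (Fin d → ℂ)).restrict (PCM.Ball d)).withDensity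
      fun z => ENNReal.ofReal ((1 - ∑ i, ‖z i‖ ^ 2) ^ q)) := by
  have hc0 : (0 : ℝ) ≤ ((d + q).factorial : ℝ) / (Real.pi ^ d * q.factorial) := by positivity
  refine ⟨⟨((d + q).factorial : ℝ) / (Real.pi ^ d * q.factorial), hc0⟩, ?_⟩
  set c : NNReal := ⟨((d + q).factorial : ℝ) / (Real.pi ^ d * q.factorial), hc0⟩ with hc
  set μ := ((c : ENNReal) • ((volume : Measure (Fin d → ℂ)).restrict (PCM.Ball d)).withDensity
      fun z => ENNReal.ofReal ((1 - ∑ i, ‖z i‖ ^ 2) ^ q)) with hμ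
  have hB : MeasurableSet (PCM.Ball d) := n1_meas d 1
  have hmeas : Measurable fun z : Fin d → ℂ => Real.toNNReal ((1 - ∑ i, ‖z i‖ ^ 2) ^ q) := by
    have h1 := (n1V_continuous d).measurable
    unfold n1V at h1
    fun_prop
  have hmom : ∀ α β : Fin d →₀ ℕ,
      ∫ z, (∏ i, z i ^ α i) * ∏ i, (starRingEnd ℂ) (z i) ^ β i ∂μ =
      if α = β then ((PCM.vv (d + q) α : ℝ) : ℂ) else 0 := by
    intro α β
    have h1 : ∫ z, (∏ i, z i ^ α i) * ∏ i, (starRingEnd ℂ) (z i) ^ β i ∂μ =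
        (c : ℝ) • ∫ z in PCM.Ball d, ((∏ i, z i ^ α i) * ∏ i, (starRingEnd ℂ) (z i) ^ β i) *
          (((1 - ∑ i, ‖z i‖ ^ 2) ^ q : ℝ) : ℂ) := by
      rw [hμ, integral_smul_measure]
      congr 1
      refine (integral_withDensity_eq_integral_smul hmeas _).trans ?_
      refine setIntegral_congr_fun hB fun z hz => ?_
      have hz' : 0 ≤ (1 - ∑ i, ‖z i‖ ^ 2) ^ q :=
        pow_nonneg (sub_nonneg.2 (le_of_lt hz)) q
      simp only [NNReal.smul_def, Real.coe_toNNReal _ hz', Complex.real_smul]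
      ring
    rw [h1, ball_moments]
    split_ifs with hab
    · rw [Complex.real_smul, ← Complex.ofReal_mul]
      congr 1
      unfold PCM.vv
      have hcv : (c : ℝ) = ((d + q).factorial : ℝ) / (Real.pi ^ d * q.factorial) := rfl
      rw [hcv]
      have h2 : (q.factorial : ℝ) ≠ 0 := by positivity
      have h3 : Real.pi ^ d ≠ 0 := by positivity
      rw [add_assoc]
      field_simp
    · rw [smul_zero]
  refine ⟨?_, ?_, hmom⟩
  · have h := hmom 0 0
    simp only [Finsupp.coe_zero, Pi.zero_apply, pow_zero, Finset.prod_const_one, mul_one, if_true] at h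
    have h1 : PCM.vv (d + q) (0 : Fin d →₀ ℕ) = 1 := by
      unfold PCM.vv
      simp only [Finsupp.coe_zero, Pi.zero_apply, Nat.factorial_zero, Nat.cast_one,
        Finset.prod_const_one, one_mul, Finset.sum_const_zero, zero_add]
      exact div_self (by positivity)
    rw [h1, integral_const, Complex.ofReal_one] at h
    have h2 : μ.real univ = 1 := by
      rw [Complex.real_smul, mul_one] at h
      exact_mod_cast h
    constructor
    rw [measureReal_def] at h2
    exact (ENNReal.toReal_eq_one_iff _).1 h2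
  · have h1 : ∀ᵐ z ∂((volume : Measure (Fin d → ℂ)).restrict (PCM.Ball d)),
        ∑ i, ‖z i‖ ^ 2 ≤ 1 :=
      (ae_restrict_mem hB).mono fun z hz => le_of_lt hz
    have h2 : μ ≪ (volume : Measure (Fin d → ℂ)).restrict (PCM.Ball d) :=
      Measure.smul_absolutelyContinuous.trans (withDensity_absolutelyContinuous _ _)
    exact h2.ae_le h1

end PCV
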