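import Pool.Agent.PCV.ADefs

/-!
# [PCV-N2] integration over the ball in projective charts

`Ball (m+1)` is covered by the sets `S_i = {z ∈ Ball | z i ≠ 0 ∧ ∀ j, ‖z j‖ ≤ ‖z i‖}` and the null set `{0}`.
For each `i`: `∫⁻ z in S_i, F z = ∫⁻ λ, ∫⁻ z', F 1_{S_i} (insertNth i λ z')` (`volume_preserving_piFinSuccAbove`).  For
`λ ≠ 0` substitute `z' = λ w`: multiplication by `λ` on `Fin m → ℂ` multiplies Lebesgue measure by `‖λ‖^(2m)`
(product of the scalings of `ℂ`; or rotation and real scaling).  `insertNth i λ (λ w) = λ (ins i w)`; it lies in `S_i`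
iff `‖w‖ ≤ 1` and `‖λ‖² nw w < 1`.  Tonelli: `= ∫⁻ w in closedBall 0 1, ∫⁻ λ in {‖λ‖² nw w < 1}, F (λ ins i w) ‖λ‖^(2m)`.
Substitute `λ = μ/√(nw w)`: `dλ = dμ/nw w`, `‖λ‖^(2m) ≤ 1`, `1/nw w ≤ 1`.
-/

open MeasureTheory Set Filter Topology

namespace PCV

/-- scaling by a complex number, any real linear map given by its determinant -/
theorem n2_lin {E : Type*} [NormedAddCommGroup E] [NormedSpace ℝ E] [FiniteDimensional ℝ E] [MeasureSpace E]
    [BorelSpace E] [(volume : Measure E).IsAddHaarMeasure] (L : E →ₗ[ℝ] E) (D : ℝ) (hD : 0 < D)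
    (hdet : LinearMap.det L = D) (hL : Measurable L) (G : E → ENNReal) (hG : Measurable G) :
    ∫⁻ w : E, G (L w) = ENNReal.ofReal D⁻¹ * ∫⁻ v : E, G v := by
  have h0 : LinearMap.det L ≠ 0 := by rw [hdet]; exact hD.ne'
  have h1 := MeasureTheory.Measure.map_linearMap_addHaar_eq_smul_addHaar (volume : Measure E) h0
  have h2 : ∫⁻ w : E, G (L w) = ∫⁻ v, G v ∂(Measure.map L volume) := by
    rw [lintegral_map hG hL]
  rw [h2, h1, lintegral_smul_measure, hdet, abs_of_nonneg (by positivity)]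
  rfl

/-- scaling of `Fin m → ℂ` -/
theorem n2_smul (m : ℕ) (x : ℂ) (hx : x ≠ 0) (G : (Fin m → ℂ) → ENNReal) (hG : Measurable G) :
    ∫⁻ z : Fin m → ℂ, G z = ENNReal.ofReal (‖x‖ ^ (2 * m)) * ∫⁻ w : Fin m → ℂ, G (x • w) := by
  have hx' : 0 < ‖x‖ := norm_pos_iff.2 hx
  obtain ⟨L, hL⟩ : ∃ L : (Fin m → ℂ) →ₗ[ℝ] (Fin m → ℂ), L = (x • (LinearMap.id : (Fin m → ℂ) →ₗ[ℂ] (Fin m → ℂ))).restrictScalars ℝ :=
    ⟨_, rfl⟩
  have hLw : ∀ w, L w = x • w := by
    intro w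
    rw [hL]
    rfl
  have hdet : LinearMap.det L = ‖x‖ ^ (2 * m) := by
    rw [hL, LinearMap.det_restrictScalars, LinearMap.det_smul, LinearMap.det_id, mul_one,
      Module.finrank_fin_fun, map_pow, Algebra.norm_complex_apply, Complex.normSq_eq_norm_sq, ← pow_mul]
  have hLm : Measurable L := by
    have : (L : (Fin m → ℂ) → (Fin m → ℂ)) = fun w => x • w := funext hLw
    rw [this]
    exact measurable_const_smul x
  have h1 := n2_lin L (‖x‖ ^ (2 * m)) (by positivity) hdet hLm G hG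
  have h2 : ∫⁻ w : Fin m → ℂ, G (x • w) = ENNReal.ofReal (‖x‖ ^ (2 * m))⁻¹ * ∫⁻ v, G v := by
    rw [← h1]
    exact lintegral_congr fun w => by rw [hLw]
  rw [h2, ← mul_assoc, ← ENNReal.ofReal_mul (by positivity), mul_inv_cancel₀ (by positivity), ENNReal.ofReal_one,
    one_mul]

/-- scaling of the variable in `ℂ` by a real number at least one -/
theorem n2_scal (c : ℝ) (hc : 1 ≤ c) (G : ℂ → ENNReal) (hG : Measurable G) :
    ∫⁻ x : ℂ, G ((c : ℂ) * x) ≤ ∫⁻ v : ℂ, G v := by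
  have hc0 : (c : ℂ) ≠ 0 := by
    exact_mod_cast (by linarith : c ≠ 0)
  have hcn : 1 ≤ ‖(c : ℂ)‖ := by
    rw [Complex.norm_real, Real.norm_eq_abs, abs_of_nonneg (by linarith)]
    exact hc
  have hdet : LinearMap.det (LinearMap.mul ℝ ℂ (c : ℂ)) = ‖(c : ℂ)‖ ^ 2 := by
    have e : LinearMap.det (LinearMap.mul ℝ ℂ (c : ℂ)) = Algebra.norm ℝ (c : ℂ) := by
      rw [Algebra.norm_apply]
      rfl
    rw [e, Algebra.norm_complex_apply, Complex.normSq_eq_norm_sq]
  have h1 := n2_lin (LinearMap.mul ℝ ℂ (c : ℂ)) (‖(c : ℂ)‖ ^ 2) (by positivity) hdet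
    (measurable_const_mul (c : ℂ)) G hG
  have h2 : ∫⁻ x : ℂ, G ((c : ℂ) * x) = ENNReal.ofReal (‖(c : ℂ)‖ ^ 2)⁻¹ * ∫⁻ v : ℂ, G v := h1
  rw [h2]
  refine mul_le_of_le_one_left' ?_
  rw [ENNReal.ofReal_le_one]
  exact inv_le_one_of_one_le₀ (one_le_pow₀ hcn)

theorem n2_nw {m : ℕ} (w : Fin m → ℂ) : 1 ≤ nw w := by
  unfold nw
  have : 0 ≤ ∑ i, ‖w i‖ ^ 2 := Finset.sum_nonneg fun i _ => by positivity
  linarith

theorem n2_cont (m : ℕ) : Continuous (nw : (Fin m → ℂ) → ℝ) := by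
  unfold nw
  fun_prop

theorem n2_ins {m : ℕ} (i : Fin (m + 1)) : Continuous (ins i : (Fin m → ℂ) → (Fin (m + 1) → ℂ)) := by
  unfold ins
  exact Continuous.finInsertNth i continuous_const continuous_id

theorem n2_sum {m : ℕ} (i : Fin (m + 1)) (w : Fin m → ℂ) : ∑ j, ‖ins i w j‖ ^ 2 = nw w := by
  rw [Fin.sum_univ_succAbove _ i]
  unfold ins nw
  simp

theorem n2_insmul {m : ℕ} (i : Fin (m + 1)) (x : ℂ) (w : Fin m → ℂ) :
    (i.insertNth (α := fun _ => ℂ) x (x • w)) = fun j => x * ins i w j := by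
  funext j
  refine Fin.succAboveCases i ?_ (fun k => ?_) j
  · unfold ins
    simp
  · unfold ins
    simp

/-- the part of the ball where the coordinate `i` dominates -/
def n2_S (m : ℕ) (i : Fin (m + 1)) : Set (Fin (m + 1) → ℂ) :=
  {z | z ∈ PCM.Ball (m + 1) ∧ ∀ j, ‖z j‖ ≤ ‖z i‖}

theorem n2_Smeas (m : ℕ) (i : Fin (m + 1)) : MeasurableSet (n2_S m i) := by
  have h1 : MeasurableSet (PCM.Ball (m + 1)) := by
    unfold PCM.Ball
    refine IsOpen.measurableSet (isOpen_lt ?_ continuous_const)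
    fun_prop
  have h2 : MeasurableSet {z : Fin (m + 1) → ℂ | ∀ j, ‖z j‖ ≤ ‖z i‖} := by
    refine IsClosed.measurableSet ?_
    have : {z : Fin (m + 1) → ℂ | ∀ j, ‖z j‖ ≤ ‖z i‖} = ⋂ j, {z : Fin (m + 1) → ℂ | ‖z j‖ ≤ ‖z i‖} := by
      ext z
      simp
    rw [this]
    refine isClosed_iInter fun j => isClosed_le ?_ ?_
    · fun_prop
    · fun_prop
  exact h1.inter h2

theorem n2_cover (m : ℕ) : PCM.Ball (m + 1) ⊆ ⋃ i, n2_S m i := by
  intro z hz
  obtain ⟨i, -, hi⟩ := Finset.exists_max_image (Finset.univ : Finset (Fin (m + 1))) (fun j => ‖z j‖)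
    ⟨0, Finset.mem_univ _⟩
  rw [Set.mem_iUnion]
  exact ⟨i, hz, fun j => hi j (Finset.mem_univ j)⟩

theorem n2_one (m : ℕ) (F : (Fin (m + 1) → ℂ) → ENNReal) (hF : Measurable F) (i : Fin (m + 1)) :
    ∫⁻ z in n2_S m i, F z ≤ ∫⁻ w in Metric.closedBall (0 : Fin m → ℂ) 1, ∫⁻ μ in Metric.ball (0 : ℂ) 1,
        F (fun j => μ / (Real.sqrt (nw w) : ℂ) * ins i w j) := by
  obtain ⟨G, hG⟩ : ∃ G : (Fin (m + 1) → ℂ) → ENNReal, G = (n2_S m i).indicator F := ⟨_, rfl⟩
  have hGm : Measurable G := by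
    rw [hG]
    exact hF.indicator (n2_Smeas m i)
  have e1 : ∫⁻ z in n2_S m i, F z = ∫⁻ z, G z := by
    rw [hG, lintegral_indicator (n2_Smeas m i)]
  have hmp := (volume_preserving_piFinSuccAbove (fun _ : Fin (m + 1) => ℂ) i).symm
  have e2 : ∫⁻ z, G z = ∫⁻ p : ℂ × (Fin m → ℂ), G (i.insertNth (α := fun _ => ℂ) p.1 p.2) := by
    rw [← hmp.lintegral_comp_emb (MeasurableEquiv.measurableEmbedding _)]
    rfl
  have hins : Measurable fun p : ℂ × (Fin m → ℂ) => i.insertNth (α := fun _ => ℂ) p.1 p.2 :=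
    (Continuous.finInsertNth i continuous_fst continuous_snd).measurable
  have e3 : ∫⁻ p : ℂ × (Fin m → ℂ), G (i.insertNth (α := fun _ => ℂ) p.1 p.2) =
      ∫⁻ x : ℂ, ∫⁻ z : Fin m → ℂ, G (i.insertNth (α := fun _ => ℂ) x z) := by
    rw [Measure.volume_eq_prod]
    exact lintegral_prod _ (hGm.comp hins).aemeasurable
  -- the integrand after the substitution
  obtain ⟨Φ, hΦ⟩ : ∃ Φ : (Fin m → ℂ) → ℂ → ENNReal, Φ = fun w μ =>
      (Metric.closedBall (0 : Fin m → ℂ) 1).indicator (fun w =>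
        (Metric.ball (0 : ℂ) 1).indicator (fun μ => F (fun j => μ / (Real.sqrt (nw w) : ℂ) * ins i w j)) μ) w :=
    ⟨_, rfl⟩
  have hsq : ∀ w : Fin m → ℂ, 1 ≤ Real.sqrt (nw w) := fun w => Real.one_le_sqrt.2 (n2_nw w)
  have hsqC : ∀ w : Fin m → ℂ, (Real.sqrt (nw w) : ℂ) ≠ 0 := fun w => by
    exact_mod_cast (by linarith [hsq w] : Real.sqrt (nw w) ≠ 0)
  have e4 : ∀ x : ℂ, x ≠ 0 → ∫⁻ z : Fin m → ℂ, G (i.insertNth (α := fun _ => ℂ) x z) ≤
      ∫⁻ w : Fin m → ℂ, Φ w ((Real.sqrt (nw w) : ℂ) * x) := by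
    intro x hx
    have hx' : 0 < ‖x‖ := norm_pos_iff.2 hx
    have hm1 : Measurable fun z : Fin m → ℂ => G (i.insertNth (α := fun _ => ℂ) x z) :=
      hGm.comp (Continuous.finInsertNth i continuous_const continuous_id).measurable
    have hm2 : Measurable fun w : Fin m → ℂ => G (i.insertNth (α := fun _ => ℂ) x (x • w)) :=
      hm1.comp (measurable_const_smul x)
    rw [n2_smul m x hx _ hm1, ← lintegral_const_mul _ hm2]
    refine lintegral_mono fun w => ?_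
    show ENNReal.ofReal (‖x‖ ^ (2 * m)) * G (i.insertNth (α := fun _ => ℂ) x (x • w)) ≤ _
    rw [n2_insmul, hG]
    by_cases hS : (fun j => x * ins i w j) ∈ n2_S m i
    · rw [Set.indicator_of_mem hS]
      obtain ⟨hb, hd⟩ := hS
      have h1 : ‖x‖ ^ 2 * nw w < 1 := by
        have h2 : ∑ j, ‖x * ins i w j‖ ^ 2 < 1 := hb
        have h3 : ∑ j, ‖x * ins i w j‖ ^ 2 = ‖x‖ ^ 2 * nw w := by
          rw [← n2_sum i w, Finset.mul_sum]
          refine Finset.sum_congr rfl fun j _ => ?_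
          rw [norm_mul, mul_pow]
        rwa [h3] at h2
      have hw : w ∈ Metric.closedBall (0 : Fin m → ℂ) 1 := by
        rw [mem_closedBall_zero_iff, pi_norm_le_iff_of_nonneg zero_le_one]
        intro k
        have h4 := hd (i.succAbove k)
        simp only [norm_mul] at h4
        unfold ins at h4
        rw [Fin.insertNth_apply_succAbove, Fin.insertNth_apply_same, norm_one, mul_one] at h4
        exact le_of_mul_le_mul_left (by rwa [mul_one]) hx'
      have hμ : (Real.sqrt (nw w) : ℂ) * x ∈ Metric.ball (0 : ℂ) 1 := by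
        rw [mem_ball_zero_iff, norm_mul, Complex.norm_real, Real.norm_eq_abs, abs_of_nonneg (Real.sqrt_nonneg _)]
        have h5 : (Real.sqrt (nw w) * ‖x‖) ^ 2 < 1 := by
          rw [mul_pow, Real.sq_sqrt (by linarith [n2_nw w])]
          linarith
        nlinarith [mul_nonneg (Real.sqrt_nonneg (nw w)) hx'.le]
      rw [hΦ]
      show _ ≤ (Metric.closedBall (0 : Fin m → ℂ) 1).indicator (fun w' =>
        (Metric.ball (0 : ℂ) 1).indicator (fun μ => F (fun j => μ / (Real.sqrt (nw w') : ℂ) * ins i w' j))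
          ((Real.sqrt (nw w) : ℂ) * x)) w
      rw [Set.indicator_of_mem hw, Set.indicator_of_mem hμ]
      rw [mul_div_cancel_left₀ _ (hsqC w)]
      refine mul_le_of_le_one_left' ?_
      rw [ENNReal.ofReal_le_one]
      refine pow_le_one₀ hx'.le ?_
      have := n2_nw w
      nlinarith
    · rw [Set.indicator_of_notMem hS, mul_zero]
      exact zero_le
  have hae : ∀ᵐ x : ℂ, x ≠ 0 := by
    rw [ae_iff]
    simp
  have e5 : ∫⁻ x : ℂ, ∫⁻ z : Fin m → ℂ, G (i.insertNth (α := fun _ => ℂ) x z) ≤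
      ∫⁻ x : ℂ, ∫⁻ w : Fin m → ℂ, Φ w ((Real.sqrt (nw w) : ℂ) * x) :=
    lintegral_mono_ae (hae.mono fun x hx => e4 x hx)
  have hcs : Continuous fun w : Fin m → ℂ => (Real.sqrt (nw w) : ℂ) := by
    have := n2_cont m
    fun_prop
  have hmeas0 : Measurable fun p : (Fin m → ℂ) × ℂ => F (fun j => p.2 / (Real.sqrt (nw p.1) : ℂ) * ins i p.1 j) := by
    refine hF.comp (measurable_pi_iff.2 fun j => ?_)
    have h1 : Measurable fun p : (Fin m → ℂ) × ℂ => ins i p.1 j :=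
      (measurable_pi_apply j).comp ((n2_ins i).measurable.comp measurable_fst)
    have h2 : Measurable fun p : (Fin m → ℂ) × ℂ => (Real.sqrt (nw p.1) : ℂ) := hcs.measurable.comp measurable_fst
    exact (measurable_snd.div h2).mul h1
  have hmeas : Measurable fun p : (Fin m → ℂ) × ℂ => Φ p.1 p.2 := by
    have h1 : (fun p : (Fin m → ℂ) × ℂ => Φ p.1 p.2) =
        (Metric.closedBall (0 : Fin m → ℂ) 1 ×ˢ Metric.ball (0 : ℂ) 1).indicator
          (fun p : (Fin m → ℂ) × ℂ => F (fun j => p.2 / (Real.sqrt (nw p.1) : ℂ) * ins i p.1 j)) := by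
      funext p
      rw [hΦ]
      by_cases h1 : p.1 ∈ Metric.closedBall (0 : Fin m → ℂ) 1
      · by_cases h2 : p.2 ∈ Metric.ball (0 : ℂ) 1
        · show (Metric.closedBall (0 : Fin m → ℂ) 1).indicator _ p.1 = _
          rw [Set.indicator_of_mem h1, Set.indicator_of_mem h2, Set.indicator_of_mem (Set.mk_mem_prod h1 h2)]
        · show (Metric.closedBall (0 : Fin m → ℂ) 1).indicator _ p.1 = _
          rw [Set.indicator_of_mem h1, Set.indicator_of_notMem h2, Set.indicator_of_notMem]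
          intro h3
          exact h2 h3.2
      · show (Metric.closedBall (0 : Fin m → ℂ) 1).indicator _ p.1 = _
        rw [Set.indicator_of_notMem h1, Set.indicator_of_notMem]
        intro h3
        exact h1 h3.1
    rw [h1]
    exact hmeas0.indicator (Metric.isClosed_closedBall.measurableSet.prod Metric.isOpen_ball.measurableSet)
  have hmeas2 : Measurable (Function.uncurry fun (x : ℂ) (w : Fin m → ℂ) => Φ w ((Real.sqrt (nw w) : ℂ) * x)) := by
    have h2 : Measurable fun p : ℂ × (Fin m → ℂ) => (Real.sqrt (nw p.2) : ℂ) := hcs.measurable.comp measurable_snd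
    exact hmeas.comp (measurable_snd.prodMk (h2.mul measurable_fst))
  have e6 : ∫⁻ x : ℂ, ∫⁻ w : Fin m → ℂ, Φ w ((Real.sqrt (nw w) : ℂ) * x) =
      ∫⁻ w : Fin m → ℂ, ∫⁻ x : ℂ, Φ w ((Real.sqrt (nw w) : ℂ) * x) :=
    lintegral_lintegral_swap hmeas2.aemeasurable
  have e7 : ∫⁻ w : Fin m → ℂ, ∫⁻ x : ℂ, Φ w ((Real.sqrt (nw w) : ℂ) * x) ≤ ∫⁻ w : Fin m → ℂ, ∫⁻ μ : ℂ, Φ w μ :=
    lintegral_mono fun w => n2_scal _ (hsq w) _ (hmeas.comp measurable_prodMk_left)
  have e8 : ∫⁻ w : Fin m → ℂ, ∫⁻ μ : ℂ, Φ w μ = ∫⁻ w in Metric.closedBall (0 : Fin m → ℂ) 1,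
      ∫⁻ μ in Metric.ball (0 : ℂ) 1, F (fun j => μ / (Real.sqrt (nw w) : ℂ) * ins i w j) := by
    rw [← lintegral_indicator Metric.isClosed_closedBall.measurableSet]
    refine lintegral_congr fun w => ?_
    rw [hΦ]
    by_cases h1 : w ∈ Metric.closedBall (0 : Fin m → ℂ) 1
    · rw [Set.indicator_of_mem h1, ← lintegral_indicator Metric.isOpen_ball.measurableSet]
      refine lintegral_congr fun μ => ?_
      show (Metric.closedBall (0 : Fin m → ℂ) 1).indicator _ w = _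
      rw [Set.indicator_of_mem h1]
    · rw [Set.indicator_of_notMem h1]
      rw [← lintegral_zero]
      refine lintegral_congr fun μ => ?_
      show (Metric.closedBall (0 : Fin m → ℂ) 1).indicator _ w = _
      rw [Set.indicator_of_notMem h1]
  rw [e1, e2, e3]
  exact e5.trans (e6.le.trans (e7.trans e8.le))

theorem chart_le (m : ℕ) (F : (Fin (m + 1) → ℂ) → ENNReal) (hF : Measurable F) :
    ∫⁻ z in PCM.Ball (m + 1), F z ≤ ∑ i : Fin (m + 1),
      ∫⁻ w in Metric.closedBall (0 : Fin m → ℂ) 1, ∫⁻ μ in Metric.ball (0 : ℂ) 1,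
        F (fun j => μ / (Real.sqrt (nw w) : ℂ) * ins i w j) := by
  calc ∫⁻ z in PCM.Ball (m + 1), F z ≤ ∫⁻ z in ⋃ i, n2_S m i, F z := lintegral_mono_set (n2_cover m)
    _ ≤ ∑' i, ∫⁻ z in n2_S m i, F z := lintegral_iUnion_le _ _
    _ = ∑ i, ∫⁻ z in n2_S m i, F z := tsum_fintype _
    _ ≤ _ := Finset.sum_le_sum fun i _ => n2_one m F hF i

end PCV
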