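import Pool.Agent.PCV.ADefs
import Pool.Agent.PCM.D1
import Pool.Agent.PCM.T2
import Pool.Agent.PCM.P14

/-!
# [PCV-N4] polynomials are multipliers; inverses of dilates

The coercion `MvPolynomial (Fin d) ℂ → MvPowerSeries (Fin d) ℂ` (`MvPolynomial.coeff_coe`, `coe_mul`, `coe_add`, ...).
* `conv_coe`: finitely many nonzero coefficients.  `ev_coe`: `tsum` over the support, `MvPolynomial.eval_eq'`.
* `isMult_coe`: constants are multipliers; `X i` is a multiplier: `coeff (α + e_i) (X_i f) = coeff α f`, other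
  coefficients vanish, `wt (α + e_i) = (α i + 1)/(|α| + 1) wt α ≤ wt α`; products and sums: `mult_mul`, `mult_add`
  (`PCM/P14`); `MvPolynomial.induction_on`.
* `exists_inv_dil`: `eval z (dil ρ f) = eval (ρ z) f`.  The set `{z | ∑ ‖z i‖² ≤ 1}` is compact, `z ↦ |f (ρ z)|` is
  continuous and nonzero on it (`ρ z ∈ Ball d` as `ρ < 1`), so `≥ δ > 0`.  `exists_inv` (`PCM/T2`) gives `g` with
  `Conv g`, `dil ρ f * g = 1` and the values; `isMult_inv` (`PCM/D1`) gives `IsMult g`.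
-/

open MeasureTheory Set Filter Topology

namespace PCV

open PCM in
theorem conv_coe {d : ℕ} (f : MvPolynomial (Fin d) ℂ) : Conv (f : A d) := by
  intro z _
  refine summable_of_ne_finset_zero (s := f.support) fun α hα => ?_
  rw [MvPolynomial.coeff_coe, MvPolynomial.notMem_support_iff.1 hα, norm_zero, zero_mul]

open PCM in
theorem ev_coe {d : ℕ} (f : MvPolynomial (Fin d) ℂ) (z : Fin d → ℂ) :
    ev (f : A d) z = MvPolynomial.eval z f := by
  unfold ev
  rw [tsum_eq_sum (s := f.support) fun α hα => by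
    rw [MvPolynomial.coeff_coe, MvPolynomial.notMem_support_iff.1 hα, zero_mul],
    MvPolynomial.eval_eq']
  refine Finset.sum_congr rfl fun α _ => ?_
  rw [MvPolynomial.coeff_coe]

open PCM in
theorem n4_wt {d : ℕ} (i : Fin d) (β : Fin d →₀ ℕ) : wt (Finsupp.single i 1 + β) ≤ wt β := by
  classical
  have h1 : ∑ j, (Finsupp.single i 1 + β : Fin d →₀ ℕ) j = (∑ j, β j) + 1 := by
    simp only [Finsupp.add_apply, Finset.sum_add_distrib]
    have h2 : ∑ j, (Finsupp.single i 1 : Fin d →₀ ℕ) j = 1 := by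
      rw [Finset.sum_eq_single i]
      · exact Finsupp.single_eq_same
      · intro j _ hj
        exact Finsupp.single_eq_of_ne hj
      · intro h
        exact absurd (Finset.mem_univ i) h
    rw [h2, add_comm]
  have h3 : ∏ j, (((Finsupp.single i 1 + β : Fin d →₀ ℕ) j).factorial : ℝ) =
      ((β i : ℝ) + 1) * ∏ j, ((β j).factorial : ℝ) := by
    rw [← Finset.mul_prod_erase Finset.univ _ (Finset.mem_univ i),
      ← Finset.mul_prod_erase Finset.univ (fun j => ((β j).factorial : ℝ)) (Finset.mem_univ i)]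
    have h4 : (Finsupp.single i 1 + β : Fin d →₀ ℕ) i = β i + 1 := by
      rw [Finsupp.add_apply, Finsupp.single_eq_same, add_comm]
    rw [h4, Nat.factorial_succ]
    have h5 : ∏ j ∈ Finset.univ.erase i, (((Finsupp.single i 1 + β : Fin d →₀ ℕ) j).factorial : ℝ) =
        ∏ j ∈ Finset.univ.erase i, ((β j).factorial : ℝ) := by
      refine Finset.prod_congr rfl fun j hj => ?_
      rw [Finsupp.add_apply, Finsupp.single_eq_of_ne (Finset.ne_of_mem_erase hj), zero_add]
    rw [h5]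
    push_cast
    ring
  unfold wt
  rw [h3, h1, Nat.factorial_succ]
  push_cast
  have hβ : (β i : ℝ) ≤ ∑ j, (β j : ℝ) :=
    Finset.single_le_sum (f := fun j => (β j : ℝ)) (fun j _ => Nat.cast_nonneg _)
      (Finset.mem_univ i)
  have hP : 0 ≤ ∏ j, ((β j).factorial : ℝ) := Finset.prod_nonneg fun j _ => Nat.cast_nonneg _
  have hS : (0 : ℝ) < ((∑ j, β j).factorial : ℝ) := by exact_mod_cast Nat.factorial_pos _
  have hs0 : (0 : ℝ) ≤ ∑ j, (β j : ℝ) := Finset.sum_nonneg fun j _ => Nat.cast_nonneg _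
  rw [div_le_div_iff₀ (mul_pos (by linarith) hS) hS]
  have h6 : 0 ≤ (∏ j, ((β j).factorial : ℝ)) * ((∑ j, β j).factorial : ℝ) :=
    mul_nonneg hP hS.le
  calc ((β i : ℝ) + 1) * (∏ j, ((β j).factorial : ℝ)) * ((∑ j, β j).factorial : ℝ)
      = ((β i : ℝ) + 1) * ((∏ j, ((β j).factorial : ℝ)) * ((∑ j, β j).factorial : ℝ)) := by ring
    _ ≤ ((∑ j, (β j : ℝ)) + 1) *
        ((∏ j, ((β j).factorial : ℝ)) * ((∑ j, β j).factorial : ℝ)) :=
        mul_le_mul_of_nonneg_right (by linarith) h6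
    _ = (∏ j, ((β j).factorial : ℝ)) * (((∑ j, (β j : ℝ)) + 1) *
        ((∑ j, β j).factorial : ℝ)) := by ring

open PCM in
theorem n4_X {d : ℕ} (i : Fin d) : IsMult (MvPowerSeries.X i : A d) := by
  classical
  intro f hf
  have hX : (MvPowerSeries.X i : A d) = MvPowerSeries.monomial (Finsupp.single i 1) (1 : ℂ) := rfl
  show Summable fun α => wt α * ‖MvPowerSeries.coeff α (MvPowerSeries.X i * f)‖ ^ 2
  have hinj : Function.Injective (fun β : Fin d →₀ ℕ => Finsupp.single i 1 + β) :=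
    fun _ _ h => add_left_cancel h
  have hz : ∀ α, α ∉ Set.range (fun β : Fin d →₀ ℕ => Finsupp.single i 1 + β) →
      wt α * ‖MvPowerSeries.coeff α (MvPowerSeries.X i * f)‖ ^ 2 = 0 := by
    intro α hα
    rw [hX, MvPowerSeries.coeff_monomial_mul, if_neg, norm_zero]
    · simp
    · intro h
      exact hα ⟨α - Finsupp.single i 1, add_tsub_cancel_of_le h⟩
  rw [← hinj.summable_iff hz]
  refine Summable.of_nonneg_of_le (fun β => ?_) (fun β => ?_) hf
  · exact mul_nonneg (wt_pos _).le (sq_nonneg _)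
  · show wt (Finsupp.single i 1 + β) *
      ‖MvPowerSeries.coeff (Finsupp.single i 1 + β) (MvPowerSeries.X i * f)‖ ^ 2 ≤ _
    rw [hX, MvPowerSeries.coeff_add_monomial_mul, one_mul]
    exact mul_le_mul_of_nonneg_right (n4_wt i β) (sq_nonneg _)

open PCM in
theorem isMult_coe {d : ℕ} (f : MvPolynomial (Fin d) ℂ) : IsMult (f : A d) := by
  induction f using MvPolynomial.induction_on with
  | C a =>
    intro g hg
    have h := smul_mem a hg
    have e : ((MvPolynomial.C a : MvPolynomial (Fin d) ℂ) : A d) * g = a • g := by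
      rw [MvPolynomial.coe_C, MvPowerSeries.smul_eq_C_mul]
    rw [e]
    exact h
  | add p q hp hq =>
    rw [MvPolynomial.coe_add]
    exact mult_add hp hq
  | mul_X p i hp =>
    rw [MvPolynomial.coe_mul, MvPolynomial.coe_X]
    exact mult_mul hp (n4_X i)

theorem eval_dil {d : ℕ} (ρ : ℝ) (f : MvPolynomial (Fin d) ℂ) (z : Fin d → ℂ) :
    MvPolynomial.eval z (dil ρ f) = MvPolynomial.eval (fun i => (ρ : ℂ) * z i) f := by
  induction f using MvPolynomial.induction_on with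
  | C a => simp [dil]
  | add p q hp hq =>
    have e : dil ρ (p + q) = dil ρ p + dil ρ q := by simp [dil]
    rw [e, map_add, map_add, hp, hq]
  | mul_X p i hp =>
    have e : dil ρ (p * MvPolynomial.X i) =
        dil ρ p * (MvPolynomial.C (ρ : ℂ) * MvPolynomial.X i) := by simp [dil]
    rw [e, map_mul, map_mul, hp]
    simp

open PCM in
theorem exists_inv_dil {d : ℕ} (f : MvPolynomial (Fin d) ℂ)
    (hf : ∀ z ∈ Ball d, MvPolynomial.eval z f ≠ 0) (ρ : ℝ) (hρ0 : 0 ≤ ρ) (hρ : ρ < 1) :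
    ∃ g : A d, Conv g ∧ IsMult g ∧ (dil ρ f : A d) * g = 1 ∧
      ∀ z ∈ Ball d, ev g z = (MvPolynomial.eval (fun i => (ρ : ℂ) * z i) f)⁻¹ := by
  have hKc : IsCompact {z : Fin d → ℂ | ∑ i, ‖z i‖ ^ 2 ≤ 1} := by
    apply Metric.isCompact_of_isClosed_isBounded
    · exact isClosed_le (by fun_prop) continuous_const
    · refine (Metric.isBounded_closedBall (x := (0 : Fin d → ℂ)) (r := 1)).subset fun z hz => ?_
      rw [mem_closedBall_zero_iff, pi_norm_le_iff_of_nonneg zero_le_one]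
      exact fun i => p7_le_one hz i
  have hcont : Continuous fun z : Fin d → ℂ =>
      ‖MvPolynomial.eval (fun i => (ρ : ℂ) * z i) f‖ := by
    have h1 : Continuous fun x : Fin d → ℂ => MvPolynomial.eval x f :=
      MvPolynomial.continuous_eval f
    have h2 : Continuous fun z : Fin d → ℂ => (fun i => (ρ : ℂ) * z i) := by fun_prop
    exact (h1.comp h2).norm
  obtain ⟨z₀, hz₀, hmin⟩ := hKc.exists_isMinOn ⟨0, by simp⟩ hcont.continuousOn
  have hball : ∀ z : Fin d → ℂ, ∑ i, ‖z i‖ ^ 2 ≤ 1 → (fun i => (ρ : ℂ) * z i) ∈ Ball d := by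
    intro z hz
    show ∑ i, ‖(ρ : ℂ) * z i‖ ^ 2 < 1
    have e : ∑ i, ‖(ρ : ℂ) * z i‖ ^ 2 = ρ ^ 2 * ∑ i, ‖z i‖ ^ 2 := by
      rw [Finset.mul_sum]
      refine Finset.sum_congr rfl fun i _ => ?_
      rw [norm_mul, Complex.norm_real, Real.norm_of_nonneg hρ0, mul_pow]
    rw [e]
    calc ρ ^ 2 * ∑ i, ‖z i‖ ^ 2 ≤ ρ ^ 2 * 1 := mul_le_mul_of_nonneg_left hz (sq_nonneg _)
      _ < 1 := by nlinarith
  have hδ : 0 < ‖MvPolynomial.eval (fun i => (ρ : ℂ) * z₀ i) f‖ :=
    norm_pos_iff.2 (hf _ (hball z₀ hz₀))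
  have hlow : ∀ z ∈ Ball d, ‖MvPolynomial.eval (fun i => (ρ : ℂ) * z₀ i) f‖ ≤
      ‖ev (dil ρ f : A d) z‖ := by
    intro z hz
    rw [ev_coe, eval_dil]
    have hz' : ∑ i, ‖z i‖ ^ 2 < 1 := hz
    exact hmin (show z ∈ {z : Fin d → ℂ | ∑ i, ‖z i‖ ^ 2 ≤ 1} from hz'.le)
  obtain ⟨b, hb1, hb2, hb3⟩ := exists_inv (conv_coe (dil ρ f)) hδ hlow
  refine ⟨b, hb1, isMult_inv (isMult_coe (dil ρ f)) hb1 hb2 hδ hlow, hb2, ?_⟩
  intro z hz
  rw [hb3 z hz, ev_coe, eval_dil]

end PCV
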