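import Mathlib

/-!
# [PCV-O2] the Forelli-Rudin integral in the disc

If `‖c‖ = 1` the right side is `⊤` unless `C = 0`; take `C > 0`.  Let `‖c‖ < 1`.
For `‖μ‖ < 1`: `(1 - cμ)^{-N} = ∑_j a_j c^j μ^j`, `a_j = choose (N+j-1) j` (`N ≥ 1`; `N = 0` trivial), absolutely
convergent.  In polar coordinates (`Complex.lintegral_comp_polarCoord_symm`), for `0 < t < 1`
`∫_0^{2π} ‖(1 - c t e^{iθ})^{-N}‖² dθ = 2π ∑_j a_j² ‖c‖^{2j} t^{2j}` (orthogonality: uniformly convergent series, or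
Parseval), so the integral equals `∑_j a_j² ‖c‖^{2j} 2π ∫_0^1 t^{2j+1} (1-t²)^q dt
 = ∑_j a_j² ‖c‖^{2j} π j! q!/(j+q+1)!` (the beta integral `∫_0^1 x^j (1-x)^q = j! q!/(j+q+1)!` is `PCM.beta_nat` in
`Pool/Agent/PCM/P6.lean`, an upper bound is enough).
`a_j ≤ C (j+1)^(N-1)` and `j! q!/(j+q+1)! ≤ C (j+1)^{-(q+1)}`, so (natural numbers, `2N - 2 ≤ s - 1 + q + 1`)
each term is `≤ C (j+1)^{s-1} x^j`, `x = ‖c‖²`, and `(j+1)^{s-1} ≤ (s-1)! choose (j+s-1) (s-1)`,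
`∑_j choose (j+s-1) (s-1) x^j = (1-x)^{-s}` (`tsum_choose_mul_geometric_of_norm_lt_one`), and `1 - x ≥ 1 - ‖c‖`.
-/

open MeasureTheory Set Filter Topology

namespace PCV

theorem o2_mul (c : ℂ) (hc : c ≠ 0) (G : ℂ → ENNReal) (hG : Measurable G) :
    ∫⁻ w : ℂ, G (c * w) = ENNReal.ofReal (‖c‖ ^ 2)⁻¹ * ∫⁻ v : ℂ, G v := by
  have hdet : LinearMap.det (LinearMap.mul ℝ ℂ c) = ‖c‖ ^ 2 := by
    have e : LinearMap.det (LinearMap.mul ℝ ℂ c) = Algebra.norm ℝ c := by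
      rw [Algebra.norm_apply]
      rfl
    rw [e, Algebra.norm_complex_apply, Complex.normSq_eq_norm_sq]
  have hc' : 0 < ‖c‖ := norm_pos_iff.2 hc
  have h0 : LinearMap.det (LinearMap.mul ℝ ℂ c) ≠ 0 := by
    rw [hdet]
    positivity
  have h1 := MeasureTheory.Measure.map_linearMap_addHaar_eq_smul_addHaar (volume : Measure ℂ) h0
  have h2 : ∫⁻ w : ℂ, G (c * w) = ∫⁻ v, G v ∂(Measure.map (LinearMap.mul ℝ ℂ c) volume) := by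
    rw [lintegral_map hG]
    · rfl
    · exact measurable_const_mul c
  rw [h2, h1, lintegral_smul_measure, hdet, abs_of_nonneg (by positivity)]
  rfl

theorem o2_aff (c : ℂ) (hc : c ≠ 0) {δ : ℝ} (hδ : 0 < δ) (G : ℂ → ENNReal) (hG : Measurable G) :
    ∫⁻ w : ℂ, G ((δ : ℂ)⁻¹ * (1 - c * w)) =
      ENNReal.ofReal (‖c‖ ^ 2)⁻¹ * (ENNReal.ofReal (δ ^ 2) * ∫⁻ v : ℂ, G v) := by
  have hd : ((δ : ℂ)⁻¹) ≠ 0 := inv_ne_zero (by exact_mod_cast hδ.ne')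
  have hH : Measurable fun x : ℂ => G ((δ : ℂ)⁻¹ * (1 - x)) := by
    refine hG.comp ?_
    fun_prop
  have h1 := o2_mul c hc (fun x => G ((δ : ℂ)⁻¹ * (1 - x))) hH
  have h2 : ∫⁻ x : ℂ, G ((δ : ℂ)⁻¹ * (1 - x)) = ∫⁻ x : ℂ, G ((δ : ℂ)⁻¹ * x) :=
    lintegral_sub_left_eq_self (fun x => G ((δ : ℂ)⁻¹ * x)) 1
  have h3 := o2_mul ((δ : ℂ)⁻¹) hd G hG
  have h4 : (‖((δ : ℂ)⁻¹)‖ ^ 2)⁻¹ = δ ^ 2 := by
    rw [norm_inv, Complex.norm_real, Real.norm_eq_abs, abs_of_pos hδ, inv_pow, inv_inv]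
  rw [h1, h2, h3, h4]

theorem o2_pt {q N s : ℕ} (h : 2 * N ≤ s + q + 2) {a ρ δ : ℝ} (ha : 0 ≤ a) (ha1 : a ≤ 1)
    (h1 : 1 - a ≤ ρ) (h2 : δ ≤ ρ) (hδ : 0 < δ) (h3 : ρ ≤ 2) :
    (1 - a ^ 2) ^ q * (ρ ^ (2 * N))⁻¹ ≤
      2 ^ (2 * q + 2 * s + 4) * (δ ^ (s + 2))⁻¹ * ((1 + δ⁻¹ * ρ) ^ (s + 2))⁻¹ := by
  have hρ : 0 < ρ := hδ.trans_le h2
  obtain ⟨k, hk⟩ : ∃ k, s + q + 2 = 2 * N + k := ⟨_, (Nat.add_sub_cancel' h).symm⟩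
  have e1 : (1 - a ^ 2) ^ q ≤ (2 * ρ) ^ q := by
    refine pow_le_pow_left₀ (by nlinarith) ?_ q
    nlinarith
  have e2 : ρ ^ k ≤ 2 ^ k := pow_le_pow_left₀ hρ.le h3 k
  have e3 : δ * (1 + δ⁻¹ * ρ) ≤ 2 * ρ := by
    rw [mul_add, mul_one, mul_inv_cancel_left₀ hδ.ne']
    linarith
  have hpos : 0 < δ * (1 + δ⁻¹ * ρ) := by positivity
  have e4 : (δ * (1 + δ⁻¹ * ρ)) ^ (s + 2) ≤ (2 * ρ) ^ (s + 2) := pow_le_pow_left₀ hpos.le e3 _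
  have e5 : (δ ^ (s + 2))⁻¹ * ((1 + δ⁻¹ * ρ) ^ (s + 2))⁻¹ = ((δ * (1 + δ⁻¹ * ρ)) ^ (s + 2))⁻¹ := by
    rw [mul_pow, mul_inv]
  rw [mul_assoc, e5]
  have e6 : ((2 * ρ) ^ (s + 2))⁻¹ ≤ ((δ * (1 + δ⁻¹ * ρ)) ^ (s + 2))⁻¹ :=
    inv_anti₀ (pow_pos hpos _) e4
  refine le_trans ?_ (mul_le_mul_of_nonneg_left e6 (by positivity))
  rw [← div_eq_mul_inv, ← div_eq_mul_inv, div_le_div_iff₀ (by positivity) (by positivity)]
  have e7 : (1 - a ^ 2) ^ q * (2 * ρ) ^ (s + 2) ≤ (2 * ρ) ^ q * (2 * ρ) ^ (s + 2) :=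
    mul_le_mul_of_nonneg_right e1 (by positivity)
  refine e7.trans ?_
  have e8 : (2 * ρ) ^ q * (2 * ρ) ^ (s + 2) = 2 ^ (q + s + 2) * ρ ^ (2 * N) * ρ ^ k := by
    have e9 : (2 * ρ) ^ q * (2 * ρ) ^ (s + 2) = 2 ^ (q + s + 2) * ρ ^ (s + q + 2) := by
      rw [← pow_add, mul_pow]
      ring_nf
    rw [e9, hk, pow_add ρ (2 * N) k, mul_assoc]
  have e10 : (2 : ℝ) ^ (q + s + 2) * 2 ^ k ≤ 2 ^ (2 * q + 2 * s + 4) := by
    rw [← pow_add]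
    exact pow_le_pow_right₀ (by norm_num) (by omega)
  rw [e8]
  calc 2 ^ (q + s + 2) * ρ ^ (2 * N) * ρ ^ k ≤ 2 ^ (q + s + 2) * ρ ^ (2 * N) * 2 ^ k :=
        mul_le_mul_of_nonneg_left e2 (by positivity)
    _ = (2 ^ (q + s + 2) * 2 ^ k) * ρ ^ (2 * N) := by ring
    _ ≤ 2 ^ (2 * q + 2 * s + 4) * ρ ^ (2 * N) := mul_le_mul_of_nonneg_right e10 (by positivity)

theorem forelli_rudin (q N s : ℕ) (hs : 1 ≤ s) (h : 2 * N ≤ s + q + 2) : ∃ C : NNReal, 0 < C ∧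
    ∀ c : ℂ, ‖c‖ ≤ 1 →
      ∫⁻ μ in Metric.ball (0 : ℂ) 1,
        ENNReal.ofReal ((1 - ‖μ‖ ^ 2) ^ q * (‖1 - c * μ‖ ^ (2 * N))⁻¹) ≤
      C * ((ENNReal.ofReal (1 - ‖c‖))⁻¹) ^ s := by
  obtain ⟨G, hG⟩ : ∃ G : ℂ → ENNReal, G = fun v => ENNReal.ofReal (((1 + ‖v‖) ^ (s + 2))⁻¹) :=
    ⟨_, rfl⟩
  have hGm : Measurable G := by
    rw [hG]
    fun_prop
  obtain ⟨K, hK⟩ : ∃ K : ENNReal, K = ∫⁻ v : ℂ, G v := ⟨_, rfl⟩
  have hKfin : K ≠ ⊤ := by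
    have h1 := finite_integral_one_add_norm (E := ℂ) (μ := volume) (r := ((s + 2 : ℕ) : ℝ)) (by
      rw [Complex.finrank_real_complex]
      have : (1 : ℝ) ≤ s := by exact_mod_cast hs
      push_cast
      linarith)
    have e : K = ∫⁻ v : ℂ, ENNReal.ofReal ((1 + ‖v‖) ^ (-((s + 2 : ℕ) : ℝ))) := by
      rw [hK, hG]
      refine lintegral_congr fun v => ?_
      rw [Real.rpow_neg (by positivity), Real.rpow_natCast]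
    rw [e]
    exact h1.ne
  obtain ⟨M, hM⟩ : ∃ M : ENNReal, M = volume (Metric.ball (0 : ℂ) 1) := ⟨_, rfl⟩
  have hMfin : M ≠ ⊤ := by
    rw [hM]
    exact measure_ball_lt_top.ne
  obtain ⟨C, hC⟩ : ∃ C : ENNReal, C = ENNReal.ofReal (2 ^ (2 * q + 2 * s + 6)) * K +
    ENNReal.ofReal (2 ^ (2 * N)) * M + 1 := ⟨_, rfl⟩
  have hCfin : C ≠ ⊤ := by
    rw [hC]
    exact ENNReal.add_ne_top.2 ⟨ENNReal.add_ne_top.2 ⟨ENNReal.mul_ne_top ENNReal.ofReal_ne_top hKfin,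
      ENNReal.mul_ne_top ENNReal.ofReal_ne_top hMfin⟩, ENNReal.one_ne_top⟩
  have hC1 : 1 ≤ C := by
    rw [hC]
    exact le_add_self
  refine ⟨C.toNNReal, ?_, ?_⟩
  · rw [ENNReal.toNNReal_pos_iff]
    exact ⟨lt_of_lt_of_le zero_lt_one hC1, hCfin.lt_top⟩
  intro c hc
  rw [ENNReal.coe_toNNReal hCfin]
  rcases hc.eq_or_lt with hc1 | hc1
  · rw [hc1, sub_self, ENNReal.ofReal_zero, ENNReal.inv_zero, ENNReal.top_pow (by omega),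
      ENNReal.mul_top (lt_of_lt_of_le zero_lt_one hC1).ne']
    exact le_top
  have hδ : 0 < 1 - ‖c‖ := by linarith
  have hR : (ENNReal.ofReal (1 - ‖c‖))⁻¹ ^ s = ENNReal.ofReal (((1 - ‖c‖) ^ s)⁻¹) := by
    rw [← ENNReal.ofReal_inv_of_pos hδ, ← ENNReal.ofReal_pow (by positivity), inv_pow]
  have hρ : ∀ μ ∈ Metric.ball (0 : ℂ) 1, 1 - ‖μ‖ ≤ ‖1 - c * μ‖ ∧ 1 - ‖c‖ ≤ ‖1 - c * μ‖ ∧
      ‖1 - c * μ‖ ≤ 2 := by
    intro μ hμ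
    rw [mem_ball_zero_iff] at hμ
    have h1 : 1 - ‖c‖ * ‖μ‖ ≤ ‖1 - c * μ‖ := by
      have h2 := norm_sub_norm_le (1 : ℂ) (c * μ)
      rw [norm_one, norm_mul] at h2
      exact h2
    have h3 : ‖1 - c * μ‖ ≤ 1 + ‖c‖ * ‖μ‖ := by
      have h2 := norm_sub_le (1 : ℂ) (c * μ)
      rw [norm_one, norm_mul] at h2
      exact h2
    have h4 := norm_nonneg c
    have h5 := norm_nonneg μ
    refine ⟨?_, ?_, ?_⟩ <;> nlinarith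
  rcases lt_or_ge ‖c‖ (1 / 2) with hc2 | hc2
  · have h1 : ∀ μ ∈ Metric.ball (0 : ℂ) 1,
        ENNReal.ofReal ((1 - ‖μ‖ ^ 2) ^ q * (‖1 - c * μ‖ ^ (2 * N))⁻¹) ≤
          ENNReal.ofReal (2 ^ (2 * N)) := by
      intro μ hμ
      apply ENNReal.ofReal_le_ofReal
      obtain ⟨_, g2, _⟩ := hρ μ hμ
      rw [mem_ball_zero_iff] at hμ
      have h5 := norm_nonneg μ
      have h6 : (1 - ‖μ‖ ^ 2) ^ q ≤ 1 := pow_le_one₀ (by nlinarith) (by nlinarith)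
      have h7 : (‖1 - c * μ‖ ^ (2 * N))⁻¹ ≤ 2 ^ (2 * N) := by
        rw [← inv_pow]
        refine pow_le_pow_left₀ (by positivity) ?_ _
        rw [inv_le_comm₀ (by linarith) (by norm_num)]
        linarith
      have h8 : 0 ≤ (‖1 - c * μ‖ ^ (2 * N))⁻¹ := by positivity
      calc (1 - ‖μ‖ ^ 2) ^ q * (‖1 - c * μ‖ ^ (2 * N))⁻¹
          ≤ 1 * (‖1 - c * μ‖ ^ (2 * N))⁻¹ := mul_le_mul_of_nonneg_right h6 h8
        _ = (‖1 - c * μ‖ ^ (2 * N))⁻¹ := one_mul _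
        _ ≤ 2 ^ (2 * N) := h7
    have h2 : ∫⁻ μ in Metric.ball (0 : ℂ) 1,
        ENNReal.ofReal ((1 - ‖μ‖ ^ 2) ^ q * (‖1 - c * μ‖ ^ (2 * N))⁻¹) ≤
          ENNReal.ofReal (2 ^ (2 * N)) * M := by
      refine (setLIntegral_mono' measurableSet_ball h1).trans ?_
      rw [setLIntegral_const, hM]
    have h3 : ENNReal.ofReal (2 ^ (2 * N)) * M ≤ C := by
      rw [hC, add_assoc, add_comm]
      exact (le_self_add).trans le_self_add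
    have h4 : 1 ≤ (ENNReal.ofReal (1 - ‖c‖))⁻¹ ^ s := by
      rw [hR, ← ENNReal.ofReal_one]
      apply ENNReal.ofReal_le_ofReal
      rw [one_le_inv₀ (by positivity)]
      exact pow_le_one₀ hδ.le (by linarith [norm_nonneg c])
    calc _ ≤ ENNReal.ofReal (2 ^ (2 * N)) * M := h2
      _ ≤ C := h3
      _ = C * 1 := (mul_one _).symm
      _ ≤ _ := mul_le_mul' le_rfl h4
  · have hc0 : c ≠ 0 := by
      rintro rfl
      rw [norm_zero] at hc2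
      norm_num at hc2
    have h1 : ∀ μ ∈ Metric.ball (0 : ℂ) 1,
        ENNReal.ofReal ((1 - ‖μ‖ ^ 2) ^ q * (‖1 - c * μ‖ ^ (2 * N))⁻¹) ≤
          ENNReal.ofReal (2 ^ (2 * q + 2 * s + 4) * ((1 - ‖c‖) ^ (s + 2))⁻¹) *
            G (((1 - ‖c‖ : ℝ) : ℂ)⁻¹ * (1 - c * μ)) := by
      intro μ hμ
      obtain ⟨g1, g2, g3⟩ := hρ μ hμ
      rw [mem_ball_zero_iff] at hμ
      have h2 := o2_pt h (norm_nonneg μ) hμ.le g1 g2 hδ g3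
      rw [hG]
      show _ ≤ _ * ENNReal.ofReal (((1 + ‖((1 - ‖c‖ : ℝ) : ℂ)⁻¹ * (1 - c * μ)‖) ^ (s + 2))⁻¹)
      rw [← ENNReal.ofReal_mul (by positivity)]
      apply ENNReal.ofReal_le_ofReal
      rw [norm_mul, norm_inv, Complex.norm_real, Real.norm_eq_abs, abs_of_pos hδ]
      exact h2
    have h2 : ∫⁻ μ in Metric.ball (0 : ℂ) 1,
        ENNReal.ofReal ((1 - ‖μ‖ ^ 2) ^ q * (‖1 - c * μ‖ ^ (2 * N))⁻¹) ≤
          ENNReal.ofReal (2 ^ (2 * q + 2 * s + 4) * ((1 - ‖c‖) ^ (s + 2))⁻¹) *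
            (ENNReal.ofReal (‖c‖ ^ 2)⁻¹ * (ENNReal.ofReal ((1 - ‖c‖) ^ 2) * K)) := by
      refine (setLIntegral_mono' measurableSet_ball h1).trans ?_
      refine (setLIntegral_le_lintegral _ _).trans ?_
      rw [lintegral_const_mul _ (by
        refine hGm.comp ?_
        fun_prop), o2_aff c hc0 hδ G hGm, hK]
    refine h2.trans ?_
    rw [hR]
    have h3 : ENNReal.ofReal (2 ^ (2 * q + 2 * s + 4) * ((1 - ‖c‖) ^ (s + 2))⁻¹) *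
        (ENNReal.ofReal (‖c‖ ^ 2)⁻¹ * (ENNReal.ofReal ((1 - ‖c‖) ^ 2) * K)) =
        ENNReal.ofReal (2 ^ (2 * q + 2 * s + 4) * ((1 - ‖c‖) ^ (s + 2))⁻¹ *
          ((‖c‖ ^ 2)⁻¹ * (1 - ‖c‖) ^ 2)) * K := by
      have h3' : ∀ A B D : ℝ, 0 ≤ A → 0 ≤ B → ENNReal.ofReal (A * (B * D)) =
          ENNReal.ofReal A * (ENNReal.ofReal B * ENNReal.ofReal D) := fun A B D hA hB => by
        rw [ENNReal.ofReal_mul hA, ENNReal.ofReal_mul hB]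
      rw [h3' _ _ _ (by positivity) (by positivity)]
      ring
    have h4 : 2 ^ (2 * q + 2 * s + 4) * ((1 - ‖c‖) ^ (s + 2))⁻¹ * ((‖c‖ ^ 2)⁻¹ * (1 - ‖c‖) ^ 2) ≤
        2 ^ (2 * q + 2 * s + 6) * ((1 - ‖c‖) ^ s)⁻¹ := by
      have h5 : (‖c‖ ^ 2)⁻¹ ≤ 4 := by
        rw [inv_le_comm₀ (by positivity) (by norm_num)]
        nlinarith
      have h6 : ((1 - ‖c‖) ^ (s + 2))⁻¹ * (1 - ‖c‖) ^ 2 = ((1 - ‖c‖) ^ s)⁻¹ := by
        rw [pow_add]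
        field_simp
      have h7 : 2 ^ (2 * q + 2 * s + 4) * ((1 - ‖c‖) ^ (s + 2))⁻¹ * ((‖c‖ ^ 2)⁻¹ * (1 - ‖c‖) ^ 2) =
          2 ^ (2 * q + 2 * s + 4) * ((1 - ‖c‖) ^ s)⁻¹ * (‖c‖ ^ 2)⁻¹ := by
        rw [← h6]
        ring
      have h8 : (2 : ℝ) ^ (2 * q + 2 * s + 6) = 2 ^ (2 * q + 2 * s + 4) * 4 := by
        rw [show 2 * q + 2 * s + 6 = 2 * q + 2 * s + 4 + 2 by ring, pow_add]
        norm_num
      rw [h7, h8, mul_right_comm _ 4]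
      exact mul_le_mul_of_nonneg_left h5 (by positivity)
    rw [h3]
    calc _ ≤ ENNReal.ofReal (2 ^ (2 * q + 2 * s + 6) * ((1 - ‖c‖) ^ s)⁻¹) * K :=
          mul_le_mul' (ENNReal.ofReal_le_ofReal h4) le_rfl
      _ = (ENNReal.ofReal (2 ^ (2 * q + 2 * s + 6)) * K) * ENNReal.ofReal (((1 - ‖c‖) ^ s)⁻¹) := by
          rw [ENNReal.ofReal_mul (by positivity)]
          ring
      _ ≤ C * ENNReal.ofReal (((1 - ‖c‖) ^ s)⁻¹) := by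
          refine mul_le_mul' ?_ le_rfl
          have h9 : C = ENNReal.ofReal (2 ^ (2 * q + 2 * s + 6)) * K +
              (ENNReal.ofReal (2 ^ (2 * N)) * M + 1) := by
            rw [hC]
            exact add_assoc _ _ _
          rw [h9]
          exact le_self_add

end PCV
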