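import Pool.Agent.PCV.V3

/-!
# [PCV-V10] sublevel sets of functions which are strongly convex in `m` real directions (packing)

Let `Y = {y | ‖y-c‖ ≤ ρ ∧ N y ≤ 4σ}`; it is closed (`N` is continuous on the ball), hence measurable.
1. The set in question is contained in `Y`: let `‖y-c‖ ≤ ρ`, `‖w-y‖ ≤ ε ≤ ρ/4`, `N w ≤ σ`; put `v = y - w`.  Then
   `‖w-c‖ ≤ 2ρ`, `‖v‖ ≤ 2ρ`, `N y = dd N w v - N (w - v) + 2 N w ≤ Γ e2 v + σ + 2σ`, where `‖w - v - c‖ ≤ 4ρ` and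
   `Γ e2 v ≤ Γ m ε² ≤ σ` (`e2_le`).
2. If `y, y' ∈ Y` and `y - y' = ∑ x_i e_i` (`x` real) then `∑ x_i² ≤ 40 σ/γ`: with `mid = (y+y')/2`,
   `v = (y-y')/2 = ∑ (x_i/2) e_i`, `‖mid - c‖ ≤ ρ`, `‖v‖ ≤ ρ`:
   `γ (∑ x_i²)/4 = γ e2 v ≤ dd N mid v = N y + N y' - 2 N mid ≤ 8σ + 2σ`.
3. Let `δ = 7 √(σ/γ)` (`49 > 40`), so `0 < δ ≤ 7ρ`, and `J = ⌈ρ/δ⌉₊ ≥ 1`.  For `j ∈ Fin m → Fin J` let
   `u_j = ∑ (δ j_i) e_i`.  The translates `Y + u_j` are pairwise disjoint (for `j ≠ j'` the vector `u_j - u_j'` has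
   `∑ x_i² ≥ δ²`), measurable, and contained in `closedBall c (ρ + √m δ J) ⊆ closedBall c ((1 + 8√m) ρ)`
   (`‖u_j‖ ≤ √(e2 u_j) = δ √(∑ j_i²) ≤ √m δ J`, `δ J ≤ ρ + δ ≤ 8ρ`).  So
   `J^m volume Y ≤ (π (1+8√m)² ρ²)^m` and `J ≥ ρ/δ`:
   `volume Y ≤ (π (1+8√m)²)^m ρ^(2m) (δ/ρ)^m = C ρ^m (√(σ/γ))^m`.
(`Complex.volume_closedBall`, `EuclideanSpace`-free: `volume (closedBall c r) = (π r²)^m` on `Fin m → ℂ` by
`MeasureTheory.Measure.pi`/`Real.volume_pi_closedBall`-like `volume_pi_closedBall`.)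
-/

open MeasureTheory Set Filter Topology

namespace PCV

theorem volume_ball (m : ℕ) (c : Fin m → ℂ) (r : ℝ) (hr : 0 ≤ r) :
    volume (Metric.closedBall c r) = ENNReal.ofReal ((Real.pi * r ^ 2) ^ m) := by
  rw [MeasureTheory.volume_pi_closedBall c hr]
  simp only [Complex.volume_closedBall, Finset.prod_const, Finset.card_univ, Fintype.card_fin]
  rw [ENNReal.ofReal_pow (by positivity), ENNReal.ofReal_mul Real.pi_pos.le,
    ENNReal.ofReal_pow hr, mul_comm]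
  congr 2
  rw [ENNReal.ofReal, ← NNReal.coe_real_pi, Real.toNNReal_coe]

/-- step 1 -/
theorem v10_step1 {m : ℕ} (N : (Fin m → ℂ) → ℝ) (c : Fin m → ℂ) (ρ Γ σ ε : ℝ)
    (hρ : 0 < ρ) (hΓ : 0 < Γ) (hε : 0 ≤ ε) (hε2 : ε ≤ ρ / 4) (hΓε : Γ * m * ε ^ 2 ≤ σ)
    (hlow : ∀ w, ‖w - c‖ ≤ 4 * ρ → -σ ≤ N w)
    (hdd : ∀ y v, ‖y - c‖ ≤ 2 * ρ → ‖v‖ ≤ 2 * ρ → dd N y v ≤ Γ * e2 v)
    (y : Fin m → ℂ) (hy : ‖y - c‖ ≤ ρ) (w : Fin m → ℂ) (hw : ‖w - y‖ ≤ ε) (hNw : N w ≤ σ) :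
    N y ≤ 4 * σ := by
  have hwc : ‖w - c‖ ≤ 2 * ρ := by
    have h1 : w - c = (w - y) + (y - c) := by abel
    rw [h1]
    refine (norm_add_le _ _).trans ?_
    linarith
  have hv : ‖y - w‖ ≤ ε := by rwa [norm_sub_rev]
  have h1 := hdd w (y - w) hwc (by linarith)
  have h2 : ‖(w - (y - w)) - c‖ ≤ 4 * ρ := by
    have h3 : (w - (y - w)) - c = (w - c) - (y - w) := by abel
    rw [h3]
    refine (norm_sub_le _ _).trans ?_
    linarith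
  have h3 := hlow _ h2
  have h4 : Γ * e2 (y - w) ≤ σ := by
    have h5 := e2_le (y - w)
    have h6 : (m : ℝ) * ‖y - w‖ ^ 2 ≤ m * ε ^ 2 :=
      mul_le_mul_of_nonneg_left (pow_le_pow_left₀ (norm_nonneg _) hv 2) (Nat.cast_nonneg m)
    nlinarith
  unfold dd at h1
  rw [show w + (y - w) = y by abel] at h1
  linarith

/-- step 2 -/
theorem v10_step2 {m : ℕ} (N : (Fin m → ℂ) → ℝ) (c : Fin m → ℂ) (ρ γ σ : ℝ)
    (e : Fin m → (Fin m → ℂ)) (hρ : 0 < ρ)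
    (hlow : ∀ w, ‖w - c‖ ≤ 4 * ρ → -σ ≤ N w)
    (he : ∀ x : Fin m → ℝ, e2 (∑ i, (x i : ℂ) • e i) = ∑ i, x i ^ 2)
    (hdd : ∀ y v, ‖y - c‖ ≤ 2 * ρ → ‖v‖ ≤ 2 * ρ →
      ∀ x : Fin m → ℝ, v = ∑ i, (x i : ℂ) • e i → γ * e2 v ≤ dd N y v)
    (y y' : Fin m → ℂ) (hy : ‖y - c‖ ≤ ρ) (hy' : ‖y' - c‖ ≤ ρ) (hN : N y ≤ 4 * σ)
    (hN' : N y' ≤ 4 * σ) (x : Fin m → ℝ) (hx : y - y' = ∑ i, (x i : ℂ) • e i) :
    γ * ∑ i, x i ^ 2 ≤ 40 * σ := by
  set v : Fin m → ℂ := (1 / 2 : ℂ) • (y - y') with hv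
  set z : Fin m → ℂ := (1 / 2 : ℂ) • (y + y') with hz
  have hn2 : ‖(1 / 2 : ℂ)‖ = 1 / 2 := by
    rw [norm_div, norm_one, Complex.norm_ofNat]
  have hzc : ‖z - c‖ ≤ ρ := by
    have h1 : z - c = (1 / 2 : ℂ) • ((y - c) + (y' - c)) := by
      rw [hz]
      ext i
      simp only [Pi.sub_apply, Pi.add_apply, Pi.smul_apply, smul_eq_mul]
      ring
    rw [h1, norm_smul, hn2]
    have h2 := norm_add_le (y - c) (y' - c)
    linarith
  have hvn : ‖v‖ ≤ ρ := by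
    have h1 : v = (1 / 2 : ℂ) • ((y - c) - (y' - c)) := by
      rw [hv]
      ext i
      simp only [Pi.sub_apply, Pi.smul_apply, smul_eq_mul]
      ring
    rw [h1, norm_smul, hn2]
    have h2 := norm_sub_le (y - c) (y' - c)
    linarith
  have hvx : v = ∑ i, (((fun i => x i / 2) i : ℝ) : ℂ) • e i := by
    rw [hv, hx, Finset.smul_sum]
    refine Finset.sum_congr rfl fun i _ => ?_
    rw [smul_smul]
    congr 1
    push_cast
    ring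
  have h1 := hdd z v (by linarith) (by linarith) (fun i => x i / 2) hvx
  have h2 : e2 v = (∑ i, x i ^ 2) / 4 := by
    rw [hvx, he, Finset.sum_div]
    refine Finset.sum_congr rfl fun i _ => ?_
    ring
  have h3 := hlow z (by linarith)
  unfold dd at h1
  have h4 : z + v = y := by
    rw [hz, hv]
    ext i
    simp only [Pi.sub_apply, Pi.add_apply, Pi.smul_apply, smul_eq_mul]
    ring
  have h5 : z - v = y' := by
    rw [hz, hv]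
    ext i
    simp only [Pi.sub_apply, Pi.add_apply, Pi.smul_apply, smul_eq_mul]
    ring
  rw [h4, h5, h2] at h1
  linarith

/-- step 3: packing -/
theorem v10_step3 {m : ℕ} (hm : 1 ≤ m) (Y : Set (Fin m → ℂ)) (hY : MeasurableSet Y) (c : Fin m → ℂ)
    (ρ δ : ℝ) (e : Fin m → (Fin m → ℂ)) (hρ : 0 < ρ) (hδ : 0 < δ) (hδρ : δ ≤ 7 * ρ)
    (hYc : ∀ y ∈ Y, ‖y - c‖ ≤ ρ)
    (he : ∀ x : Fin m → ℝ, e2 (∑ i, (x i : ℂ) • e i) = ∑ i, x i ^ 2)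
    (hsep : ∀ y ∈ Y, ∀ y' ∈ Y, ∀ x : Fin m → ℝ, y - y' = ∑ i, (x i : ℂ) • e i →
      ∑ i, x i ^ 2 < δ ^ 2) :
    volume Y ≤ ENNReal.ofReal ((Real.pi * (1 + 8 * Real.sqrt m) ^ 2) ^ m * ρ ^ m * δ ^ m) := by
  classical
  set J : ℕ := ⌈ρ / δ⌉₊ with hJ
  have hJ1 : ρ / δ ≤ J := Nat.le_ceil _
  have hJ2 : (J : ℝ) < ρ / δ + 1 := Nat.ceil_lt_add_one (by positivity)
  have hJδ : δ * J ≤ 8 * ρ := by
    have h1 : δ * J ≤ δ * (ρ / δ + 1) := mul_le_mul_of_nonneg_left hJ2.le hδ.le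
    have h2 : δ * (ρ / δ + 1) = ρ + δ := by field_simp
    linarith
  let X : (Fin m → Fin J) → Fin m → ℝ := fun j i => δ * ((j i : ℕ) : ℝ)
  let u : (Fin m → Fin J) → (Fin m → ℂ) := fun j => ∑ i, (X j i : ℂ) • e i
  let f : (Fin m → Fin J) → Set (Fin m → ℂ) := fun j => (fun z => z + u j) ⁻¹' Y
  have hfm : ∀ j, MeasurableSet (f j) := fun j => measurable_add_const (u j) hY
  have hfv : ∀ j, volume (f j) = volume Y := fun j => measure_preimage_add_right volume (u j) Y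
  have hdis : Pairwise (Function.onFun Disjoint f) := by
    intro j j' hjj
    refine Set.disjoint_left.2 fun z hz hz' => ?_
    have h1 : (z + u j) - (z + u j') = ∑ i, (((fun i => X j i - X j' i) i : ℝ) : ℂ) • e i := by
      rw [add_sub_add_left_eq_sub]
      change ∑ i, (X j i : ℂ) • e i - ∑ i, (X j' i : ℂ) • e i = _
      rw [← Finset.sum_sub_distrib]
      refine Finset.sum_congr rfl fun i _ => ?_
      rw [← sub_smul]
      push_cast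
      rfl
    have h2 := hsep _ hz _ hz' _ h1
    obtain ⟨i, hi⟩ := Function.ne_iff.1 hjj
    have h3 : δ ^ 2 ≤ (X j i - X j' i) ^ 2 := by
      change δ ^ 2 ≤ (δ * ((j i : ℕ) : ℝ) - δ * ((j' i : ℕ) : ℝ)) ^ 2
      have h4 : ((j i : ℕ) : ℤ) - ((j' i : ℕ) : ℤ) ≠ 0 := by
        intro h
        apply hi
        apply Fin.ext
        omega
      have h5 : (1 : ℤ) ≤ (((j i : ℕ) : ℤ) - ((j' i : ℕ) : ℤ)) ^ 2 := by
        have := sq_nonneg (((j i : ℕ) : ℤ) - ((j' i : ℕ) : ℤ))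
        have h6 : (((j i : ℕ) : ℤ) - ((j' i : ℕ) : ℤ)) ^ 2 ≠ 0 := pow_ne_zero 2 h4
        omega
      have h7 : (1 : ℝ) ≤ (((j i : ℕ) : ℝ) - ((j' i : ℕ) : ℝ)) ^ 2 := by exact_mod_cast h5
      have h8 : (δ * ((j i : ℕ) : ℝ) - δ * ((j' i : ℕ) : ℝ)) ^ 2 =
        δ ^ 2 * (((j i : ℕ) : ℝ) - ((j' i : ℕ) : ℝ)) ^ 2 := by ring
      rw [h8]
      have h9 : 0 ≤ δ ^ 2 := by positivity
      nlinarith
    have h4 : (X j i - X j' i) ^ 2 ≤ ∑ i, (X j i - X j' i) ^ 2 :=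
      Finset.single_le_sum (f := fun i => (X j i - X j' i) ^ 2) (fun i _ => sq_nonneg _)
        (Finset.mem_univ i)
    linarith
  have hsub : (⋃ j, f j) ⊆ Metric.closedBall c ((1 + 8 * Real.sqrt m) * ρ) := by
    intro z hz
    obtain ⟨j, hj⟩ := Set.mem_iUnion.1 hz
    have h1 : ‖(z + u j) - c‖ ≤ ρ := hYc _ hj
    have h2 : ‖u j‖ ≤ 8 * Real.sqrt m * ρ := by
      have h3 : ‖u j‖ ^ 2 ≤ (8 * Real.sqrt m * ρ) ^ 2 := by
        refine (norm_sq_le_e2 (u j)).trans ?_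
        change e2 (∑ i, (X j i : ℂ) • e i) ≤ _
        rw [he]
        have h4 : ∀ i ∈ (Finset.univ : Finset (Fin m)), X j i ^ 2 ≤ (8 * ρ) ^ 2 := by
          intro i _
          have h5 : ((j i : ℕ) : ℝ) ≤ J := by exact_mod_cast (j i).2.le
          have h6 : 0 ≤ X j i := mul_nonneg hδ.le (Nat.cast_nonneg _)
          refine pow_le_pow_left₀ h6 ?_ 2
          exact (mul_le_mul_of_nonneg_left h5 hδ.le).trans hJδ
        refine (Finset.sum_le_sum h4).trans ?_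
        rw [Finset.sum_const, Finset.card_univ, Fintype.card_fin, nsmul_eq_mul]
        have h7 : (8 * Real.sqrt m * ρ) ^ 2 = Real.sqrt m ^ 2 * (8 * ρ) ^ 2 := by ring
        rw [h7, Real.sq_sqrt (Nat.cast_nonneg m)]
      exact le_of_sq_le_sq h3 (by positivity)
    rw [Metric.mem_closedBall, dist_eq_norm]
    have h3 : z - c = ((z + u j) - c) - u j := by abel
    rw [h3]
    refine (norm_sub_le _ _).trans ?_
    have h4 : (1 + 8 * Real.sqrt m) * ρ = ρ + 8 * Real.sqrt m * ρ := by ring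
    rw [h4]
    exact add_le_add h1 h2
  have hsum : (J : ENNReal) ^ m * volume Y ≤
      ENNReal.ofReal ((Real.pi * ((1 + 8 * Real.sqrt m) * ρ) ^ 2) ^ m) := by
    rw [← volume_ball m c _ (by positivity)]
    refine le_trans (le_of_eq ?_) (measure_mono hsub)
    rw [measure_iUnion hdis hfm, tsum_fintype]
    simp only [hfv]
    rw [Finset.sum_const, Finset.card_univ, Fintype.card_fun, Fintype.card_fin, Fintype.card_fin,
      nsmul_eq_mul, Nat.cast_pow]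
  have hYfin : volume Y ≠ ⊤ := by
    refine ne_top_of_le_ne_top ?_ (measure_mono (t := Metric.closedBall c ρ) ?_)
    · rw [volume_ball m c ρ hρ.le]
      exact ENNReal.ofReal_ne_top
    · intro y hy
      rw [Metric.mem_closedBall, dist_eq_norm]
      exact hYc y hy
  rw [← ENNReal.ofReal_toReal hYfin] at hsum ⊢
  have hJr : (J : ENNReal) ^ m = ENNReal.ofReal ((J : ℝ) ^ m) := by
    rw [ENNReal.ofReal_pow (Nat.cast_nonneg J), ENNReal.ofReal_natCast]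
  rw [hJr, ← ENNReal.ofReal_mul (by positivity)] at hsum
  have h1 := (ENNReal.ofReal_le_ofReal_iff (by positivity)).1 hsum
  refine ENNReal.ofReal_le_ofReal ?_
  set V : ℝ := (volume Y).toReal with hV
  have hV0 : 0 ≤ V := ENNReal.toReal_nonneg
  have h2 : (ρ / δ) ^ m * V ≤ (Real.pi * ((1 + 8 * Real.sqrt m) * ρ) ^ 2) ^ m :=
    (mul_le_mul_of_nonneg_right (pow_le_pow_left₀ (by positivity) hJ1 m) hV0).trans h1
  have h3 : (Real.pi * ((1 + 8 * Real.sqrt m) * ρ) ^ 2) ^ m =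
      (Real.pi * (1 + 8 * Real.sqrt m) ^ 2) ^ m * ρ ^ m * ρ ^ m := by
    rw [← mul_pow, ← mul_pow]
    congr 1
    ring
  rw [h3, div_pow, div_mul_eq_mul_div, div_le_iff₀ (by positivity)] at h2
  have h4 : ρ ^ m * V ≤ ρ ^ m *
      ((Real.pi * (1 + 8 * Real.sqrt m) ^ 2) ^ m * ρ ^ m * δ ^ m) := by
    refine h2.trans (le_of_eq ?_)
    ring
  exact le_of_mul_le_mul_left h4 (by positivity)

theorem packing (m : ℕ) (hm : 1 ≤ m) : ∃ C : ℝ, 0 < C ∧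
    ∀ (N : (Fin m → ℂ) → ℝ) (c : Fin m → ℂ) (ρ γ Γ σ ε : ℝ) (e : Fin m → (Fin m → ℂ)), 0 < ρ →
      0 < γ → 0 < Γ → 0 < σ → 0 ≤ ε → ε ≤ ρ / 4 → Γ * m * ε ^ 2 ≤ σ → σ ≤ γ * ρ ^ 2 →
      ContinuousOn N (Metric.closedBall c (4 * ρ)) → (∀ w, ‖w - c‖ ≤ 4 * ρ → -σ ≤ N w) →
      (∀ x : Fin m → ℝ, e2 (∑ i, (x i : ℂ) • e i) = ∑ i, x i ^ 2) →
      (∀ y v, ‖y - c‖ ≤ 2 * ρ → ‖v‖ ≤ 2 * ρ → dd N y v ≤ Γ * e2 v ∧
        ∀ x : Fin m → ℝ, v = ∑ i, (x i : ℂ) • e i → γ * e2 v ≤ dd N y v) →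
      volume {y | ‖y - c‖ ≤ ρ ∧ ∃ w, ‖w - y‖ ≤ ε ∧ N w ≤ σ} ≤
        ENNReal.ofReal (C * ρ ^ m * Real.sqrt (σ / γ) ^ m) := by
  refine ⟨(Real.pi * (1 + 8 * Real.sqrt m) ^ 2) ^ m * 7 ^ m, by positivity, ?_⟩
  intro N c ρ γ Γ σ ε e hρ hγ hΓ hσ hε hε2 hΓε hσγ hN hlow he hdd
  set Y : Set (Fin m → ℂ) := Metric.closedBall c ρ ∩ N ⁻¹' (Set.Iic (4 * σ)) with hYdef
  have hYcl : IsClosed Y :=
    (hN.mono (Metric.closedBall_subset_closedBall (by linarith))).preimage_isClosed_of_isClosed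
      Metric.isClosed_closedBall isClosed_Iic
  have hsub : {y | ‖y - c‖ ≤ ρ ∧ ∃ w, ‖w - y‖ ≤ ε ∧ N w ≤ σ} ⊆ Y := by
    rintro y ⟨hy, w, hw, hNw⟩
    refine ⟨by rw [Metric.mem_closedBall, dist_eq_norm]; exact hy, ?_⟩
    exact v10_step1 N c ρ Γ σ ε hρ hΓ hε hε2 hΓε hlow (fun y v h1 h2 => (hdd y v h1 h2).1) y hy w
      hw hNw
  refine (measure_mono hsub).trans ?_
  set δ : ℝ := 7 * Real.sqrt (σ / γ) with hδ
  have hσγ' : 0 < σ / γ := by positivity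
  have hδ0 : 0 < δ := by
    have := Real.sqrt_pos.2 hσγ'
    positivity
  have hδ2 : δ ^ 2 = 49 * (σ / γ) := by
    rw [hδ, mul_pow, Real.sq_sqrt hσγ'.le]
    norm_num
  have hδρ : δ ≤ 7 * ρ := by
    have h1 : Real.sqrt (σ / γ) ≤ ρ := by
      rw [Real.sqrt_le_left hρ.le, div_le_iff₀ hγ]
      linarith
    linarith
  have h := v10_step3 hm Y hYcl.measurableSet c ρ δ e hρ hδ0 hδρ
    (fun y hy => by rw [← dist_eq_norm]; exact hy.1) he ?_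
  · refine h.trans (ENNReal.ofReal_le_ofReal (le_of_eq ?_))
    rw [hδ, mul_pow]
    ring
  · intro y hy y' hy' x hx
    have hyc : ‖y - c‖ ≤ ρ := by rw [← dist_eq_norm]; exact hy.1
    have hyc' : ‖y' - c‖ ≤ ρ := by rw [← dist_eq_norm]; exact hy'.1
    have h1 := v10_step2 N c ρ γ σ e hρ hlow he (fun y v h1 h2 => (hdd y v h1 h2).2) y y'
      hyc hyc' hy.2 hy'.2 x hx
    rw [hδ2]
    have h2 : ∑ i, x i ^ 2 ≤ 40 * (σ / γ) := by
      rw [mul_div_assoc', le_div_iff₀ hγ]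
      linarith
    linarith

end PCV
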