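import Pool.Agent.PCV.Defs

/-!
# [PCV-V11] averaging over balls

First let `X` be measurable.  By Tonelli
`∫⁻ y, volume (X ∩ closedBall y r) = ∫⁻ y, ∫⁻ x, 1_X(x) 1_{‖x-y‖ ≤ r} = ∫⁻ x in X, volume (closedBall x r)
= volume X * volume (closedBall 0 r)`, and the integrand vanishes for `y ∉ closedBall c (R+r)` (if
`x ∈ X ∩ closedBall y r` then `‖y-c‖ ≤ R + r`).  For arbitrary `X ⊆ closedBall c R` use the measurable hull
`toMeasurable volume X` (intersected with the closed ball): `volume (toMeasurable volume X ∩ s) = volume (X ∩ s)` for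
measurable `s` (`Measure.measure_toMeasurable_inter`).
`cover_le`: bound the integrand by `M`.
`avg_le_two`: bound the integrand by `a` on the measurable hull of `S` and by `b` elsewhere.
-/

open MeasureTheory Set Filter Topology

namespace PCV

/-- the measurable case -/
theorem v11_meas (m : ℕ) (X : Set (Fin m → ℂ)) (hXm : MeasurableSet X) (c : Fin m → ℂ) (R r : ℝ)
    (hX : X ⊆ Metric.closedBall c R) :
    volume X * volume (Metric.closedBall (0 : Fin m → ℂ) r) ≤
      ∫⁻ y in Metric.closedBall c (R + r), volume (X ∩ Metric.closedBall y r) := by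
  set S : Set ((Fin m → ℂ) × (Fin m → ℂ)) := {z | z.2 ∈ X ∧ dist z.2 z.1 ≤ r} with hS
  have hSm : MeasurableSet S := by
    refine MeasurableSet.inter (measurable_snd hXm) ?_
    exact (isClosed_le (continuous_snd.dist continuous_fst) continuous_const).measurableSet
  have h1 : (volume.prod volume) S = ∫⁻ y, volume (X ∩ Metric.closedBall y r) := by
    rw [Measure.prod_apply hSm]
    rfl
  have h2 : (volume.prod volume) S =
      volume X * volume (Metric.closedBall (0 : Fin m → ℂ) r) := by
    rw [Measure.prod_apply_symm hSm]
    have h3 : ∀ x : Fin m → ℂ, volume ((fun y => (y, x)) ⁻¹' S) =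
        X.indicator (fun _ => volume (Metric.closedBall (0 : Fin m → ℂ) r)) x := by
      intro x
      by_cases hx : x ∈ X
      · rw [Set.indicator_of_mem hx, ← Measure.addHaar_closedBall_center volume x r]
        congr 1
        ext y
        rw [Set.mem_preimage, Metric.mem_closedBall, dist_comm]
        exact ⟨fun h => h.2, fun h => ⟨hx, h⟩⟩
      · rw [Set.indicator_of_notMem hx]
        have h4 : (fun y => (y, x)) ⁻¹' S = ∅ := by
          ext y
          rw [Set.mem_preimage]
          exact ⟨fun h => absurd h.1 hx, fun h => absurd h (Set.notMem_empty y)⟩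
        rw [h4, measure_empty]
    simp only [h3]
    rw [lintegral_indicator_const hXm, mul_comm]
  rw [← h2, h1, ← lintegral_indicator Metric.isClosed_closedBall.measurableSet]
  refine lintegral_mono fun y => ?_
  by_cases hy : y ∈ Metric.closedBall c (R + r)
  · rw [Set.indicator_of_mem hy]
  · rw [Set.indicator_of_notMem hy]
    have h4 : X ∩ Metric.closedBall y r = ∅ := by
      ext x
      refine ⟨fun h => absurd ?_ hy, fun h => absurd h (Set.notMem_empty x)⟩
      have h5 := hX h.1
      have h6 := h.2
      rw [Metric.mem_closedBall] at h5 h6 ⊢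
      have h7 := dist_triangle y x c
      rw [dist_comm y x] at h7
      linarith
    rw [h4, measure_empty]

theorem avg_le (m : ℕ) (X : Set (Fin m → ℂ)) (c : Fin m → ℂ) (R r : ℝ) (hr : 0 < r)
    (hX : X ⊆ Metric.closedBall c R) :
    volume X * volume (Metric.closedBall (0 : Fin m → ℂ) r) ≤
      ∫⁻ y in Metric.closedBall c (R + r), volume (X ∩ Metric.closedBall y r) := by
  have hfin : volume X ≠ ⊤ := by
    refine ne_top_of_le_ne_top ?_ (measure_mono hX)
    exact (isCompact_closedBall c R).measure_lt_top.ne
  have hm : MeasurableSet (toMeasurable volume X ∩ Metric.closedBall c R) :=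
    (measurableSet_toMeasurable volume X).inter Metric.isClosed_closedBall.measurableSet
  have h1 := v11_meas m _ hm c R r Set.inter_subset_right
  have h2 : volume X ≤ volume (toMeasurable volume X ∩ Metric.closedBall c R) :=
    measure_mono (Set.subset_inter (subset_toMeasurable volume X) hX)
  refine (mul_le_mul_left h2 _).trans (h1.trans ?_)
  refine lintegral_mono fun y => ?_
  have h3 : volume (toMeasurable volume X ∩ Metric.closedBall c R ∩ Metric.closedBall y r) ≤
      volume (toMeasurable volume X ∩ Metric.closedBall y r) :=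
    measure_mono (Set.inter_subset_inter_left _ Set.inter_subset_left)
  refine h3.trans (le_of_eq ?_)
  exact Measure.measure_toMeasurable_inter Metric.isClosed_closedBall.measurableSet hfin

theorem cover_le (m : ℕ) (X : Set (Fin m → ℂ)) (c : Fin m → ℂ) (R r : ℝ) (hr : 0 < r)
    (hX : X ⊆ Metric.closedBall c R) (M : ENNReal)
    (h : ∀ y ∈ Metric.closedBall c (R + r), volume (X ∩ Metric.closedBall y r) ≤ M) :
    volume X * volume (Metric.closedBall (0 : Fin m → ℂ) r) ≤
      M * volume (Metric.closedBall c (R + r)) := by
  refine (avg_le m X c R r hr hX).trans ?_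
  refine (setLIntegral_mono' Metric.isClosed_closedBall.measurableSet h).trans ?_
  rw [setLIntegral_const]

theorem avg_le_two (m : ℕ) (X S : Set (Fin m → ℂ)) (c : Fin m → ℂ) (R r : ℝ) (hr : 0 < r)
    (hX : X ⊆ Metric.closedBall c R) (a b : ENNReal)
    (ha : ∀ y ∈ Metric.closedBall c (R + r), volume (X ∩ Metric.closedBall y r) ≤ a)
    (hb : ∀ y ∈ Metric.closedBall c (R + r), y ∉ S → volume (X ∩ Metric.closedBall y r) ≤ b) :
    volume X * volume (Metric.closedBall (0 : Fin m → ℂ) r) ≤
      a * volume (S ∩ Metric.closedBall c (R + r)) + b * volume (Metric.closedBall c (R + r)) := by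
  refine (avg_le m X c R r hr hX).trans ?_
  set K : Set (Fin m → ℂ) := Metric.closedBall c (R + r) with hK
  have hKm : MeasurableSet K := Metric.isClosed_closedBall.measurableSet
  set T : Set (Fin m → ℂ) := toMeasurable volume (S ∩ K) with hT
  have hTm : MeasurableSet T := measurableSet_toMeasurable _ _
  rw [← lintegral_inter_add_sdiff _ K hTm]
  refine add_le_add ?_ ?_
  · refine (setLIntegral_mono' (hKm.inter hTm) fun y hy => ha y hy.1).trans ?_
    rw [setLIntegral_const, ← measure_toMeasurable (S ∩ K)]
    exact mul_le_mul_right (measure_mono Set.inter_subset_right) _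
  · refine (setLIntegral_mono' (hKm.diff hTm) fun y hy => hb y hy.1 fun hyS => ?_).trans ?_
    · exact hy.2 (subset_toMeasurable volume (S ∩ K) ⟨hyS, hy.1⟩)
    · rw [setLIntegral_const]
      exact mul_le_mul_right (measure_mono Set.sdiff_subset) _

end PCV
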