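import Pool.Agent.PCV.V9
import Pool.Agent.PCV.V10
import Pool.Agent.PCV.V11

/-!
# [PCV-V12] neighbourhoods of the sublevel sets of `|(1,w)|^κ / |q|`

Let `η, γ, Γ` be the constants of `hess` and `C₁₀` that of `packing`.  Put `σ = K₀ s`, `K₀ = max 4 (2 D Γ m)`
(or the sum), `ρ = η R`, and choose `s₀ ≤ 1/4` such that `s₀ ≤ η²/16` and `K₀ s₀ ≤ γ η²`, and `√s₀ ≤ 1/4`.
Let `X` be the set in the statement, `y₀` arbitrary.  Claim:
`volume (X ∩ closedBall y₀ (ρ/4)) ≤ M := ofReal (C₁₀ ρ^m √(σ/(γκ))^m)`.  If the set is empty, trivial.  Otherwise pick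
`x₀` in it and `w₀`, `‖w₀-x₀‖ ≤ ε ≤ √s R ≤ R/4`, `(1-s) √(nw w₀)^κ ≤ ‖q w₀‖`.  Then `‖w₀ - c‖ ≤ 3R/2`,
`‖w₀‖ ≤ 2 + 3/2 ≤ 4`, and `closedBall w₀ R ⊆ closedBall c (3R)`; `hess` applies at `w₁ = w₀`
(`1+s ≤ 2`, `1-s ≥ 1/2`).  With `N = NN κ q` on `closedBall w₀ (4ρ)`: `q ≠ 0`, `N` is continuous, and
`N w = κ log nw w - 2 log ‖q w‖ ≥ - 2 log (1+s) ≥ - 2 s ≥ -σ`.  For every `y ∈ X ∩ closedBall y₀ (ρ/4)`:
`‖y - w₀‖ ≤ ρ/2 + ε ≤ ρ` (`ε ≤ √s₀ R ≤ ηR/4`), and there is `w`, `‖w-y‖ ≤ ε`, with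
`(1-s) √(nw w)^κ ≤ ‖q w‖`, i.e. `N w ≤ -2 log (1-s) ≤ 4 s ≤ σ` (`s ≤ 1/2`).
Apply `packing` with `γκ`, `Γκ` in place of `γ, Γ`: `Γ κ m ε² ≤ Γ m κ s R² ≤ 2 D Γ m s ≤ σ`,
`σ ≤ γ κ ρ²` because `κR² ≥ 1` and `K₀ s₀ ≤ γ η²`.  This proves the claim.
`σ/(γκ) ≤ (K₀/γ) s R²` (`1/κ ≤ R²`), so `M ≤ ofReal (C R^m (√s R)^m)`.
`cover_le` with radii `5/4 R` and `ρ/4` (`5/4 R + ρ/4 ≤ 2R`):
`volume X * (π ρ²/16)^m ≤ M (π 4 R²)^m`, so `volume X ≤ M (8/η)^(2m)`.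
-/

open MeasureTheory Set Filter Topology

namespace PCV

theorem v12_nw_pos {m : ℕ} (w : Fin m → ℂ) : 0 < nw w := by
  unfold nw
  have : 0 ≤ ∑ i, ‖w i‖ ^ 2 := Finset.sum_nonneg fun i _ => sq_nonneg _
  linarith

theorem v12_log_pow {m : ℕ} (κ : ℕ) (w : Fin m → ℂ) {a : ℝ} (ha : 0 < a) :
    Real.log (a * Real.sqrt (nw w) ^ κ) = Real.log a + κ * Real.log (nw w) / 2 := by
  have h1 : 0 < Real.sqrt (nw w) := Real.sqrt_pos.2 (v12_nw_pos w)
  rw [Real.log_mul ha.ne' (pow_pos h1 κ).ne', Real.log_pow, Real.log_sqrt (v12_nw_pos w).le]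
  ring

theorem v12_lower {m : ℕ} (κ : ℕ) (q : (Fin m → ℂ) → ℂ) (w : Fin m → ℂ) (s : ℝ) (hs : 0 < s)
    (hq0 : q w ≠ 0) (h : ‖q w‖ ≤ (1 + s) * Real.sqrt (nw w) ^ κ) : -(2 * s) ≤ NN κ q w := by
  have h1 : Real.log ‖q w‖ ≤ Real.log ((1 + s) * Real.sqrt (nw w) ^ κ) :=
    Real.log_le_log (norm_pos_iff.2 hq0) h
  rw [v12_log_pow κ w (by linarith)] at h1
  have h2 : Real.log (1 + s) ≤ s := by
    have := Real.log_le_sub_one_of_pos (show 0 < 1 + s by linarith)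
    linarith
  unfold NN
  linarith

theorem v12_upper {m : ℕ} (κ : ℕ) (q : (Fin m → ℂ) → ℂ) (w : Fin m → ℂ) (s : ℝ) (hs : 0 < s)
    (hs2 : s ≤ 1 / 2) (h : (1 - s) * Real.sqrt (nw w) ^ κ ≤ ‖q w‖) : NN κ q w ≤ 4 * s := by
  have h0 : 0 < Real.sqrt (nw w) := Real.sqrt_pos.2 (v12_nw_pos w)
  have h1 : Real.log ((1 - s) * Real.sqrt (nw w) ^ κ) ≤ Real.log ‖q w‖ :=
    Real.log_le_log (mul_pos (by linarith) (pow_pos h0 κ)) h
  rw [v12_log_pow κ w (by linarith)] at h1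
  have h2 : -(2 * s) ≤ Real.log (1 - s) := by
    have h3 := Real.one_sub_inv_le_log_of_pos (show 0 < 1 - s by linarith)
    have h4 : (1 - s)⁻¹ ≤ 1 + 2 * s := by
      rw [inv_le_iff_one_le_mul₀ (by linarith)]
      nlinarith
    linarith
  unfold NN
  linarith

theorem v12_cont {m : ℕ} (κ : ℕ) (q : (Fin m → ℂ) → ℂ) (S : Set (Fin m → ℂ))
    (hq : AnalyticOnNhd ℂ q S) (h : ∀ w ∈ S, q w ≠ 0) : ContinuousOn (NN κ q) S := by
  have hqc : ContinuousOn q S := hq.continuousOn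
  have hn : Continuous (fun w : Fin m → ℂ => nw w) := by
    unfold nw
    fun_prop
  unfold NN
  refine ContinuousOn.sub (ContinuousOn.mul continuousOn_const ?_)
    (ContinuousOn.mul continuousOn_const ?_)
  · exact hn.continuousOn.log fun w _ => (v12_nw_pos w).ne'
  · exact hqc.norm.log fun w hw => norm_ne_zero_iff.2 (h w hw)

theorem sublevel (m D : ℕ) (hm : 1 ≤ m) : ∃ C s₀ : ℝ, 0 < C ∧ 0 < s₀ ∧
    ∀ (R : ℝ) (κ : ℕ) (c : Fin m → ℂ) (q : (Fin m → ℂ) → ℂ) (s ε : ℝ), 0 < R → R ≤ 1 →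
      1 ≤ κ * R ^ 2 → κ * R ^ 2 ≤ 2 * D → ‖c‖ ≤ 2 →
      AnalyticOnNhd ℂ q (Metric.closedBall c (3 * R)) → 0 < s → s ≤ s₀ →
      0 ≤ ε → ε ^ 2 ≤ s * R ^ 2 →
      (∀ w, ‖w - c‖ ≤ 3 * R → ‖q w‖ ≤ (1 + s) * Real.sqrt (nw w) ^ κ) →
      volume {y | ‖y - c‖ ≤ 5 / 4 * R ∧ ∃ w, ‖w - y‖ ≤ ε ∧
        (1 - s) * Real.sqrt (nw w) ^ κ ≤ ‖q w‖} ≤
        ENNReal.ofReal (C * Real.sqrt s ^ m * R ^ (2 * m)) := by
  obtain ⟨η, γ, Γ, hη0, hη8, hγ, hΓ, hess'⟩ := hess m D hm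
  obtain ⟨C₁₀, hC₁₀, pack⟩ := packing m hm
  set K₀ : ℝ := 4 + 2 * D * Γ * m with hK₀
  have hDm : (0 : ℝ) ≤ 2 * D * Γ * m := by positivity
  have hK4 : 4 ≤ K₀ := by linarith
  have hK0 : 0 < K₀ := by linarith
  refine ⟨C₁₀ * (η * Real.sqrt (K₀ / γ)) ^ m * (64 / η ^ 2) ^ m,
    min (η ^ 2 / 16) (γ * η ^ 2 / K₀), ?_, ?_, ?_⟩
  · have : 0 < Real.sqrt (K₀ / γ) := Real.sqrt_pos.2 (by positivity)
    positivity
  · apply lt_min <;> positivity
  intro R κ c q s ε hR0 hR1 hκ1 hκ2 hc hq hs0 hs hε0 hε hup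
  have hs1 : s ≤ η ^ 2 / 16 := hs.trans (min_le_left _ _)
  have hs2 : s ≤ γ * η ^ 2 / K₀ := hs.trans (min_le_right _ _)
  have hη2 : η ^ 2 ≤ 1 / 64 := by nlinarith
  have hs4 : s ≤ 1 / 4 := by linarith
  have hκ0 : (0 : ℝ) < κ := by
    rcases Nat.eq_zero_or_pos κ with h | h
    · rw [h] at hκ1
      norm_num at hκ1
    · exact_mod_cast h
  set ρ : ℝ := η * R with hρ
  have hρ0 : 0 < ρ := by positivity
  set σ : ℝ := K₀ * s with hσ
  have hσ0 : 0 < σ := by positivity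
  have hερ : ε ≤ ρ / 4 := by
    apply le_of_sq_le_sq _ (by positivity)
    have h1 : s * R ^ 2 ≤ η ^ 2 / 16 * R ^ 2 := mul_le_mul_of_nonneg_right hs1 (sq_nonneg _)
    calc ε ^ 2 ≤ s * R ^ 2 := hε
      _ ≤ η ^ 2 / 16 * R ^ 2 := h1
      _ = (ρ / 4) ^ 2 := by rw [hρ]; ring
  have hρR : ρ ≤ R / 8 := by
    rw [hρ]
    nlinarith
  set X : Set (Fin m → ℂ) := {y | ‖y - c‖ ≤ 5 / 4 * R ∧ ∃ w, ‖w - y‖ ≤ ε ∧
        (1 - s) * Real.sqrt (nw w) ^ κ ≤ ‖q w‖} with hX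
  set M : ℝ := C₁₀ * ρ ^ m * Real.sqrt (σ / (γ * κ)) ^ m with hM
  have hM0 : 0 ≤ M := by positivity
  -- the local claim
  have claim : ∀ y₀ : Fin m → ℂ, volume (X ∩ Metric.closedBall y₀ (ρ / 4)) ≤
      ENNReal.ofReal M := by
    intro y₀
    rcases Set.eq_empty_or_nonempty (X ∩ Metric.closedBall y₀ (ρ / 4)) with hemp | ⟨x₀, hx₀, hx₀y⟩
    · rw [hemp, measure_empty]
      exact zero_le
    · obtain ⟨hx₀c, w₀, hw₀x, hw₀q⟩ := hx₀
      rw [mem_closedBall_iff_norm] at hx₀y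
      have hw₀c : ‖w₀ - c‖ ≤ 3 / 2 * R := by
        calc ‖w₀ - c‖ = ‖(w₀ - x₀) + (x₀ - c)‖ := by rw [sub_add_sub_cancel]
          _ ≤ ‖w₀ - x₀‖ + ‖x₀ - c‖ := norm_add_le _ _
          _ ≤ 3 / 2 * R := by linarith
      have hw₀4 : ‖w₀‖ ≤ 4 := by
        calc ‖w₀‖ = ‖(w₀ - c) + c‖ := by rw [sub_add_cancel]
          _ ≤ ‖w₀ - c‖ + ‖c‖ := norm_add_le _ _
          _ ≤ 4 := by linarith
      have hb1 : ∀ w, ‖w - w₀‖ ≤ R → ‖q w‖ ≤ 2 * Real.sqrt (nw w) ^ κ := by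
        intro w hw
        have h1 : ‖w - c‖ ≤ 3 * R := by
          calc ‖w - c‖ = ‖(w - w₀) + (w₀ - c)‖ := by rw [sub_add_sub_cancel]
            _ ≤ ‖w - w₀‖ + ‖w₀ - c‖ := norm_add_le _ _
            _ ≤ 3 * R := by linarith
        refine (hup w h1).trans ?_
        apply mul_le_mul_of_nonneg_right _ (by positivity)
        linarith
      have hb2 : 1 / 2 * Real.sqrt (nw w₀) ^ κ ≤ ‖q w₀‖ := by
        refine le_trans ?_ hw₀q
        apply mul_le_mul_of_nonneg_right _ (by positivity)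
        linarith
      have hsubR : Metric.closedBall w₀ R ⊆ Metric.closedBall c (3 * R) := by
        intro w hw
        rw [mem_closedBall_iff_norm] at hw ⊢
        calc ‖w - c‖ = ‖(w - w₀) + (w₀ - c)‖ := by rw [sub_add_sub_cancel]
          _ ≤ ‖w - w₀‖ + ‖w₀ - c‖ := norm_add_le _ _
          _ ≤ 3 * R := by linarith
      obtain ⟨hne, e, he, hdd⟩ := hess' R κ w₀ q hR0 hR1 hκ1 hκ2 hw₀4 (hq.mono hsubR) hb1 hb2
      have hpk := pack (NN κ q) w₀ ρ (γ * κ) (Γ * κ) σ ε e hρ0 (by positivity) (by positivity) hσ0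
        hε0 hερ ?_ ?_ ?_ ?_ he ?_
      · refine le_trans (measure_mono ?_) hpk
        rintro y ⟨hyX, hyy⟩
        obtain ⟨-, w, hwy, hwq⟩ := hyX
        rw [mem_closedBall_iff_norm] at hyy
        refine ⟨?_, w, hwy, ?_⟩
        · have h1 : ‖y - w₀‖ ≤ ‖y - y₀‖ + ‖x₀ - y₀‖ + ‖w₀ - x₀‖ := by
            calc ‖y - w₀‖ = ‖(y - y₀) - (x₀ - y₀) - (w₀ - x₀)‖ := by congr 1; abel
              _ ≤ ‖(y - y₀) - (x₀ - y₀)‖ + ‖w₀ - x₀‖ := norm_sub_le _ _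
              _ ≤ ‖y - y₀‖ + ‖x₀ - y₀‖ + ‖w₀ - x₀‖ := by
                  have := norm_sub_le (y - y₀) (x₀ - y₀)
                  linarith
          linarith
        · refine (v12_upper κ q w s hs0 (by linarith) hwq).trans ?_
          rw [hσ]
          exact mul_le_mul_of_nonneg_right hK4 hs0.le
      · -- `Γ κ m ε² ≤ σ`
        have h1 : Γ * κ * m * ε ^ 2 ≤ Γ * κ * m * (s * R ^ 2) :=
          mul_le_mul_of_nonneg_left hε (by positivity)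
        have h2 : Γ * κ * m * (s * R ^ 2) = Γ * m * s * (κ * R ^ 2) := by ring
        have h3 : Γ * m * s * (κ * R ^ 2) ≤ Γ * m * s * (2 * D) :=
          mul_le_mul_of_nonneg_left hκ2 (by positivity)
        have h4 : Γ * m * s * (2 * D) ≤ K₀ * s := by
          have : Γ * m * s * (2 * D) = (2 * D * Γ * m) * s := by ring
          rw [this]
          apply mul_le_mul_of_nonneg_right _ hs0.le
          linarith
        linarith
      · -- `σ ≤ γ κ ρ²`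
        have h1 : K₀ * s ≤ γ * η ^ 2 := by
          have := mul_le_mul_of_nonneg_left hs2 hK0.le
          rwa [mul_div_cancel₀ _ hK0.ne'] at this
        have h2 : γ * η ^ 2 * 1 ≤ γ * η ^ 2 * (κ * R ^ 2) :=
          mul_le_mul_of_nonneg_left hκ1 (by positivity)
        calc σ ≤ γ * η ^ 2 * 1 := by rw [mul_one]; exact h1
          _ ≤ γ * η ^ 2 * (κ * R ^ 2) := h2
          _ = γ * κ * ρ ^ 2 := by rw [hρ]; ring
      · refine v12_cont κ q _ (hq.mono (Set.Subset.trans (Metric.closedBall_subset_closedBall ?_)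
          hsubR)) ?_
        · linarith
        intro w hw
        rw [mem_closedBall_iff_norm] at hw
        apply hne
        rw [hρ] at hw
        linarith
      · intro w hw
        have hqw : q w ≠ 0 := by
          apply hne
          rw [hρ] at hw
          linarith
        have h1 : ‖w - c‖ ≤ 3 * R := by
          calc ‖w - c‖ = ‖(w - w₀) + (w₀ - c)‖ := by rw [sub_add_sub_cancel]
            _ ≤ ‖w - w₀‖ + ‖w₀ - c‖ := norm_add_le _ _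
            _ ≤ 3 * R := by linarith
        have h2 := v12_lower κ q w s hs0 hqw (hup w h1)
        have h3 : 2 * s ≤ σ := by
          rw [hσ]
          nlinarith
        linarith
      · intro y v hy hv
        have hy' : ‖y - w₀‖ ≤ 2 * η * R := by
          rw [hρ] at hy
          linarith
        have hv' : ‖v‖ ≤ 2 * η * R := by
          rw [hρ] at hv
          linarith
        exact hdd y v hy' hv'
  -- the covering
  have hXsub : X ⊆ Metric.closedBall c (5 / 4 * R) := by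
    intro y hy
    rw [mem_closedBall_iff_norm]
    exact hy.1
  have hcov := cover_le m X c (5 / 4 * R) (ρ / 4) (by positivity) hXsub (ENNReal.ofReal M)
    (fun y _ => claim y)
  rw [volume_ball m 0 (ρ / 4) (by positivity), volume_ball m c (5 / 4 * R + ρ / 4) (by positivity),
    ← ENNReal.ofReal_mul hM0] at hcov
  set P : ℝ := (Real.pi * (ρ / 4) ^ 2) ^ m with hP
  have hP0 : 0 < P := by
    have := Real.pi_pos
    positivity
  have h1 : volume X ≤ ENNReal.ofReal (M * (Real.pi * (5 / 4 * R + ρ / 4) ^ 2) ^ m / P) := by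
    rw [ENNReal.ofReal_div_of_pos hP0]
    rw [ENNReal.le_div_iff_mul_le]
    · exact hcov
    · left
      exact (ENNReal.ofReal_pos.2 hP0).ne'
    · left
      exact ENNReal.ofReal_ne_top
  refine h1.trans (ENNReal.ofReal_le_ofReal ?_)
  rw [div_le_iff₀ hP0]
  -- real inequality
  have hpi := Real.pi_pos
  have h2 : (Real.pi * (5 / 4 * R + ρ / 4) ^ 2) ^ m ≤ (Real.pi * (2 * R) ^ 2) ^ m := by
    apply pow_le_pow_left₀ (by positivity)
    apply mul_le_mul_of_nonneg_left _ hpi.le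
    apply pow_le_pow_left₀ (by positivity)
    linarith
  have h3 : (Real.pi * (2 * R) ^ 2) ^ m = (64 / η ^ 2) ^ m * P := by
    rw [hP, ← mul_pow]
    congr 1
    rw [hρ]
    field_simp
    ring
  have h4 : Real.sqrt (σ / (γ * κ)) ≤ Real.sqrt (K₀ / γ) * Real.sqrt s * R := by
    have h5 : σ / (γ * κ) ≤ K₀ / γ * s * R ^ 2 := by
      rw [div_le_iff₀ (by positivity)]
      have h6 : K₀ / γ * s * R ^ 2 * (γ * κ) = K₀ * s * (κ * R ^ 2) := by
        field_simp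
      rw [h6]
      have : K₀ * s * 1 ≤ K₀ * s * (κ * R ^ 2) :=
        mul_le_mul_of_nonneg_left hκ1 (by positivity)
      linarith
    refine (Real.sqrt_le_sqrt h5).trans (le_of_eq ?_)
    rw [Real.sqrt_mul (by positivity), Real.sqrt_mul (by positivity), Real.sqrt_sq hR0.le]
  have h7 : Real.sqrt (σ / (γ * κ)) ^ m ≤ (Real.sqrt (K₀ / γ) * Real.sqrt s * R) ^ m :=
    pow_le_pow_left₀ (Real.sqrt_nonneg _) h4 m
  calc M * (Real.pi * (5 / 4 * R + ρ / 4) ^ 2) ^ m ≤ M * ((64 / η ^ 2) ^ m * P) := by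
        rw [← h3]
        exact mul_le_mul_of_nonneg_left h2 hM0
    _ ≤ (C₁₀ * ρ ^ m * (Real.sqrt (K₀ / γ) * Real.sqrt s * R) ^ m) * ((64 / η ^ 2) ^ m * P) := by
        apply mul_le_mul_of_nonneg_right _ (by positivity)
        rw [hM]
        exact mul_le_mul_of_nonneg_left h7 (by positivity)
    _ = C₁₀ * (η * Real.sqrt (K₀ / γ)) ^ m * (64 / η ^ 2) ^ m * Real.sqrt s ^ m * R ^ (2 * m) * P := by
        rw [hρ, pow_mul' R 2 m]
        simp only [mul_pow]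
        ring

end PCV
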