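import Pool.Agent.PCV.Defs

/-!
# [PCV-V3] the normalising factor

Write `A = nw w₁ ≥ 1`, `p = pw w₁ x`.  `|p| ≤ m ‖w₁‖ ‖x‖ ≤ 4 m ‖x‖ ≤ 1/2` (maximum norms, `‖x‖ ≤ 1/(8m)`), and by
Cauchy-Schwarz `|p|² ≤ (A-1) e2 x`.
* `nw (w₁ + R x) = A + 2 R Re p + R² e2 x` (expand `‖w₁ i + R x i‖²`), `‖A + R p‖² = A² + 2 A R Re p + R² |p|²`,
  hence `nw (w₁ + R x) * A = ‖A + R p‖² + R² (A e2 x - |p|²)`.
* `‖A + R p‖ ≥ A - R|p| ≥ A - 1/2 ≥ A/2`.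
* `R² (A e2 x - |p|²) ≤ R² A e2 x ≤ 4 R² e2 x ‖A + R p‖²` since `‖A + R p‖² ≥ A²/4 ≥ A/4`.
-/

open MeasureTheory Set Filter Topology

namespace PCV

theorem one_le_nw {m : ℕ} (w : Fin m → ℂ) : 1 ≤ nw w := by
  unfold nw
  have : 0 ≤ ∑ i, ‖w i‖ ^ 2 := Finset.sum_nonneg fun i _ => sq_nonneg _
  linarith

theorem v3_sum_le {m : ℕ} (w : Fin m → ℂ) (r : ℝ) (h : ‖w‖ ≤ r) :
    ∑ i, ‖w i‖ ^ 2 ≤ m * r ^ 2 := by
  have h1 : ∀ i ∈ (Finset.univ : Finset (Fin m)), ‖w i‖ ^ 2 ≤ r ^ 2 := fun i _ =>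
    pow_le_pow_left₀ (norm_nonneg _) ((norm_le_pi_norm w i).trans h) 2
  have h2 := Finset.sum_le_card_nsmul _ _ _ h1
  rwa [Finset.card_univ, Fintype.card_fin, nsmul_eq_mul] at h2

theorem nw_le {m : ℕ} (w : Fin m → ℂ) (r : ℝ) (h : ‖w‖ ≤ r) : nw w ≤ 1 + m * r ^ 2 := by
  unfold nw
  have := v3_sum_le w r h
  linarith

theorem v3_e2_nonneg {m : ℕ} (v : Fin m → ℂ) : 0 ≤ e2 v :=
  Finset.sum_nonneg fun i _ => sq_nonneg _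

theorem norm_sq_le_e2 {m : ℕ} (v : Fin m → ℂ) : ‖v‖ ^ 2 ≤ e2 v := by
  have h0 := v3_e2_nonneg v
  have h1 : ‖v‖ ≤ Real.sqrt (e2 v) := by
    rw [pi_norm_le_iff_of_nonneg (Real.sqrt_nonneg _)]
    intro i
    apply Real.le_sqrt_of_sq_le
    exact Finset.single_le_sum (f := fun i => ‖v i‖ ^ 2) (fun i _ => sq_nonneg _)
      (Finset.mem_univ i)
  calc ‖v‖ ^ 2 ≤ Real.sqrt (e2 v) ^ 2 := pow_le_pow_left₀ (norm_nonneg _) h1 2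
    _ = e2 v := Real.sq_sqrt h0

theorem e2_le {m : ℕ} (v : Fin m → ℂ) : e2 v ≤ m * ‖v‖ ^ 2 :=
  v3_sum_le v ‖v‖ le_rfl

theorem v3_pw_le {m : ℕ} (w v : Fin m → ℂ) : ‖pw w v‖ ≤ ∑ i, ‖v i‖ * ‖w i‖ := by
  unfold pw
  refine (norm_sum_le _ _).trans (le_of_eq (Finset.sum_congr rfl fun i _ => ?_))
  rw [norm_mul, RCLike.norm_conj]

theorem v3_nw_sub {m : ℕ} (w : Fin m → ℂ) : nw w - 1 = ∑ i, ‖w i‖ ^ 2 := by
  unfold nw
  ring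

theorem pw_le {m : ℕ} (w v : Fin m → ℂ) : ‖pw w v‖ ^ 2 ≤ (nw w - 1) * e2 v := by
  have h1 := v3_pw_le w v
  have h2 := Finset.sum_mul_sq_le_sq_mul_sq Finset.univ (fun i => ‖v i‖) (fun i => ‖w i‖)
  rw [v3_nw_sub, mul_comm]
  exact (pow_le_pow_left₀ (norm_nonneg _) h1 2).trans h2

theorem norm_pw_le {m : ℕ} (w v : Fin m → ℂ) : ‖pw w v‖ ≤ m * ‖w‖ * ‖v‖ := by
  refine (v3_pw_le w v).trans ?_
  have h1 : ∀ i ∈ (Finset.univ : Finset (Fin m)), ‖v i‖ * ‖w i‖ ≤ ‖w‖ * ‖v‖ := fun i _ => by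
    rw [mul_comm]
    exact mul_le_mul (norm_le_pi_norm w i) (norm_le_pi_norm v i) (norm_nonneg _) (norm_nonneg _)
  have h2 := Finset.sum_le_card_nsmul _ _ _ h1
  rwa [Finset.card_univ, Fintype.card_fin, nsmul_eq_mul, ← mul_assoc] at h2

theorem v3_expand {m : ℕ} (w₁ x : Fin m → ℂ) (R : ℝ) :
    nw (w₁ + (R : ℂ) • x) = nw w₁ + 2 * R * (pw w₁ x).re + R ^ 2 * e2 x := by
  unfold nw pw e2
  rw [Complex.re_sum, Finset.mul_sum, Finset.mul_sum, add_assoc, add_assoc,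
    ← Finset.sum_add_distrib, ← Finset.sum_add_distrib]
  congr 1
  refine Finset.sum_congr rfl fun i _ => ?_
  simp only [Pi.add_apply, Pi.smul_apply, smul_eq_mul]
  rw [← Complex.normSq_eq_norm_sq, ← Complex.normSq_eq_norm_sq, ← Complex.normSq_eq_norm_sq,
    Complex.normSq_apply, Complex.normSq_apply, Complex.normSq_apply]
  simp only [Complex.add_re, Complex.add_im, Complex.mul_re, Complex.mul_im, Complex.ofReal_re,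
    Complex.ofReal_im, Complex.conj_re, Complex.conj_im]
  ring

theorem v3_normsq (A R : ℝ) (p : ℂ) :
    ‖(A : ℂ) + R * p‖ ^ 2 = A ^ 2 + 2 * A * R * p.re + R ^ 2 * ‖p‖ ^ 2 := by
  rw [← Complex.normSq_eq_norm_sq, ← Complex.normSq_eq_norm_sq,
    Complex.normSq_apply, Complex.normSq_apply]
  simp only [Complex.add_re, Complex.add_im, Complex.mul_re, Complex.mul_im, Complex.ofReal_re,
    Complex.ofReal_im]
  ring

theorem factor_bounds {m : ℕ} (hm : 1 ≤ m) (w₁ x : Fin m → ℂ) (R : ℝ) (hR0 : 0 < R) (hR1 : R ≤ 1)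
    (hw : ‖w₁‖ ≤ 4) (hx : ‖x‖ ≤ 1 / (8 * m)) :
    nw w₁ / 2 ≤ ‖(nw w₁ : ℂ) + R * pw w₁ x‖ ∧
      nw (w₁ + (R : ℂ) • x) * nw w₁ ≤
        ‖(nw w₁ : ℂ) + R * pw w₁ x‖ ^ 2 * (1 + 4 * R ^ 2 * e2 x) := by
  have hA := one_le_nw w₁
  have hm0 : (1 : ℝ) ≤ m := by exact_mod_cast hm
  have hp : ‖pw w₁ x‖ ≤ 1 / 2 := by
    refine (norm_pw_le w₁ x).trans ?_
    have h1 : (m : ℝ) * ‖w₁‖ * ‖x‖ ≤ m * 4 * (1 / (8 * m)) :=
      mul_le_mul (mul_le_mul_of_nonneg_left hw (by linarith)) hx (norm_nonneg _) (by linarith)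
    refine h1.trans (le_of_eq ?_)
    field_simp
    norm_num
  have hlow : nw w₁ / 2 ≤ ‖(nw w₁ : ℂ) + R * pw w₁ x‖ := by
    have h1 : ‖(nw w₁ : ℂ)‖ = nw w₁ := by
      rw [Complex.norm_real, Real.norm_eq_abs, abs_of_pos (by linarith)]
    have h2 : ‖(R : ℂ) * pw w₁ x‖ ≤ 1 / 2 := by
      rw [norm_mul, Complex.norm_real, Real.norm_eq_abs, abs_of_pos hR0]
      calc R * ‖pw w₁ x‖ ≤ 1 * (1 / 2) := mul_le_mul hR1 hp (norm_nonneg _) zero_le_one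
        _ = 1 / 2 := one_mul _
    have h3 : ‖(nw w₁ : ℂ)‖ - ‖(R : ℂ) * pw w₁ x‖ ≤ ‖(nw w₁ : ℂ) + R * pw w₁ x‖ := by
      have h4 := norm_sub_le ((nw w₁ : ℂ) + R * pw w₁ x) ((R : ℂ) * pw w₁ x)
      rw [add_sub_cancel_right] at h4
      linarith
    rw [h1] at h3
    linarith
  refine ⟨hlow, ?_⟩
  have h5 := v3_normsq (nw w₁) R (pw w₁ x)
  have h6 := v3_expand w₁ x R
  have he := v3_e2_nonneg x
  have h7 : nw w₁ / 4 ≤ ‖(nw w₁ : ℂ) + R * pw w₁ x‖ ^ 2 := by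
    have h8 : (nw w₁ / 2) ^ 2 ≤ ‖(nw w₁ : ℂ) + R * pw w₁ x‖ ^ 2 :=
      pow_le_pow_left₀ (by linarith) hlow 2
    nlinarith
  have h9 : R ^ 2 * (nw w₁ * e2 x) ≤
      ‖(nw w₁ : ℂ) + R * pw w₁ x‖ ^ 2 * (4 * R ^ 2 * e2 x) := by
    have h10 : nw w₁ * (R ^ 2 * e2 x) ≤
        (4 * ‖(nw w₁ : ℂ) + R * pw w₁ x‖ ^ 2) * (R ^ 2 * e2 x) :=
      mul_le_mul_of_nonneg_right (by linarith) (by positivity)
    calc R ^ 2 * (nw w₁ * e2 x) = nw w₁ * (R ^ 2 * e2 x) := by ring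
      _ ≤ _ := h10
      _ = _ := by ring
  have h11 : 0 ≤ R ^ 2 * ‖pw w₁ x‖ ^ 2 := by positivity
  have h12 : nw (w₁ + (R : ℂ) • x) * nw w₁ =
      ‖(nw w₁ : ℂ) + R * pw w₁ x‖ ^ 2 + R ^ 2 * (nw w₁ * e2 x) - R ^ 2 * ‖pw w₁ x‖ ^ 2 := by
    rw [h6, h5]
    ring
  rw [h12, mul_add, mul_one]
  linarith

/-- Levi form of `log nw` -/
theorem PP_levi {m : ℕ} (w v : Fin m → ℂ) :
    4 * e2 v / nw w ^ 2 ≤ PP w v + PP w (Complex.I • v) := by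
  have hA := one_le_nw w
  have hA0 : 0 < nw w := by linarith
  have h1 : pw w (Complex.I • v) = Complex.I * pw w v := by
    unfold pw
    rw [Finset.mul_sum]
    refine Finset.sum_congr rfl fun i _ => ?_
    simp only [Pi.smul_apply, smul_eq_mul]
    ring
  have h2 : e2 (Complex.I • v) = e2 v := by
    unfold e2
    refine Finset.sum_congr rfl fun i _ => ?_
    simp only [Pi.smul_apply, smul_eq_mul, norm_mul, Complex.norm_I, one_mul]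
  have h3 : (Complex.I * pw w v).re = -(pw w v).im := by
    simp
  have h4 : ‖pw w v‖ ^ 2 = (pw w v).re ^ 2 + (pw w v).im ^ 2 := by
    rw [← Complex.normSq_eq_norm_sq, Complex.normSq_apply]
    ring
  have h5 := pw_le w v
  unfold PP
  rw [h1, h2, h3]
  have h6 : 2 * e2 v / nw w - 4 * (pw w v).re ^ 2 / nw w ^ 2 +
      (2 * e2 v / nw w - 4 * (-(pw w v).im) ^ 2 / nw w ^ 2) =
      (4 * e2 v * nw w - 4 * ‖pw w v‖ ^ 2) / nw w ^ 2 := by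
    rw [h4]
    field_simp
    ring
  rw [h6]
  apply div_le_div_of_nonneg_right _ (by positivity)
  nlinarith

end PCV
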