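import Pool.Agent.PCV.V3

/-!
# [PCV-V4] the logarithm of `q` near a point where `|q|` is almost maximal

Notation: `A = nw w₁`, `p(x) = pw w₁ x` (complex linear in `x`), `D1 = D + 1`, `η₁ = 1/(8 m D1)`,
`η = η₁ / 64` (any sufficiently small explicit choice is fine).
For `‖x‖ ≤ η₁` define `Q x = q (w₁ + R x) * (√A / (A + R p(x)))^κ`; analytic on `ball 0 η₁` (denominator `≠ 0` by
`factor_bounds`).  By `factor_bounds`,
`|Q x| ≤ 2 (nw (w₁+Rx) A / |A + R p|²)^(κ/2) ≤ 2 (1 + 4R² e2 x)^(κ/2) ≤ 2 exp (2 κ R² e2 x) ≤ 2 exp (4 D m ‖x‖²) ≤ 4`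
(`‖R x‖ ≤ R`, so the hypothesis on `q` applies), and `|Q 0| = |q w₁| / √A^κ ≥ 1/2`.
For fixed `x` with `‖x‖ < η`, the one variable function `t ↦ Q (t x)` on the disc of radius `η₁/‖x‖` is bounded by
`4`, so (Schwarz lemma, e.g. `Complex.dist_le_div_mul_dist_of_mapsTo_ball`, or the Cauchy estimate of the derivative)
`|Q x - Q 0| ≤ 8 ‖x‖ / η₁ ≤ 1/8 ≤ |Q 0| / 4`.  So `Q x / Q 0` lies in the ball of radius `1/4` about `1`, in
particular in `Complex.slitPlane`, and `g₁ x = Complex.log (Q x / Q 0)` is analytic with `|g₁| ≤ 1`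
(`‖Complex.log (1+z)‖ ≤ ...`, e.g. `Complex.norm_log_one_add_le`).
Let `u(x) = R p(x) / A`, complex linear, `|u| ≤ 4 m ‖x‖ ≤ 1/2`, and
`g₂ x = κ (log (1 + u) - u)`: `|log (1+u) - u| ≤ |u|²` for `|u| ≤ 1/2` (`Complex.norm_log_one_add_sub_self_le`), so
`|g₂| ≤ κ |u|² ≤ κ R² 16 m² ‖x‖² ≤ 32 D m² ‖x‖² ≤ 1`.  Here one should estimate `|u| = R|p|/A ≤ R m ‖w₁‖ ‖x‖ ≤ 4 R m ‖x‖`.
Then `q (w₁+Rx) = Q 0 * exp (g₁ x) * ((A + R p)/√A)^κ` and `A + R p = A (1 + u)`, hence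
`log |q (w₁+Rx)| = log |Q 0| + Re g₁ + κ Re (log (1+u)) + (κ/2) log A
  = Re (g₁ x + g₂ x) + κ Re u(x) + const`.
Take `g = g₁ + g₂` and the real linear functional `x ↦ κ Re u(x)`.
-/

open MeasureTheory Set Filter Topology

namespace PCV

theorem v4_pw_analytic {m : ℕ} (w₁ x : Fin m → ℂ) : AnalyticAt ℂ (fun x => pw w₁ x) x := by
  unfold pw
  exact Finset.analyticAt_fun_sum _ fun i _ =>
    ((ContinuousLinearMap.proj (R := ℂ) (φ := fun _ : Fin m => ℂ) i).analyticAt x).mul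
      analyticAt_const

theorem v4_pw_smul {m : ℕ} (w₁ x : Fin m → ℂ) (t : ℂ) : pw w₁ (t • x) = t * pw w₁ x := by
  unfold pw
  rw [Finset.mul_sum]
  refine Finset.sum_congr rfl fun i _ => ?_
  simp only [Pi.smul_apply, smul_eq_mul]
  ring

theorem v4_pw_add {m : ℕ} (w₁ x y : Fin m → ℂ) : pw w₁ (x + y) = pw w₁ x + pw w₁ y := by
  unfold pw
  rw [← Finset.sum_add_distrib]
  refine Finset.sum_congr rfl fun i _ => ?_
  simp only [Pi.add_apply]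
  ring

theorem v4_pw_zero {m : ℕ} (w₁ : Fin m → ℂ) : pw w₁ 0 = 0 := by
  unfold pw
  simp

/-- the normalised function -/
noncomputable def v4Q {m : ℕ} (R : ℝ) (κ : ℕ) (w₁ : Fin m → ℂ) (q : (Fin m → ℂ) → ℂ)
    (x : Fin m → ℂ) : ℂ :=
  q (w₁ + (R : ℂ) • x) * ((Real.sqrt (nw w₁) : ℂ) / ((nw w₁ : ℂ) + R * pw w₁ x)) ^ κ

theorem v4_bound {m D : ℕ} (hm : 1 ≤ m) (R : ℝ) (κ : ℕ) (w₁ : Fin m → ℂ) (q : (Fin m → ℂ) → ℂ)
    (hR0 : 0 < R) (hR1 : R ≤ 1) (hκ : κ * R ^ 2 ≤ 2 * D) (hw : ‖w₁‖ ≤ 4)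
    (hb : ∀ w, ‖w - w₁‖ ≤ R → ‖q w‖ ≤ 2 * Real.sqrt (nw w) ^ κ) (x : Fin m → ℂ)
    (hx : ‖x‖ ≤ 1 / (8 * m * (D + 1))) : ‖v4Q R κ w₁ q x‖ ≤ 4 := by
  have hm0 : (1 : ℝ) ≤ m := by exact_mod_cast hm
  have hD0 : (0 : ℝ) ≤ D := Nat.cast_nonneg D
  have hA := one_le_nw w₁
  have hA0 : 0 < nw w₁ := by linarith
  have hx1 : ‖x‖ ≤ 1 / (8 * m) := by
    refine hx.trans ?_
    apply one_div_le_one_div_of_le (by positivity)
    nlinarith
  have hx2 : ‖x‖ ≤ 1 := by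
    refine hx1.trans ?_
    rw [div_le_one (by positivity)]
    linarith
  obtain ⟨h1, h2⟩ := factor_bounds hm w₁ x R hR0 hR1 hw hx1
  set N := ‖(nw w₁ : ℂ) + R * pw w₁ x‖ with hN
  have hN0 : 0 < N := by linarith
  have h3 : ‖q (w₁ + (R : ℂ) • x)‖ ≤ 2 * Real.sqrt (nw (w₁ + (R : ℂ) • x)) ^ κ := by
    apply hb
    rw [add_sub_cancel_left, norm_smul, Complex.norm_real, Real.norm_eq_abs, abs_of_pos hR0]
    nlinarith [norm_nonneg x]
  have h4 : ‖((Real.sqrt (nw w₁) : ℂ) / ((nw w₁ : ℂ) + R * pw w₁ x)) ^ κ‖ =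
      (Real.sqrt (nw w₁) / N) ^ κ := by
    rw [norm_pow, norm_div, Complex.norm_real, Real.norm_eq_abs,
      abs_of_nonneg (Real.sqrt_nonneg _)]
  have h5 : Real.sqrt (nw (w₁ + (R : ℂ) • x)) * (Real.sqrt (nw w₁) / N) ≤
      Real.exp (2 * R ^ 2 * e2 x) := by
    have h6 : Real.sqrt (nw (w₁ + (R : ℂ) • x)) * (Real.sqrt (nw w₁) / N) =
        Real.sqrt (nw (w₁ + (R : ℂ) • x) * nw w₁) / N := by
      rw [Real.sqrt_mul (by linarith [one_le_nw (w₁ + (R : ℂ) • x)])]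
      ring
    rw [h6, div_le_iff₀ hN0]
    apply Real.sqrt_le_iff.2
    refine ⟨by positivity, h2.trans ?_⟩
    have h7 : 1 + 4 * R ^ 2 * e2 x ≤ Real.exp (2 * R ^ 2 * e2 x) ^ 2 := by
      rw [← Real.exp_nat_mul]
      have h8 := Real.add_one_le_exp (4 * R ^ 2 * e2 x)
      have h9 : ((2 : ℕ) : ℝ) * (2 * R ^ 2 * e2 x) = 4 * R ^ 2 * e2 x := by
        push_cast
        ring
      rw [h9]
      linarith
    calc N ^ 2 * (1 + 4 * R ^ 2 * e2 x) ≤ N ^ 2 * Real.exp (2 * R ^ 2 * e2 x) ^ 2 :=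
          mul_le_mul_of_nonneg_left h7 (sq_nonneg _)
      _ = (Real.exp (2 * R ^ 2 * e2 x) * N) ^ 2 := by ring
  have h10 : (Real.sqrt (nw (w₁ + (R : ℂ) • x)) * (Real.sqrt (nw w₁) / N)) ^ κ ≤ 2 := by
    have h11 := pow_le_pow_left₀ (mul_nonneg (Real.sqrt_nonneg (nw (w₁ + (R : ℂ) • x)))
      (div_nonneg (Real.sqrt_nonneg (nw w₁)) hN0.le)) h5 κ
    refine h11.trans ?_
    rw [← Real.exp_nat_mul]
    have he := e2_le x
    have he0 := v3_e2_nonneg x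
    have h12 : (κ : ℝ) * (2 * R ^ 2 * e2 x) ≤ 1 / 16 := by
      have h13 : (κ : ℝ) * (2 * R ^ 2 * e2 x) = 2 * (κ * R ^ 2) * e2 x := by ring
      have h14 : 2 * ((κ : ℝ) * R ^ 2) * e2 x ≤ 2 * (2 * D) * (m * ‖x‖ ^ 2) := by
        apply mul_le_mul (by linarith) he he0 (by positivity)
      have h15 : ‖x‖ ^ 2 ≤ (1 / (8 * m * (D + 1))) ^ 2 :=
        pow_le_pow_left₀ (norm_nonneg _) hx 2
      have h16 : 2 * (2 * (D : ℝ)) * (m * ‖x‖ ^ 2) ≤
          2 * (2 * D) * (m * (1 / (8 * m * (D + 1))) ^ 2) := by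
        apply mul_le_mul_of_nonneg_left _ (by positivity)
        apply mul_le_mul_of_nonneg_left h15 (by positivity)
      have h17 : 2 * (2 * (D : ℝ)) * (m * (1 / (8 * m * (D + 1))) ^ 2) =
          (1 / 16) * (D / (m * (D + 1) ^ 2)) := by
        field_simp
        ring
      have h18 : (D : ℝ) / (m * (D + 1) ^ 2) ≤ 1 := by
        rw [div_le_one (by positivity)]
        nlinarith
      rw [h13]
      linarith
    have h19 : Real.exp ((κ : ℝ) * (2 * R ^ 2 * e2 x)) ≤ Real.exp (1 / 16) := Real.exp_le_exp.2 h12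
    have h20 : Real.exp (1 / 16) ≤ 2 := by
      have h21 : Real.exp (1 / 16) ≤ Real.exp (Real.log 2) := by
        apply Real.exp_le_exp.2
        have := Real.log_two_gt_d9
        linarith
      rwa [Real.exp_log two_pos] at h21
    linarith
  unfold v4Q
  rw [norm_mul, h4]
  calc ‖q (w₁ + (R : ℂ) • x)‖ * (Real.sqrt (nw w₁) / N) ^ κ
      ≤ 2 * Real.sqrt (nw (w₁ + (R : ℂ) • x)) ^ κ * (Real.sqrt (nw w₁) / N) ^ κ :=
        mul_le_mul_of_nonneg_right h3 (by positivity)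
    _ = 2 * (Real.sqrt (nw (w₁ + (R : ℂ) • x)) * (Real.sqrt (nw w₁) / N)) ^ κ := by
        rw [mul_pow]
        ring
    _ ≤ 2 * 2 := mul_le_mul_of_nonneg_left h10 (by norm_num)
    _ = 4 := by norm_num

theorem v4_den {m : ℕ} (hm : 1 ≤ m) (R : ℝ) (w₁ : Fin m → ℂ) (hR0 : 0 < R) (hR1 : R ≤ 1)
    (hw : ‖w₁‖ ≤ 4) (x : Fin m → ℂ) (hx : ‖x‖ ≤ 1 / (8 * m)) :
    (nw w₁ : ℂ) + R * pw w₁ x ≠ 0 := by
  have h1 := (factor_bounds hm w₁ x R hR0 hR1 hw hx).1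
  have hA := one_le_nw w₁
  intro h
  rw [h, norm_zero] at h1
  linarith

theorem v4_Q_analytic {m : ℕ} (hm : 1 ≤ m) (R : ℝ) (κ : ℕ) (w₁ : Fin m → ℂ)
    (q : (Fin m → ℂ) → ℂ) (hR0 : 0 < R) (hR1 : R ≤ 1)
    (hw : ‖w₁‖ ≤ 4) (hq : AnalyticOnNhd ℂ q (Metric.closedBall w₁ R)) (x : Fin m → ℂ)
    (hx : ‖x‖ ≤ 1 / (8 * m)) :
    AnalyticAt ℂ (v4Q R κ w₁ q) x := by
  have hm0 : (1 : ℝ) ≤ m := by exact_mod_cast hm
  have hx1 : ‖x‖ ≤ 1 := by
    refine hx.trans ?_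
    rw [div_le_one (by positivity)]
    linarith
  have hmem : w₁ + (R : ℂ) • x ∈ Metric.closedBall w₁ R := by
    rw [mem_closedBall_iff_norm, add_sub_cancel_left, norm_smul, Complex.norm_real,
      Real.norm_eq_abs, abs_of_pos hR0]
    nlinarith
  have h1 : AnalyticAt ℂ (fun x : Fin m → ℂ => w₁ + (R : ℂ) • x) x :=
    by fun_prop
  have h2 : AnalyticAt ℂ (fun x : Fin m → ℂ => q (w₁ + (R : ℂ) • x)) x :=
    AnalyticAt.fun_comp (hq _ hmem) h1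
  have h3 : AnalyticAt ℂ (fun x : Fin m → ℂ => (nw w₁ : ℂ) + R * pw w₁ x) x :=
    analyticAt_const.add (analyticAt_const.mul (v4_pw_analytic w₁ x))
  have h4 := v4_den hm R w₁ hR0 hR1 hw x hx
  unfold v4Q
  exact h2.mul ((analyticAt_const.div h3 h4).pow κ)

theorem v4_close {m D : ℕ} (hm : 1 ≤ m) (R : ℝ) (κ : ℕ) (w₁ : Fin m → ℂ) (q : (Fin m → ℂ) → ℂ)
    (hR0 : 0 < R) (hR1 : R ≤ 1) (hκ : κ * R ^ 2 ≤ 2 * D) (hw : ‖w₁‖ ≤ 4)
    (hq : AnalyticOnNhd ℂ q (Metric.closedBall w₁ R))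
    (hb : ∀ w, ‖w - w₁‖ ≤ R → ‖q w‖ ≤ 2 * Real.sqrt (nw w) ^ κ) (x : Fin m → ℂ)
    (hx : ‖x‖ < 1 / (8 * m * (D + 1)) / 64) :
    ‖v4Q R κ w₁ q x - v4Q R κ w₁ q 0‖ ≤ 9 / 64 := by
  have hm0 : (1 : ℝ) ≤ m := by exact_mod_cast hm
  have hD0 : (0 : ℝ) ≤ D := Nat.cast_nonneg D
  have hsmall : ∀ t ∈ Metric.ball (0 : ℂ) 64, ‖t • x‖ ≤ 1 / (8 * m * (D + 1)) := by
    intro t ht
    rw [mem_ball_zero_iff] at ht
    rw [norm_smul]
    have h1 : ‖t‖ * ‖x‖ ≤ 64 * (1 / (8 * m * (D + 1)) / 64) :=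
      mul_le_mul ht.le hx.le (norm_nonneg _) (by norm_num)
    linarith
  have hle : (1 : ℝ) / (8 * m * (D + 1)) ≤ 1 / (8 * m) := by
    apply one_div_le_one_div_of_le (by positivity)
    nlinarith
  have hd : DifferentiableOn ℂ (fun t : ℂ => v4Q R κ w₁ q (t • x)) (Metric.ball 0 64) := by
    intro t ht
    apply DifferentiableAt.differentiableWithinAt
    have h2 := (v4_Q_analytic hm R κ w₁ q hR0 hR1 hw hq (t • x)
      ((hsmall t ht).trans hle)).differentiableAt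
    exact DifferentiableAt.comp t h2 (differentiableAt_id.smul_const x)
  have hmaps : Set.MapsTo (fun t : ℂ => v4Q R κ w₁ q (t • x)) (Metric.ball 0 64)
      (Metric.closedBall ((fun t : ℂ => v4Q R κ w₁ q (t • x)) 0) 9) := by
    intro t ht
    rw [mem_closedBall_iff_norm]
    have h3 := v4_bound hm R κ w₁ q hR0 hR1 hκ hw hb (t • x) (hsmall t ht)
    have h4 := v4_bound hm R κ w₁ q hR0 hR1 hκ hw hb ((0 : ℂ) • x)
      (hsmall 0 (Metric.mem_ball_self (by norm_num)))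
    calc ‖v4Q R κ w₁ q (t • x) - v4Q R κ w₁ q ((0 : ℂ) • x)‖
        ≤ ‖v4Q R κ w₁ q (t • x)‖ + ‖v4Q R κ w₁ q ((0 : ℂ) • x)‖ := norm_sub_le _ _
      _ ≤ 9 := by linarith
  have h5 := Complex.dist_le_div_mul_dist_of_mapsTo_ball hd hmaps
    (z := 1) (by rw [mem_ball_zero_iff, norm_one]; norm_num)
  rw [dist_eq_norm, dist_eq_norm, sub_zero, norm_one, mul_one, one_smul, zero_smul] at h5
  exact h5

theorem exists_log (m D : ℕ) (hm : 1 ≤ m) :
    ∃ η : ℝ, 0 < η ∧ η ≤ 1 / 8 ∧ ∀ (R : ℝ) (κ : ℕ) (w₁ : Fin m → ℂ) (q : (Fin m → ℂ) → ℂ), 0 < R →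
      R ≤ 1 → κ * R ^ 2 ≤ 2 * D → ‖w₁‖ ≤ 4 → AnalyticOnNhd ℂ q (Metric.closedBall w₁ R) →
      (∀ w, ‖w - w₁‖ ≤ R → ‖q w‖ ≤ 2 * Real.sqrt (nw w) ^ κ) →
      1 / 2 * Real.sqrt (nw w₁) ^ κ ≤ ‖q w₁‖ →
      ∃ (g : (Fin m → ℂ) → ℂ) (u : (Fin m → ℂ) →ₗ[ℝ] ℝ) (c₀ : ℝ),
        AnalyticOnNhd ℂ g (Metric.ball 0 η) ∧ (∀ x ∈ Metric.ball (0 : Fin m → ℂ) η, ‖g x‖ ≤ 2) ∧
        ∀ x ∈ Metric.ball (0 : Fin m → ℂ) η, q (w₁ + (R : ℂ) • x) ≠ 0 ∧
          Real.log ‖q (w₁ + (R : ℂ) • x)‖ = (g x).re + u x + c₀ := by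
  have hm0 : (1 : ℝ) ≤ m := by exact_mod_cast hm
  have hD0 : (0 : ℝ) ≤ D := Nat.cast_nonneg D
  have hle : (1 : ℝ) / (8 * m * (D + 1)) ≤ 1 / (8 * m) := by
    apply one_div_le_one_div_of_le (by positivity)
    nlinarith
  have hle8 : (1 : ℝ) / (8 * m) ≤ 1 / 8 := by
    apply one_div_le_one_div_of_le (by positivity)
    linarith
  have hpos : (0 : ℝ) < 1 / (8 * m * (D + 1)) := by positivity
  refine ⟨1 / (8 * m * (D + 1)) / 64, by positivity, by linarith, ?_⟩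
  intro R κ w₁ q hR0 hR1 hκ hw hq hb hlow
  have hA := one_le_nw w₁
  have hA0 : 0 < nw w₁ := by linarith
  have hsA : 0 < Real.sqrt (nw w₁) := Real.sqrt_pos.2 hA0
  have hAc : (nw w₁ : ℂ) ≠ 0 := by exact_mod_cast hA0.ne'
  set η : ℝ := 1 / (8 * m * (D + 1)) / 64 with hη
  -- the value at zero
  have hQ0 : 1 / 2 ≤ ‖v4Q R κ w₁ q 0‖ := by
    unfold v4Q
    rw [smul_zero, add_zero, v4_pw_zero, mul_zero, add_zero, norm_mul, norm_pow, norm_div,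
      Complex.norm_real, Complex.norm_real, Real.norm_eq_abs, Real.norm_eq_abs, abs_of_pos hsA,
      abs_of_pos hA0]
    have h1 : Real.sqrt (nw w₁) / nw w₁ = (Real.sqrt (nw w₁))⁻¹ := by
      rw [Real.sqrt_div_self', one_div]
    rw [h1, inv_pow, ← div_eq_mul_inv, le_div_iff₀ (by positivity)]
    exact hlow
  have hQ00 : v4Q R κ w₁ q 0 ≠ 0 := by
    intro h
    rw [h, norm_zero] at hQ0
    norm_num at hQ0
  have hball : ∀ x ∈ Metric.ball (0 : Fin m → ℂ) η, ‖x‖ < η := fun x hx =>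
    mem_ball_zero_iff.1 hx
  have hη8 : η ≤ 1 / (8 * m) := by
    rw [hη]
    linarith
  -- the quotient
  have hz : ∀ x ∈ Metric.ball (0 : Fin m → ℂ) η,
      ‖v4Q R κ w₁ q x / v4Q R κ w₁ q 0 - 1‖ ≤ 1 / 2 := by
    intro x hx
    have h1 := v4_close hm R κ w₁ q hR0 hR1 hκ hw hq hb x (hball x hx)
    have h2 : v4Q R κ w₁ q x / v4Q R κ w₁ q 0 - 1 =
        (v4Q R κ w₁ q x - v4Q R κ w₁ q 0) / v4Q R κ w₁ q 0 := by
      field_simp
    rw [h2, norm_div, div_le_iff₀ (by linarith)]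
    linarith
  have hslit : ∀ x ∈ Metric.ball (0 : Fin m → ℂ) η,
      v4Q R κ w₁ q x / v4Q R κ w₁ q 0 ∈ Complex.slitPlane := by
    intro x hx
    have h1 := Complex.mem_slitPlane_of_norm_lt_one (lt_of_le_of_lt (hz x hx) (by norm_num))
    rwa [add_sub_cancel] at h1
  have hz2 : ∀ x ∈ Metric.ball (0 : Fin m → ℂ) η,
      ‖Complex.log (v4Q R κ w₁ q x / v4Q R κ w₁ q 0)‖ ≤ 1 := by
    intro x hx
    have h1 := Complex.norm_log_one_add_half_le_self (hz x hx)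
    rw [add_sub_cancel] at h1
    have := hz x hx
    linarith
  -- the linear part
  have hu : ∀ x ∈ Metric.ball (0 : Fin m → ℂ) η,
      ‖(R : ℂ) * pw w₁ x / nw w₁‖ ≤ 4 * R * m * η := by
    intro x hx
    rw [norm_div, norm_mul, Complex.norm_real, Complex.norm_real, Real.norm_eq_abs,
      Real.norm_eq_abs, abs_of_pos hR0, abs_of_pos hA0]
    rw [div_le_iff₀ hA0]
    have h1 := norm_pw_le w₁ x
    have h2 : (m : ℝ) * ‖w₁‖ * ‖x‖ ≤ m * 4 * η :=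
      mul_le_mul (mul_le_mul_of_nonneg_left hw (by linarith)) (hball x hx).le (norm_nonneg _)
        (by linarith)
    have h3 : R * ‖pw w₁ x‖ ≤ R * (m * 4 * η) :=
      mul_le_mul_of_nonneg_left (h1.trans h2) hR0.le
    have h4 : 0 ≤ 4 * R * m * η := by positivity
    nlinarith
  have hmη : (m : ℝ) * η ≤ 1 / 512 := by
    have h1 : (m : ℝ) * η ≤ m * (1 / (8 * m) / 64) := by
      apply mul_le_mul_of_nonneg_left _ (by linarith)
      rw [hη]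
      linarith
    refine h1.trans (le_of_eq ?_)
    field_simp
    norm_num
  have hu2 : ∀ x ∈ Metric.ball (0 : Fin m → ℂ) η,
      ‖(R : ℂ) * pw w₁ x / nw w₁‖ ≤ 1 / 2 := by
    intro x hx
    refine (hu x hx).trans ?_
    have h1 : 4 * R * m * η = 4 * (R * (m * η)) := by ring
    have h2 : R * ((m : ℝ) * η) ≤ 1 * (1 / 512) :=
      mul_le_mul hR1 hmη (by positivity) zero_le_one
    rw [h1]
    linarith
  have hg2 : ∀ x ∈ Metric.ball (0 : Fin m → ℂ) η,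
      ‖(κ : ℂ) * (Complex.log (1 + (R : ℂ) * pw w₁ x / nw w₁) -
        (R : ℂ) * pw w₁ x / nw w₁)‖ ≤ 1 := by
    intro x hx
    set z := (R : ℂ) * pw w₁ x / nw w₁ with hzdef
    have h1 := hu2 x hx
    have h2 := hu x hx
    rw [← hzdef] at h1 h2
    have h3 := Complex.norm_log_one_add_sub_self_le (z := z) (by linarith)
    have h4 : ‖z‖ ^ 2 * (1 - ‖z‖)⁻¹ / 2 ≤ ‖z‖ ^ 2 := by
      have h5 : (1 - ‖z‖)⁻¹ ≤ 2 := by
        rw [inv_le_comm₀ (by linarith) (by norm_num)]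
        linarith
      nlinarith [sq_nonneg ‖z‖]
    rw [norm_mul, Complex.norm_natCast]
    have h6 : (κ : ℝ) * ‖Complex.log (1 + z) - z‖ ≤ κ * (4 * R * m * η) ^ 2 := by
      apply mul_le_mul_of_nonneg_left _ (Nat.cast_nonneg κ)
      exact (h3.trans h4).trans (pow_le_pow_left₀ (norm_nonneg _) h2 2)
    refine h6.trans ?_
    have h7 : (κ : ℝ) * (4 * R * m * η) ^ 2 = 16 * (κ * R ^ 2) * (m * η) ^ 2 := by ring
    have h8 : (D + 1 : ℝ) * (m * η) = 1 / 512 := by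
      rw [hη]
      field_simp
      norm_num
    have h9 : 16 * ((κ : ℝ) * R ^ 2) * (m * η) ^ 2 ≤ 16 * (2 * D) * (m * η) ^ 2 := by
      apply mul_le_mul_of_nonneg_right _ (sq_nonneg _)
      linarith
    have h10 : (D : ℝ) * (m * η) ≤ 1 / 512 := by
      have : 0 ≤ (m : ℝ) * η := by positivity
      linarith
    have h11 : (D : ℝ) * (m * η) * (m * η) ≤ 1 / 512 * (1 / 512) :=
      mul_le_mul h10 hmη (by positivity) (by norm_num)
    rw [h7]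
    nlinarith
  -- definition of the data
  refine ⟨fun x => Complex.log (v4Q R κ w₁ q x / v4Q R κ w₁ q 0) +
      (κ : ℂ) * (Complex.log (1 + (R : ℂ) * pw w₁ x / nw w₁) - (R : ℂ) * pw w₁ x / nw w₁),
    { toFun := fun x => κ * ((R : ℂ) * pw w₁ x / nw w₁).re
      map_add' := fun x y => by
        rw [v4_pw_add, mul_add, add_div, Complex.add_re]
        ring
      map_smul' := fun t x => by
        have h1 : (t • x : Fin m → ℂ) = (t : ℂ) • x := by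
          ext i
          simp
        rw [h1, v4_pw_smul, RingHom.id_apply, smul_eq_mul]
        have h2 : (R : ℂ) * ((t : ℂ) * pw w₁ x) / nw w₁ = (t : ℂ) * ((R : ℂ) * pw w₁ x / nw w₁) := by
          ring
        rw [h2, Complex.re_ofReal_mul]
        ring },
    Real.log ‖v4Q R κ w₁ q 0‖ + κ * (Real.log (nw w₁) - Real.log (Real.sqrt (nw w₁))), ?_, ?_, ?_⟩
  · intro x hx
    have hx8 : ‖x‖ ≤ 1 / (8 * m) := (hball x hx).le.trans hη8
    have h1 := v4_Q_analytic hm R κ w₁ q hR0 hR1 hw hq x hx8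
    have h2 : AnalyticAt ℂ (fun x => v4Q R κ w₁ q x / v4Q R κ w₁ q 0) x :=
      h1.div analyticAt_const hQ00
    have h3 : AnalyticAt ℂ (fun x : Fin m → ℂ => (R : ℂ) * pw w₁ x / nw w₁) x :=
      (analyticAt_const.mul (v4_pw_analytic w₁ x)).div analyticAt_const hAc
    refine (h2.clog (hslit x hx)).add (analyticAt_const.mul (((analyticAt_const.add h3).clog ?_).sub
      h3))
    exact Complex.mem_slitPlane_of_norm_lt_one (lt_of_le_of_lt (hu2 x hx) (by norm_num))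
  · intro x hx
    refine (norm_add_le _ _).trans ?_
    have h1 := hz2 x hx
    have h2 := hg2 x hx
    linarith
  · intro x hx
    have hx8 : ‖x‖ ≤ 1 / (8 * m) := (hball x hx).le.trans hη8
    have hden := v4_den hm R w₁ hR0 hR1 hw x hx8
    have hQx : v4Q R κ w₁ q x ≠ 0 := by
      intro h
      have h1 := hz x hx
      rw [h, zero_div, zero_sub, norm_neg, norm_one] at h1
      norm_num at h1
    have hqx : q (w₁ + (R : ℂ) • x) ≠ 0 := by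
      intro h
      apply hQx
      unfold v4Q
      rw [h, zero_mul]
    refine ⟨hqx, ?_⟩
    have h1 : Real.log ‖v4Q R κ w₁ q x‖ = Real.log ‖q (w₁ + (R : ℂ) • x)‖ +
        κ * (Real.log (Real.sqrt (nw w₁)) - Real.log ‖(nw w₁ : ℂ) + R * pw w₁ x‖) := by
      unfold v4Q
      rw [norm_mul, Real.log_mul (norm_ne_zero_iff.2 hqx), norm_pow, Real.log_pow, norm_div,
        Complex.norm_real, Real.norm_eq_abs, abs_of_pos hsA,
        Real.log_div hsA.ne' (norm_ne_zero_iff.2 hden)]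
      rw [norm_pow]
      apply pow_ne_zero
      rw [norm_ne_zero_iff]
      apply div_ne_zero _ hden
      exact_mod_cast hsA.ne'
    have h2 : (Complex.log (v4Q R κ w₁ q x / v4Q R κ w₁ q 0)).re =
        Real.log ‖v4Q R κ w₁ q x‖ - Real.log ‖v4Q R κ w₁ q 0‖ := by
      rw [Complex.log_re, norm_div, Real.log_div (norm_ne_zero_iff.2 hQx)
        (norm_ne_zero_iff.2 hQ00)]
    have h3 : (nw w₁ : ℂ) + R * pw w₁ x = nw w₁ * (1 + (R : ℂ) * pw w₁ x / nw w₁) := by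
      field_simp
    have h4 : (1 : ℂ) + (R : ℂ) * pw w₁ x / nw w₁ ≠ 0 := by
      intro h
      rw [h3, h, mul_zero] at hden
      exact hden rfl
    have h5 : Real.log ‖(nw w₁ : ℂ) + R * pw w₁ x‖ = Real.log (nw w₁) +
        (Complex.log (1 + (R : ℂ) * pw w₁ x / nw w₁)).re := by
      rw [h3, norm_mul, Complex.norm_real, Real.norm_eq_abs, abs_of_pos hA0,
        Real.log_mul hA0.ne' (norm_ne_zero_iff.2 h4), Complex.log_re]
    rw [Complex.add_re, h2, h1, h5]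
    have h6 : ((κ : ℂ) * (Complex.log (1 + (R : ℂ) * pw w₁ x / nw w₁) -
        (R : ℂ) * pw w₁ x / nw w₁)).re = κ * ((Complex.log (1 + (R : ℂ) * pw w₁ x / nw w₁)).re -
          ((R : ℂ) * pw w₁ x / nw w₁).re) := by
      rw [← Complex.ofReal_natCast, Complex.re_ofReal_mul, Complex.sub_re]
    rw [h6]
    simp only [LinearMap.coe_mk, AddHom.coe_mk]
    ring

end PCV
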