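import Pool.Agent.PCV.Defs

/-!
# [PCV-V5] second differences of holomorphic functions of one variable

Replacing `h` by `t ↦ h (ϱ t)` one may take `ϱ = 1` (or work with general `ϱ` directly).  The even part
`E t = h t + h (-t) - 2 h 0` is holomorphic, `|E| ≤ 4M`, `E 0 = 0`, `E' 0 = 0`.  Taylor series at `0`
(`DifferentiableOn` on a disc gives a power series, Cauchy estimates `|a_n| ≤ 4M/ϱ'^n` for every `ϱ' < ϱ`,
hence for `ϱ` in the limit; only even `n ≥ 2` occur, `a_2 = h''(0)` because `E = 2 (a_2(h) t² + ...)`,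
`h''(0) = 2 a_2(h)`).  For `|t| ≤ ϱ/2`:
`|E t| ≤ ∑_{n ≥ 2} 4M (|t|/ϱ)^n ≤ 8 M |t|²/ϱ²` and `|E t - t² h''(0)| ≤ ∑_{n ≥ 3} 4M (|t|/ϱ)^n ≤ 8 M |t|³/ϱ³`.
Alternative: Schwarz lemma applied to `E t / t` and `E t / t²` (`dslope`), or bounds for the third derivative
(`Complex.norm_iteratedDeriv_le_of_forall_mem_sphere_norm_le`) and Taylor's formula on the segment `[0,t]`.
Any explicit constant instead of `16` may be used if it is changed consistently (tell helper61).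
-/

open MeasureTheory Set Filter Topology

namespace PCV

theorem v5_coeff (ϱ M : ℝ) (h : ℂ → ℂ) (hϱ : 0 < ϱ)
    (hd : DifferentiableOn ℂ h (Metric.ball 0 ϱ)) (hb : ∀ t ∈ Metric.ball (0 : ℂ) ϱ, ‖h t‖ ≤ M) (n : ℕ) :
    ‖((n.factorial : ℂ))⁻¹ * iteratedDeriv n h 0‖ ≤ M / (3 / 4 * ϱ) ^ n := by
  have hR : 0 < 3 / 4 * ϱ := by positivity
  have hsub : Metric.closedBall (0 : ℂ) (3 / 4 * ϱ) ⊆ Metric.ball 0 ϱ :=
    Metric.closedBall_subset_ball (by linarith)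
  have h1 := Complex.norm_iteratedDeriv_le_of_forall_mem_sphere_norm_le n hR (hd.diffContOnCl_ball hsub)
    (C := M) (fun z hz => hb z (hsub (Metric.sphere_subset_closedBall hz)))
  have hf : (0 : ℝ) < n.factorial := by exact_mod_cast n.factorial_pos
  rw [norm_mul, norm_inv, Complex.norm_natCast]
  calc ((n.factorial : ℝ))⁻¹ * ‖iteratedDeriv n h 0‖
      ≤ ((n.factorial : ℝ))⁻¹ * (n.factorial * M / (3 / 4 * ϱ) ^ n) :=
        mul_le_mul_of_nonneg_left h1 (by positivity)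
    _ = M / (3 / 4 * ϱ) ^ n := by
        field_simp

theorem v5_key (ϱ M : ℝ) (h : ℂ → ℂ) (hϱ : 0 < ϱ) (hM : 0 ≤ M)
    (hd : DifferentiableOn ℂ h (Metric.ball 0 ϱ)) (hb : ∀ t ∈ Metric.ball (0 : ℂ) ϱ, ‖h t‖ ≤ M)
    (t : ℂ) (ht : ‖t‖ ≤ ϱ / 2) (k : ℕ) :
    ‖h t + h (-t) - ∑ i ∈ Finset.range k, (((i.factorial : ℂ))⁻¹ * iteratedDeriv i h 0) * (t ^ i + (-t) ^ i)‖ ≤
      6 * M * (‖t‖ / (3 / 4 * ϱ)) ^ k := by
  have hR : 0 < 3 / 4 * ϱ := by positivity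
  set x := ‖t‖ / (3 / 4 * ϱ) with hx
  have hx0 : 0 ≤ x := by positivity
  have hx1 : x ≤ 2 / 3 := by
    rw [hx, div_le_iff₀ hR]
    linarith
  have hser : ∀ s : ℂ, ‖s‖ ≤ ϱ / 2 → HasSum (fun n : ℕ => (((n.factorial : ℂ))⁻¹ * iteratedDeriv n h 0) * s ^ n) (h s) := by
    intro s hs
    have h1 := Complex.hasSum_taylorSeries_on_ball hd (z := s) (by
      rw [Metric.mem_ball, dist_zero_right]
      linarith)
    refine h1.congr_fun ?_ |> fun h => h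
    intro n
    simp only [smul_eq_mul, sub_zero]
    ring
  have hF := (hser t ht).add (hser (-t) (by rw [norm_neg]; exact ht))
  have hF' := (hasSum_nat_add_iff' k).2 hF
  have hgeo : HasSum (fun n : ℕ => 2 * M * x ^ k * x ^ n) (2 * M * x ^ k * (1 - x)⁻¹) :=
    (hasSum_geometric_of_lt_one hx0 (by linarith)).mul_left _
  have hbound := hF'.norm_le_of_bounded hgeo (fun n => by
    have e1 : (((n + k).factorial : ℂ))⁻¹ * iteratedDeriv (n + k) h 0 * t ^ (n + k) +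
        (((n + k).factorial : ℂ))⁻¹ * iteratedDeriv (n + k) h 0 * (-t) ^ (n + k) =
        (((n + k).factorial : ℂ))⁻¹ * iteratedDeriv (n + k) h 0 * (t ^ (n + k) + (-t) ^ (n + k)) := by ring
    rw [e1, norm_mul]
    have e2 := v5_coeff ϱ M h hϱ hd hb (n + k)
    have e3 : ‖t ^ (n + k) + (-t) ^ (n + k)‖ ≤ 2 * ‖t‖ ^ (n + k) := by
      refine (norm_add_le _ _).trans ?_
      rw [norm_pow, norm_pow, norm_neg]
      linarith
    calc ‖(((n + k).factorial : ℂ))⁻¹ * iteratedDeriv (n + k) h 0‖ * ‖t ^ (n + k) + (-t) ^ (n + k)‖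
        ≤ (M / (3 / 4 * ϱ) ^ (n + k)) * (2 * ‖t‖ ^ (n + k)) := by
          refine mul_le_mul e2 e3 (norm_nonneg _) (by positivity)
      _ = 2 * M * x ^ k * x ^ n := by
          rw [hx, mul_assoc, ← pow_add, add_comm k n, div_pow]
          field_simp)
  have e4 : ∑ i ∈ Finset.range k, (((i.factorial : ℂ))⁻¹ * iteratedDeriv i h 0) * (t ^ i + (-t) ^ i) =
      ∑ i ∈ Finset.range k, ((((i.factorial : ℂ))⁻¹ * iteratedDeriv i h 0) * t ^ i +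
        (((i.factorial : ℂ))⁻¹ * iteratedDeriv i h 0) * (-t) ^ i) :=
    Finset.sum_congr rfl fun i _ => by ring
  rw [e4]
  refine hbound.trans ?_
  have e5 : (1 - x)⁻¹ ≤ 3 := by
    rw [inv_le_comm₀ (by linarith) (by norm_num)]
    linarith
  calc 2 * M * x ^ k * (1 - x)⁻¹ ≤ 2 * M * x ^ k * 3 := mul_le_mul_of_nonneg_left e5 (by positivity)
    _ = 6 * M * x ^ k := by ring

theorem one_var_le (ϱ M : ℝ) (h : ℂ → ℂ) (hϱ : 0 < ϱ) (hM : 0 ≤ M)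
    (hd : DifferentiableOn ℂ h (Metric.ball 0 ϱ)) (hb : ∀ t ∈ Metric.ball (0 : ℂ) ϱ, ‖h t‖ ≤ M)
    (t : ℂ) (ht : ‖t‖ ≤ ϱ / 2) : ‖h t + h (-t) - 2 * h 0‖ ≤ 64 * M / ϱ ^ 2 * ‖t‖ ^ 2 := by
  have h1 := v5_key ϱ M h hϱ hM hd hb t ht 2
  have e1 : ∑ i ∈ Finset.range 2, (((i.factorial : ℂ))⁻¹ * iteratedDeriv i h 0) * (t ^ i + (-t) ^ i) = 2 * h 0 := by
    rw [Finset.sum_range_succ, Finset.sum_range_one, iteratedDeriv_zero]
    simp only [Nat.factorial_zero, Nat.factorial_one, Nat.cast_one, inv_one, pow_zero, pow_one]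
    ring
  rw [e1] at h1
  refine h1.trans ?_
  have e2 : 6 * M * (‖t‖ / (3 / 4 * ϱ)) ^ 2 = (32 / 3) * M / ϱ ^ 2 * ‖t‖ ^ 2 := by
    field_simp
    ring
  rw [e2]
  have e3 : 0 ≤ M / ϱ ^ 2 * ‖t‖ ^ 2 := by positivity
  have e4 : (32 / 3) * M / ϱ ^ 2 * ‖t‖ ^ 2 = (32 / 3) * (M / ϱ ^ 2 * ‖t‖ ^ 2) := by ring
  have e5 : 64 * M / ϱ ^ 2 * ‖t‖ ^ 2 = 64 * (M / ϱ ^ 2 * ‖t‖ ^ 2) := by ring
  rw [e4, e5]
  linarith

theorem one_var_sub_le (ϱ M : ℝ) (h : ℂ → ℂ) (hϱ : 0 < ϱ) (hM : 0 ≤ M)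
    (hd : DifferentiableOn ℂ h (Metric.ball 0 ϱ)) (hb : ∀ t ∈ Metric.ball (0 : ℂ) ϱ, ‖h t‖ ≤ M)
    (t : ℂ) (ht : ‖t‖ ≤ ϱ / 2) :
    ‖h t + h (-t) - 2 * h 0 - t ^ 2 * iteratedDeriv 2 h 0‖ ≤ 64 * M / ϱ ^ 3 * ‖t‖ ^ 3 := by
  have h1 := v5_key ϱ M h hϱ hM hd hb t ht 3
  have e1 : ∑ i ∈ Finset.range 3, (((i.factorial : ℂ))⁻¹ * iteratedDeriv i h 0) * (t ^ i + (-t) ^ i) =
      2 * h 0 + t ^ 2 * iteratedDeriv 2 h 0 := by
    rw [Finset.sum_range_succ, Finset.sum_range_succ, Finset.sum_range_one, iteratedDeriv_zero]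
    simp only [Nat.factorial_zero, Nat.factorial_one, Nat.factorial_two, Nat.cast_one, Nat.cast_ofNat, inv_one,
      pow_zero, pow_one]
    ring
  rw [e1] at h1
  have e6 : h t + h (-t) - 2 * h 0 - t ^ 2 * iteratedDeriv 2 h 0 =
      h t + h (-t) - (2 * h 0 + t ^ 2 * iteratedDeriv 2 h 0) := by ring
  rw [e6]
  refine h1.trans ?_
  have e2 : 6 * M * (‖t‖ / (3 / 4 * ϱ)) ^ 3 = (128 / 9) * M / ϱ ^ 3 * ‖t‖ ^ 3 := by
    field_simp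
    ring
  rw [e2]
  have e3 : 0 ≤ M / ϱ ^ 3 * ‖t‖ ^ 3 := by positivity
  have e4 : (128 / 9) * M / ϱ ^ 3 * ‖t‖ ^ 3 = (128 / 9) * (M / ϱ ^ 3 * ‖t‖ ^ 3) := by ring
  have e5 : 64 * M / ϱ ^ 3 * ‖t‖ ^ 3 = 64 * (M / ϱ ^ 3 * ‖t‖ ^ 3) := by ring
  rw [e4, e5]
  linarith

theorem one_var_deriv_le (ϱ M : ℝ) (h : ℂ → ℂ) (hϱ : 0 < ϱ) (hM : 0 ≤ M)
    (hd : DifferentiableOn ℂ h (Metric.ball 0 ϱ)) (hb : ∀ t ∈ Metric.ball (0 : ℂ) ϱ, ‖h t‖ ≤ M) :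
    ‖iteratedDeriv 2 h 0‖ ≤ 64 * M / ϱ ^ 2 := by
  have h1 := v5_coeff ϱ M h hϱ hd hb 2
  rw [norm_mul, norm_inv, Nat.factorial_two, Complex.norm_natCast] at h1
  have e1 : M / (3 / 4 * ϱ) ^ 2 = (16 / 9) * (M / ϱ ^ 2) := by
    field_simp
    ring
  rw [e1] at h1
  have e3 : 0 ≤ M / ϱ ^ 2 := by positivity
  have e5 : 64 * M / ϱ ^ 2 = 64 * (M / ϱ ^ 2) := by ring
  rw [e5]
  push_cast at h1
  linarith

end PCV
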