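import Pool.Agent.PCV.V5

/-!
# [PCV-V6] second differences of holomorphic functions of several variables

`β v v' = fderiv ℂ (fderiv ℂ g) 0 v v'` (as a bilinear map; `g` is analytic on the ball, so `fderiv ℂ g` is
differentiable at `0`).  For `v ≠ 0` let `h t = g (t • v)`, holomorphic on the disc of radius `ϱ/‖v‖`, bounded by
`M`, with `iteratedDeriv 2 h 0 = β v v` (chain rule).
* `‖β v v‖ ≤ 64 M/(ϱ/‖v‖)²` by `one_var_deriv_le`.
* For `‖v‖ ≤ ϱ/4`, `one_var_sub_le` at `t = 1` (`1 ≤ (ϱ/‖v‖)/2`):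
  `‖g v + g (-v) - 2 g 0 - β v v‖ ≤ 64 M ‖v‖³/ϱ³`.
* For `‖y‖ ≤ ϱ/4`, `‖v‖ ≤ ϱ/4`, `v ≠ 0` let `k t = g (y + t v) - g (t v)` on the disc of radius `ϱ/(4‖v‖) · 2`, i.e.
  `|t| ‖v‖ < ϱ/2`; there `‖y + t v‖ < 3ϱ/4`.  `‖k t‖ ≤ C M ‖y‖/ϱ`: for fixed `t` the function
  `z ↦ g (z y + t v)` is holomorphic and bounded by `M` for `|z| ‖y‖ < ϱ/2`; Schwarz lemma (or the Cauchy estimate of
  its derivative on `[0,1]`): `|g (y+tv) - g (tv)| ≤ 2M/(ϱ/(2‖y‖)) = 4 M ‖y‖/ϱ` (case `y = 0` trivial).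
  `one_var_le` with radius `ϱ/(2‖v‖)`, `t = 1`: `‖k 1 + k (-1) - 2 k 0‖ ≤ 64 (4M‖y‖/ϱ) (2‖v‖/ϱ)²`.
  Add: `g (y+v) + g (y-v) - 2 g y - β v v = [k 1 + k (-1) - 2 k 0] + [g v + g (-v) - 2 g 0 - β v v]`.
Constant: `C = 1024` suffices.
-/

open MeasureTheory Set Filter Topology

namespace PCV

theorem v6_line {m : ℕ} {ϱ : ℝ} (hϱ : 0 < ϱ) {g : (Fin m → ℂ) → ℂ} (hg : AnalyticOnNhd ℂ g (Metric.ball 0 ϱ))
    (v : Fin m → ℂ) : iteratedDeriv 2 (fun t : ℂ => g (t • v)) 0 = fderiv ℂ (fderiv ℂ g) 0 v v := by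
  have hcont : Continuous fun t : ℂ => t • v := continuous_id.smul continuous_const
  have h0 : (0 : Fin m → ℂ) ∈ Metric.ball (0 : Fin m → ℂ) ϱ := Metric.mem_ball_self hϱ
  have hsm : ∀ t : ℂ, HasDerivAt (fun t : ℂ => t • v) v t := by
    intro t
    have h1 := (hasDerivAt_id t).smul_const v
    simpa using h1
  have hev : ∀ᶠ t : ℂ in 𝓝 0, t • v ∈ Metric.ball (0 : Fin m → ℂ) ϱ := by
    have h1 : Filter.Tendsto (fun t : ℂ => t • v) (𝓝 0) (𝓝 0) := by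
      have := hcont.tendsto 0
      rwa [zero_smul] at this
    exact h1 (Metric.ball_mem_nhds _ hϱ)
  have h1 : deriv (fun t : ℂ => g (t • v)) =ᶠ[𝓝 0] fun t => fderiv ℂ g (t • v) v := by
    filter_upwards [hev] with t ht
    have h2 : HasFDerivAt g (fderiv ℂ g (t • v)) (t • v) := (hg _ ht).differentiableAt.hasFDerivAt
    exact (h2.comp_hasDerivAt t (hsm t)).deriv
  rw [show (2 : ℕ) = 1 + 1 from rfl, iteratedDeriv_succ, iteratedDeriv_one, h1.deriv_eq]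
  have h3 : HasFDerivAt (fderiv ℂ g) (fderiv ℂ (fderiv ℂ g) 0) ((0 : ℂ) • v) := by
    rw [zero_smul]
    exact (hg 0 h0).fderiv.differentiableAt.hasFDerivAt
  have h4 : HasDerivAt (fun t : ℂ => fderiv ℂ g (t • v)) (fderiv ℂ (fderiv ℂ g) 0 v) 0 :=
    h3.comp_hasDerivAt 0 (hsm 0)
  have h5 := ((ContinuousLinearMap.apply ℂ ℂ v).hasFDerivAt).comp_hasDerivAt 0 h4
  exact h5.deriv

theorem v6_diff {m : ℕ} {ϱ : ℝ} {g : (Fin m → ℂ) → ℂ} (hg : AnalyticOnNhd ℂ g (Metric.ball 0 ϱ))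
    (y v : Fin m → ℂ) {r : ℝ} (h : ∀ t : ℂ, ‖t‖ < r → y + t • v ∈ Metric.ball (0 : Fin m → ℂ) ϱ) :
    DifferentiableOn ℂ (fun t : ℂ => g (y + t • v)) (Metric.ball 0 r) := by
  intro t ht
  rw [Metric.mem_ball, dist_zero_right] at ht
  have h2 : DifferentiableAt ℂ g (y + t • v) := (hg _ (h t ht)).differentiableAt
  have h3 : DifferentiableAt ℂ (fun t : ℂ => y + t • v) t :=
    (differentiableAt_const y).add (differentiableAt_id.smul_const v)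
  exact (h2.comp t h3).differentiableWithinAt

/-- Lipschitz bound -/
theorem v6_lip {m : ℕ} {ϱ M : ℝ} {g : (Fin m → ℂ) → ℂ} (hϱ : 0 < ϱ) (hg : AnalyticOnNhd ℂ g (Metric.ball 0 ϱ))
    (hb : ∀ x ∈ Metric.ball (0 : Fin m → ℂ) ϱ, ‖g x‖ ≤ M) {x y : Fin m → ℂ} (hx : ‖x‖ < ϱ / 2) (hy : ‖y‖ ≤ ϱ / 4) :
    ‖g (y + x) - g x‖ ≤ 4 * M / ϱ * ‖y‖ := by
  have hsub : Metric.ball x (ϱ / 2) ⊆ Metric.ball (0 : Fin m → ℂ) ϱ := by
    intro z hz
    rw [Metric.mem_ball, dist_zero_right]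
    rw [Metric.mem_ball, dist_eq_norm] at hz
    have : ‖z‖ ≤ ‖z - x‖ + ‖x‖ := by
      have h1 := norm_add_le (z - x) x
      rwa [sub_add_cancel] at h1
    linarith
  have h1 := Complex.dist_le_div_mul_dist_of_mapsTo_ball (f := g) (c := x) (z := y + x) (R₁ := ϱ / 2) (R₂ := 2 * M)
    (fun z hz => (hg z (hsub hz)).differentiableAt.differentiableWithinAt)
    (by
      intro z hz
      rw [Metric.mem_closedBall, dist_eq_norm]
      have e1 := hb z (hsub hz)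
      have e2 := hb x (hsub (Metric.mem_ball_self (by positivity)))
      exact (norm_sub_le _ _).trans (by linarith))
    (by
      rw [Metric.mem_ball, dist_eq_norm, add_sub_cancel_right]
      linarith)
  rw [dist_eq_norm, dist_eq_norm, add_sub_cancel_right] at h1
  refine h1.trans (le_of_eq ?_)
  field_simp
  ring

theorem second_diff (m : ℕ) : ∃ C : ℝ, 0 ≤ C ∧ ∀ (ϱ M : ℝ) (g : (Fin m → ℂ) → ℂ), 0 < ϱ → 0 ≤ M →
    AnalyticOnNhd ℂ g (Metric.ball 0 ϱ) → (∀ x ∈ Metric.ball (0 : Fin m → ℂ) ϱ, ‖g x‖ ≤ M) →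
    ∃ β : (Fin m → ℂ) →ₗ[ℂ] (Fin m → ℂ) →ₗ[ℂ] ℂ, (∀ v, ‖β v v‖ ≤ C * M / ϱ ^ 2 * ‖v‖ ^ 2) ∧
      ∀ y v, ‖y‖ ≤ ϱ / 4 → ‖v‖ ≤ ϱ / 4 →
        ‖g (y + v) + g (y - v) - 2 * g y - β v v‖ ≤ C * M / ϱ ^ 3 * ‖v‖ ^ 2 * (‖y‖ + ‖v‖) := by
  refine ⟨1024, by norm_num, ?_⟩
  intro ϱ M g hϱ hM hg hb
  refine ⟨LinearMap.mk₂ ℂ (fun v w => fderiv ℂ (fderiv ℂ g) 0 v w)
    (fun a b c => by simp) (fun t a b => by simp) (fun a b c => by simp) (fun t a b => by simp), ?_, ?_⟩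
  · intro v
    rw [LinearMap.mk₂_apply]
    by_cases hv : v = 0
    · rw [hv]
      simp
    have hv0 : 0 < ‖v‖ := norm_pos_iff.2 hv
    have hin : ∀ t : ℂ, ‖t‖ < ϱ / ‖v‖ → (0 : Fin m → ℂ) + t • v ∈ Metric.ball (0 : Fin m → ℂ) ϱ := by
      intro t ht
      rw [zero_add, Metric.mem_ball, dist_zero_right, norm_smul]
      rwa [lt_div_iff₀ hv0] at ht
    have hd := v6_diff hg 0 v hin
    simp only [zero_add] at hd hin
    have h1 := one_var_deriv_le (ϱ / ‖v‖) M (fun t : ℂ => g (t • v)) (by positivity) hM hd (by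
      intro t ht
      rw [Metric.mem_ball, dist_zero_right] at ht
      exact hb _ (hin t ht))
    rw [v6_line hϱ hg v] at h1
    refine h1.trans ?_
    have e1 : 64 * M / (ϱ / ‖v‖) ^ 2 = 64 * (M / ϱ ^ 2 * ‖v‖ ^ 2) := by
      field_simp
    have e2 : 1024 * M / ϱ ^ 2 * ‖v‖ ^ 2 = 1024 * (M / ϱ ^ 2 * ‖v‖ ^ 2) := by ring
    have e3 : 0 ≤ M / ϱ ^ 2 * ‖v‖ ^ 2 := by positivity
    rw [e1, e2]
    linarith
  · intro y v hy hv4
    rw [LinearMap.mk₂_apply]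
    by_cases hv : v = 0
    · rw [hv]
      simp
      ring_nf
    have hv0 : 0 < ‖v‖ := norm_pos_iff.2 hv
    -- first part
    have hin : ∀ t : ℂ, ‖t‖ < ϱ / ‖v‖ → (0 : Fin m → ℂ) + t • v ∈ Metric.ball (0 : Fin m → ℂ) ϱ := by
      intro t ht
      rw [zero_add, Metric.mem_ball, dist_zero_right, norm_smul]
      rwa [lt_div_iff₀ hv0] at ht
    have hd := v6_diff hg 0 v hin
    simp only [zero_add] at hd hin
    have h1 := one_var_sub_le (ϱ / ‖v‖) M (fun t : ℂ => g (t • v)) (by positivity) hM hd (by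
      intro t ht
      rw [Metric.mem_ball, dist_zero_right] at ht
      exact hb _ (hin t ht)) 1 (by
        rw [norm_one, le_div_iff₀ (by norm_num), le_div_iff₀ hv0]
        linarith)
    rw [v6_line hϱ hg v] at h1
    simp only [one_smul, neg_smul, zero_smul, norm_one, one_pow, mul_one, one_mul] at h1
    -- second part
    have hball : ∀ t : ℂ, ‖t‖ < ϱ / (2 * ‖v‖) → ‖t • v‖ < ϱ / 2 := by
      intro t ht
      rw [norm_smul]
      rw [lt_div_iff₀ (by positivity)] at ht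
      linarith
    have hd1 := v6_diff (r := ϱ / (2 * ‖v‖)) hg y v (by
      intro t ht
      rw [Metric.mem_ball, dist_zero_right]
      have := norm_add_le y (t • v)
      have := hball t ht
      linarith)
    have hd2 := v6_diff (r := ϱ / (2 * ‖v‖)) hg 0 v (by
      intro t ht
      rw [zero_add, Metric.mem_ball, dist_zero_right]
      have := hball t ht
      linarith)
    simp only [zero_add] at hd2
    have h2 := one_var_le (ϱ / (2 * ‖v‖)) (4 * M / ϱ * ‖y‖) (fun t : ℂ => g (y + t • v) - g (t • v))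
      (by positivity) (by positivity) (hd1.sub hd2) (by
        intro t ht
        rw [Metric.mem_ball, dist_zero_right] at ht
        exact v6_lip hϱ hg hb (hball t ht) hy) 1 (by
        rw [norm_one, le_div_iff₀ (by norm_num), le_div_iff₀ (by positivity)]
        linarith)
    simp only [one_smul, neg_smul, zero_smul, norm_one, one_pow, mul_one, add_zero] at h2
    have e0 : g (y + v) + g (y - v) - 2 * g y - fderiv ℂ (fderiv ℂ g) 0 v v =
        (g (y + v) - g v + (g (y + -v) - g (-v)) - 2 * (g y - g 0)) +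
          (g v + g (-v) - 2 * g 0 - fderiv ℂ (fderiv ℂ g) 0 v v) := by
      rw [sub_eq_add_neg y v]
      ring
    rw [e0]
    refine (norm_add_le _ _).trans ((add_le_add h2 h1).trans ?_)
    have e1 : 64 * M / (ϱ / ‖v‖) ^ 3 = 64 * (M / ϱ ^ 3 * ‖v‖ ^ 2 * ‖v‖) := by
      field_simp
    have e2 : 64 * (4 * M / ϱ * ‖y‖) / (ϱ / (2 * ‖v‖)) ^ 2 = 1024 * (M / ϱ ^ 3 * ‖v‖ ^ 2 * ‖y‖) := by
      field_simp
      ring
    have e3 : 1024 * M / ϱ ^ 3 * ‖v‖ ^ 2 * (‖y‖ + ‖v‖) =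
        1024 * (M / ϱ ^ 3 * ‖v‖ ^ 2 * ‖y‖) + 1024 * (M / ϱ ^ 3 * ‖v‖ ^ 2 * ‖v‖) := by ring
    have e4 : 0 ≤ M / ϱ ^ 3 * ‖v‖ ^ 2 * ‖v‖ := by positivity
    rw [e1, e2, e3]
    linarith

end PCV
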