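import Pool.Agent.PCV.V3

/-!
# [PCV-V7] second differences of `log nw`

`f t = log (nw (y + t v)) = log (a + 2 b t + e t²)`, `a = nw y`, `b = Re (pw y v)`, `e = e2 v` (`t` real).
`f'' 0 = 2e/a - 4b²/a² = PP y v`.  With `s t = a + 2bt + et² ≥ 1`, `|s'| = |2b + 2et| ≤ C ‖v‖`,
`|s''| = 2e ≤ C ‖v‖²` for `|t| ≤ 1`, `‖y‖ ≤ 7`, `‖v‖ ≤ 1`: `f''' = -3 s' s''/s² + 2 s'^3/s^3`, `|f'''| ≤ C ‖v‖³`.
Taylor: `|f 1 + f (-1) - 2 f 0 - f'' 0| ≤ (1/3) sup |f'''|` (constant irrelevant).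
`|PP y v - PP w v| ≤ C ‖v‖² ‖y - w‖`: `|1/nw y - 1/nw w| ≤ |nw y - nw w| ≤ C ‖y-w‖`, `pw` is additive in `w`
(conjugate linear), `|pw y v| ≤ C ‖v‖`.
-/

open MeasureTheory Set Filter Topology

namespace PCV

theorem v7_nw_add {m : ℕ} (y v : Fin m → ℂ) : nw (y + v) = nw y + 2 * (pw y v).re + e2 v ∧
    nw (y - v) = nw y - 2 * (pw y v).re + e2 v := by
  unfold nw pw e2
  rw [Complex.re_sum]
  constructor
  · have h1 : ∀ i, ‖(y + v) i‖ ^ 2 = ‖y i‖ ^ 2 + 2 * (v i * (starRingEnd ℂ) (y i)).re + ‖v i‖ ^ 2 := by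
      intro i
      rw [Pi.add_apply, ← Complex.normSq_eq_norm_sq, ← Complex.normSq_eq_norm_sq, ← Complex.normSq_eq_norm_sq,
        add_comm (y i), Complex.normSq_add]
      ring
    rw [Finset.sum_congr rfl fun i _ => h1 i, Finset.sum_add_distrib, Finset.sum_add_distrib, ← Finset.mul_sum]
    ring
  · have h1 : ∀ i, ‖(y - v) i‖ ^ 2 = ‖y i‖ ^ 2 - 2 * (v i * (starRingEnd ℂ) (y i)).re + ‖v i‖ ^ 2 := by
      intro i
      have h2 : (y - v) i = -(v i) + y i := by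
        rw [Pi.sub_apply]
        ring
      rw [h2, ← Complex.normSq_eq_norm_sq, ← Complex.normSq_eq_norm_sq, ← Complex.normSq_eq_norm_sq,
        Complex.normSq_add, Complex.normSq_neg, neg_mul, Complex.neg_re]
      ring
    rw [Finset.sum_congr rfl fun i _ => h1 i, Finset.sum_add_distrib, Finset.sum_sub_distrib, ← Finset.mul_sum]
    ring

theorem v7_e2_nonneg {m : ℕ} (v : Fin m → ℂ) : 0 ≤ e2 v := Finset.sum_nonneg fun _ _ => sq_nonneg _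

theorem v7_core {a b e : ℝ} (ha : 1 ≤ a) (he : 0 ≤ e) (h1 : 1 ≤ a + 2 * b + e) (h2 : 1 ≤ a - 2 * b + e) :
    |Real.log (a + 2 * b + e) + Real.log (a - 2 * b + e) - 2 * Real.log a - (2 * e / a - 4 * b ^ 2 / a ^ 2)| ≤
      a ^ 2 * (2 * e + e ^ 2 + 4 * b ^ 2) ^ 2 + e ^ 2 := by
  have ha0 : 0 < a := by linarith
  have hs1 : 0 < a + 2 * b + e := by linarith
  have hs2 : 0 < a - 2 * b + e := by linarith
  set u := 2 * e / a + e ^ 2 / a ^ 2 - 4 * b ^ 2 / a ^ 2 with hu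
  have e1 : 1 + u = (a + 2 * b + e) * (a - 2 * b + e) / a ^ 2 := by
    rw [hu]
    field_simp
    ring
  have hu1 : 1 / a ^ 2 ≤ 1 + u := by
    rw [e1]
    apply div_le_div_of_nonneg_right _ (by positivity)
    nlinarith
  have hu0 : 0 < 1 + u := lt_of_lt_of_le (by positivity) hu1
  have e2' : Real.log (a + 2 * b + e) + Real.log (a - 2 * b + e) - 2 * Real.log a = Real.log (1 + u) := by
    rw [e1, Real.log_div (by positivity) (by positivity), Real.log_mul hs1.ne' hs2.ne', Real.log_pow]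
    push_cast
    ring
  have h3 := Real.log_le_sub_one_of_pos hu0
  have h4 := Real.one_sub_inv_le_log_of_pos hu0
  have h5 : |Real.log (1 + u) - u| ≤ a ^ 2 * u ^ 2 := by
    have h6 : 1 - (1 + u)⁻¹ - u = -(u ^ 2 / (1 + u)) := by
      field_simp
      ring
    have h7 : u ^ 2 / (1 + u) ≤ a ^ 2 * u ^ 2 := by
      rw [div_le_iff₀ hu0]
      have h8 : 1 ≤ a ^ 2 * (1 + u) := by
        rw [div_le_iff₀ (by positivity)] at hu1
        linarith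
      have h9 : 0 ≤ u ^ 2 := sq_nonneg u
      nlinarith
    rw [abs_le]
    constructor
    · linarith
    · have h9 : 0 ≤ a ^ 2 * u ^ 2 := by positivity
      linarith
  have h6 : |u| ≤ 2 * e + e ^ 2 + 4 * b ^ 2 := by
    have ha2 : 1 ≤ a ^ 2 := by nlinarith
    have g1 : 2 * e / a ≤ 2 * e := div_le_self (by positivity) ha
    have g2 : e ^ 2 / a ^ 2 ≤ e ^ 2 := div_le_self (by positivity) ha2
    have g3 : 4 * b ^ 2 / a ^ 2 ≤ 4 * b ^ 2 := div_le_self (by positivity) ha2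
    have g4 : 0 ≤ 2 * e / a := by positivity
    have g5 : 0 ≤ e ^ 2 / a ^ 2 := by positivity
    have g6 : 0 ≤ 4 * b ^ 2 / a ^ 2 := by positivity
    have g7 : 0 ≤ 4 * b ^ 2 := by positivity
    have g8 : 0 ≤ e ^ 2 := by positivity
    rw [abs_le, hu]
    constructor <;> linarith
  have h7 : u ^ 2 ≤ (2 * e + e ^ 2 + 4 * b ^ 2) ^ 2 := by
    rw [← sq_abs u]
    exact pow_le_pow_left₀ (abs_nonneg u) h6 2
  have h8 : |e ^ 2 / a ^ 2| ≤ e ^ 2 := by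
    rw [abs_of_nonneg (by positivity)]
    exact div_le_self (by positivity) (by nlinarith)
  have e3 : Real.log (a + 2 * b + e) + Real.log (a - 2 * b + e) - 2 * Real.log a - (2 * e / a - 4 * b ^ 2 / a ^ 2) =
      (Real.log (1 + u) - u) + e ^ 2 / a ^ 2 := by
    rw [e2', hu]
    ring
  rw [e3]
  refine (abs_add_le _ _).trans (add_le_add (h5.trans ?_) h8)
  exact mul_le_mul_of_nonneg_left h7 (by positivity)

theorem phi_taylor (m : ℕ) : ∃ C : ℝ, 0 ≤ C ∧ ∀ y v : Fin m → ℂ, ‖y‖ ≤ 7 → ‖v‖ ≤ 1 →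
    |Real.log (nw (y + v)) + Real.log (nw (y - v)) - 2 * Real.log (nw y) - PP y v| ≤ C * ‖v‖ ^ 3 := by
  refine ⟨(1 + m * 7 ^ 2) ^ 2 * (2 * m + 197 * m ^ 2) ^ 2 + m ^ 2, by positivity, ?_⟩
  intro y v hy hv
  obtain ⟨h1, h2⟩ := v7_nw_add y v
  have ha := one_le_nw y
  have ha' := nw_le y 7 hy
  have he := v7_e2_nonneg v
  have he' := e2_le v
  have hs1 := one_le_nw (y + v)
  have hs2 := one_le_nw (y - v)
  have hb : |(pw y v).re| ≤ 7 * m * ‖v‖ := by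
    refine (Complex.abs_re_le_norm _).trans ((norm_pw_le y v).trans ?_)
    have h3 : (m : ℝ) * ‖y‖ ≤ m * 7 := mul_le_mul_of_nonneg_left hy (by positivity)
    calc (m : ℝ) * ‖y‖ * ‖v‖ ≤ m * 7 * ‖v‖ := mul_le_mul_of_nonneg_right h3 (norm_nonneg _)
      _ = 7 * m * ‖v‖ := by ring
  rw [h1] at hs1
  rw [h2] at hs2
  rw [h1, h2]
  unfold PP
  set b := (pw y v).re with hbdef
  set e := e2 v with hedef
  set a := nw y with hadef
  have hcore := v7_core ha he hs1 hs2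
  refine hcore.trans ?_
  have hv0 := norm_nonneg v
  have hV1 : ‖v‖ ^ 2 ≤ 1 := pow_le_one₀ hv0 hv
  have hb2 : b ^ 2 ≤ 49 * m ^ 2 * ‖v‖ ^ 2 := by
    rw [← sq_abs b]
    calc |b| ^ 2 ≤ (7 * m * ‖v‖) ^ 2 := pow_le_pow_left₀ (abs_nonneg _) hb 2
      _ = 49 * m ^ 2 * ‖v‖ ^ 2 := by ring
  have he2 : e ^ 2 ≤ m ^ 2 * (‖v‖ ^ 2) ^ 2 := by
    calc e ^ 2 ≤ (m * ‖v‖ ^ 2) ^ 2 := pow_le_pow_left₀ he he' 2
      _ = m ^ 2 * (‖v‖ ^ 2) ^ 2 := by ring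
  have hm0 : (0 : ℝ) ≤ m ^ 2 := by positivity
  have hV2 : (‖v‖ ^ 2) ^ 2 ≤ ‖v‖ ^ 2 := by
    have : 0 ≤ ‖v‖ ^ 2 := by positivity
    nlinarith
  have hK : 2 * e + e ^ 2 + 4 * b ^ 2 ≤ (2 * m + 197 * m ^ 2) * ‖v‖ ^ 2 := by
    have h3 : e ^ 2 ≤ m ^ 2 * ‖v‖ ^ 2 := he2.trans (mul_le_mul_of_nonneg_left hV2 hm0)
    nlinarith
  have hK0 : 0 ≤ 2 * e + e ^ 2 + 4 * b ^ 2 := by positivity
  have hK2 : (2 * e + e ^ 2 + 4 * b ^ 2) ^ 2 ≤ (2 * m + 197 * m ^ 2) ^ 2 * (‖v‖ ^ 2) ^ 2 := by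
    calc (2 * e + e ^ 2 + 4 * b ^ 2) ^ 2 ≤ ((2 * m + 197 * m ^ 2) * ‖v‖ ^ 2) ^ 2 := pow_le_pow_left₀ hK0 hK 2
      _ = _ := by ring
  have ha2 : a ^ 2 ≤ (1 + m * 7 ^ 2) ^ 2 := pow_le_pow_left₀ (by linarith) ha' 2
  have hV3 : (‖v‖ ^ 2) ^ 2 ≤ ‖v‖ ^ 3 := by
    have h3 : ‖v‖ ^ 4 ≤ ‖v‖ ^ 3 := pow_le_pow_of_le_one hv0 hv (by norm_num)
    calc (‖v‖ ^ 2) ^ 2 = ‖v‖ ^ 4 := by ring
      _ ≤ _ := h3
  calc a ^ 2 * (2 * e + e ^ 2 + 4 * b ^ 2) ^ 2 + e ^ 2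
      ≤ (1 + m * 7 ^ 2) ^ 2 * ((2 * m + 197 * m ^ 2) ^ 2 * (‖v‖ ^ 2) ^ 2) + m ^ 2 * (‖v‖ ^ 2) ^ 2 :=
        add_le_add (mul_le_mul ha2 hK2 (by positivity) (by positivity)) he2
    _ = ((1 + m * 7 ^ 2) ^ 2 * (2 * m + 197 * m ^ 2) ^ 2 + m ^ 2) * (‖v‖ ^ 2) ^ 2 := by ring
    _ ≤ ((1 + m * 7 ^ 2) ^ 2 * (2 * m + 197 * m ^ 2) ^ 2 + m ^ 2) * ‖v‖ ^ 3 :=
        mul_le_mul_of_nonneg_left hV3 (by positivity)

theorem PP_lipschitz (m : ℕ) : ∃ C : ℝ, 0 ≤ C ∧ ∀ w y v : Fin m → ℂ, ‖w‖ ≤ 6 → ‖y - w‖ ≤ 1 →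
    |PP y v - PP w v| ≤ C * ‖v‖ ^ 2 * ‖y - w‖ := by
  refine ⟨26 * m ^ 2 + 56 * m * (m + 91 * m ^ 2), by positivity, ?_⟩
  intro w y v hw hyw
  have hy : ‖y‖ ≤ 7 := by
    have h1 := norm_add_le (y - w) w
    rw [sub_add_cancel] at h1
    linarith
  have hA := one_le_nw w
  have hB := one_le_nw y
  have he := v7_e2_nonneg v
  have he' := e2_le v
  have hm0 : (0 : ℝ) ≤ m := by positivity
  have hv0 := norm_nonneg v
  have hδ0 := norm_nonneg (y - w)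
  have hw0 : |(pw w v).re| ≤ 7 * m * ‖v‖ := by
    refine (Complex.abs_re_le_norm _).trans ((norm_pw_le w v).trans ?_)
    have h3 : (m : ℝ) * ‖w‖ ≤ m * 7 := mul_le_mul_of_nonneg_left (by linarith) hm0
    calc (m : ℝ) * ‖w‖ * ‖v‖ ≤ m * 7 * ‖v‖ := mul_le_mul_of_nonneg_right h3 hv0
      _ = 7 * m * ‖v‖ := by ring
  have hy0 : |(pw y v).re| ≤ 7 * m * ‖v‖ := by
    refine (Complex.abs_re_le_norm _).trans ((norm_pw_le y v).trans ?_)
    have h3 : (m : ℝ) * ‖y‖ ≤ m * 7 := mul_le_mul_of_nonneg_left hy hm0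
    calc (m : ℝ) * ‖y‖ * ‖v‖ ≤ m * 7 * ‖v‖ := mul_le_mul_of_nonneg_right h3 hv0
      _ = 7 * m * ‖v‖ := by ring
  have hd : |(pw y v).re - (pw w v).re| ≤ m * ‖y - w‖ * ‖v‖ := by
    have h1 : (pw y v).re - (pw w v).re = (pw (y - w) v).re := by
      rw [← Complex.sub_re]
      congr 1
      unfold pw
      rw [← Finset.sum_sub_distrib]
      refine Finset.sum_congr rfl fun i _ => ?_
      rw [Pi.sub_apply, map_sub]
      ring
    rw [h1]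
    exact (Complex.abs_re_le_norm _).trans (norm_pw_le _ _)
  have hnw : |nw y - nw w| ≤ 13 * m * ‖y - w‖ := by
    have h1 : nw y - nw w = ∑ i, (‖y i‖ ^ 2 - ‖w i‖ ^ 2) := by
      unfold nw
      rw [Finset.sum_sub_distrib]
      ring
    rw [h1]
    refine (Finset.abs_sum_le_sum_abs _ _).trans ?_
    have h2 : ∀ i ∈ (Finset.univ : Finset (Fin m)), |‖y i‖ ^ 2 - ‖w i‖ ^ 2| ≤ 13 * ‖y - w‖ := by
      intro i _
      have h3 : ‖y i‖ ^ 2 - ‖w i‖ ^ 2 = (‖y i‖ - ‖w i‖) * (‖y i‖ + ‖w i‖) := by ring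
      rw [h3, abs_mul]
      have h4 : |‖y i‖ - ‖w i‖| ≤ ‖y - w‖ := (abs_norm_sub_norm_le _ _).trans (norm_le_pi_norm (y - w) i)
      have h5 : |‖y i‖ + ‖w i‖| ≤ 13 := by
        rw [abs_of_nonneg (by positivity)]
        have h6 := norm_le_pi_norm y i
        have h7 := norm_le_pi_norm w i
        linarith
      calc |‖y i‖ - ‖w i‖| * |‖y i‖ + ‖w i‖| ≤ ‖y - w‖ * 13 := mul_le_mul h4 h5 (abs_nonneg _) hδ0
        _ = _ := by ring
    have h3 := Finset.sum_le_card_nsmul _ _ _ h2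
    rw [Finset.card_univ, Fintype.card_fin, nsmul_eq_mul] at h3
    linarith
  unfold PP
  set A := nw w with hAdef
  set B := nw y with hBdef
  set bw := (pw w v).re with hbw
  set by' := (pw y v).re with hby
  set e := e2 v with hedef
  set δ := ‖y - w‖ with hδ
  set r := ‖v‖ with hr
  have hA0 : 0 < A := by linarith
  have hB0 : 0 < B := by linarith
  have hinv : |1 / B - 1 / A| ≤ 13 * m * δ := by
    have h1 : 1 / B - 1 / A = -((B - A) / (A * B)) := by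
      field_simp
      ring
    rw [h1, abs_neg, abs_div, abs_of_pos (show 0 < A * B by positivity)]
    exact (div_le_self (abs_nonneg _) (by nlinarith)).trans hnw
  have hinvA : |1 / A| ≤ 1 := by
    rw [abs_of_pos (by positivity)]
    exact div_le_self (by norm_num) hA
  have hinvB : |1 / B| ≤ 1 := by
    rw [abs_of_pos (by positivity)]
    exact div_le_self (by norm_num) hB
  have hmr : 0 ≤ 7 * m * r := by positivity
  have h1 : |by' / B - bw / A| ≤ (m + 91 * m ^ 2) * δ * r := by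
    have h2 : by' / B - bw / A = (by' - bw) * (1 / B) + bw * (1 / B - 1 / A) := by
      field_simp
      ring
    rw [h2]
    refine (abs_add_le _ _).trans ?_
    rw [abs_mul, abs_mul]
    have g1 : |by' - bw| * |1 / B| ≤ (m * δ * r) * 1 := mul_le_mul hd hinvB (abs_nonneg _) (by positivity)
    have g2 : |bw| * |1 / B - 1 / A| ≤ (7 * m * r) * (13 * m * δ) := mul_le_mul hw0 hinv (abs_nonneg _) hmr
    calc |by' - bw| * |1 / B| + |bw| * |1 / B - 1 / A| ≤ (m * δ * r) * 1 + (7 * m * r) * (13 * m * δ) := add_le_add g1 g2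
      _ = _ := by ring
  have h2 : |by' / B + bw / A| ≤ 14 * m * r := by
    have h3 : by' / B + bw / A = by' * (1 / B) + bw * (1 / A) := by ring
    rw [h3]
    refine (abs_add_le _ _).trans ?_
    rw [abs_mul, abs_mul]
    have g1 : |by'| * |1 / B| ≤ (7 * m * r) * 1 := mul_le_mul hy0 hinvB (abs_nonneg _) hmr
    have g2 : |bw| * |1 / A| ≤ (7 * m * r) * 1 := mul_le_mul hw0 hinvA (abs_nonneg _) hmr
    linarith
  have h3 : 2 * e / B - 4 * by' ^ 2 / B ^ 2 - (2 * e / A - 4 * bw ^ 2 / A ^ 2) =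
      2 * e * (1 / B - 1 / A) - 4 * ((by' / B - bw / A) * (by' / B + bw / A)) := by
    field_simp
    ring
  rw [h3]
  refine (abs_sub _ _).trans ?_
  rw [abs_mul (2 * e), abs_mul 4, abs_mul (by' / B - bw / A), abs_of_nonneg (show (0 : ℝ) ≤ 2 * e by positivity),
    abs_of_pos (show (0 : ℝ) < 4 by norm_num)]
  have g1 : 2 * e * |1 / B - 1 / A| ≤ (2 * (m * r ^ 2)) * (13 * m * δ) :=
    mul_le_mul (by linarith) hinv (abs_nonneg _) (by positivity)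
  have g2 : |by' / B - bw / A| * |by' / B + bw / A| ≤ ((m + 91 * m ^ 2) * δ * r) * (14 * m * r) :=
    mul_le_mul h1 h2 (abs_nonneg _) (by positivity)
  calc 2 * e * |1 / B - 1 / A| + 4 * (|by' / B - bw / A| * |by' / B + bw / A|)
      ≤ (2 * (m * r ^ 2)) * (13 * m * δ) + 4 * (((m + 91 * m ^ 2) * δ * r) * (14 * m * r)) := by linarith
    _ = _ := by ring

theorem phi_second_diff (m : ℕ) : ∃ C : ℝ, 0 ≤ C ∧ ∀ w y v : Fin m → ℂ, ‖w‖ ≤ 6 → ‖y - w‖ ≤ 1 →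
    ‖v‖ ≤ 1 →
    |Real.log (nw (y + v)) + Real.log (nw (y - v)) - 2 * Real.log (nw y) - PP w v| ≤
      C * ‖v‖ ^ 2 * (‖v‖ + ‖y - w‖) := by
  obtain ⟨C₁, hC₁, h1⟩ := phi_taylor m
  obtain ⟨C₂, hC₂, h2⟩ := PP_lipschitz m
  refine ⟨C₁ + C₂, by positivity, ?_⟩
  intro w y v hw hyw hv
  have hy : ‖y‖ ≤ 7 := by
    have h3 := norm_add_le (y - w) w
    rw [sub_add_cancel] at h3
    linarith
  have h3 := h1 y v hy hv
  have h4 := h2 w y v hw hyw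
  have e1 : Real.log (nw (y + v)) + Real.log (nw (y - v)) - 2 * Real.log (nw y) - PP w v =
      (Real.log (nw (y + v)) + Real.log (nw (y - v)) - 2 * Real.log (nw y) - PP y v) + (PP y v - PP w v) := by ring
  rw [e1]
  refine (abs_add_le _ _).trans ((add_le_add h3 h4).trans ?_)
  have g1 : 0 ≤ C₂ * ‖v‖ ^ 2 * ‖v‖ := by positivity
  have g2 : 0 ≤ C₁ * ‖v‖ ^ 2 * ‖y - w‖ := by positivity
  nlinarith

end PCV
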