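import Pool.Agent.PCV.Defs

/-!
# [PCV-V8] a real subspace of dimension `m` on which a form with positive Levi part is positive

Work in `E = EuclideanSpace ℂ (Fin m)` as a real inner product space of dimension `2m` (or
`EuclideanSpace ℝ (Fin m × Fin 2)`): `e2 v` is the square of its norm.  The symmetric part of `β`,
`S v v' = (β v v' + β v' v)/2`, is represented by a self-adjoint real linear map `T` (`⟪T v, v'⟫ = S v v'`), which has
an orthonormal basis of eigenvectors `b_1..b_{2m}` with eigenvalues `λ_i` (`LinearMap.IsSymmetric.eigenvectorBasis`).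
Let `V₊`, `V₋` be the real spans of the `b_i` with `λ_i ≥ c`, resp. `λ_i < c`.  For `0 ≠ v ∈ V₋`, `β v v < c e2 v`.
If `0 ≠ v ∈ V₋ ∩ i V₋`, then `I • v ∈ V₋` too (`v = I u`, `I v = -u`) and
`β v v + β (I v) (I v) < 2 c e2 v`, contradiction with `h`.  So `V₋ ∩ i V₋ = 0` and `2 dim V₋ ≤ 2m`, i.e. at least `m`
of the `λ_i` are `≥ c`.  Take for `e` any `m` of the corresponding `b_i`: for real `x`,
`β (∑ x_i e_i) (∑ x_i e_i) = ∑ λ_i x_i² ≥ c ∑ x_i²` and `e2 (∑ x_i e_i) = ∑ x_i²`.
-/

open MeasureTheory Set Filter Topology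

namespace PCV

/-- the symmetric part as a linear map into the dual -/
noncomputable def v8_S {m : ℕ} (β : (Fin m → ℂ) →ₗ[ℝ] (Fin m → ℂ) →ₗ[ℝ] ℝ) :
    EuclideanSpace ℂ (Fin m) →ₗ[ℝ] EuclideanSpace ℂ (Fin m) →ₗ[ℝ] ℝ :=
  LinearMap.mk₂ ℝ (fun v w => (β v.ofLp w.ofLp + β w.ofLp v.ofLp) / 2)
    (by
      intro a b c
      simp only [WithLp.ofLp_add, map_add, LinearMap.add_apply]
      ring)
    (by
      intro t a b
      simp only [WithLp.ofLp_smul, map_smul, LinearMap.smul_apply, smul_eq_mul]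
      ring)
    (by
      intro a b c
      simp only [WithLp.ofLp_add, map_add, LinearMap.add_apply]
      ring)
    (by
      intro t a b
      simp only [WithLp.ofLp_smul, map_smul, LinearMap.smul_apply, smul_eq_mul]
      ring)

theorem v8_S_apply {m : ℕ} (β : (Fin m → ℂ) →ₗ[ℝ] (Fin m → ℂ) →ₗ[ℝ] ℝ) (v w : EuclideanSpace ℂ (Fin m)) :
    v8_S β v w = (β v.ofLp w.ofLp + β w.ofLp v.ofLp) / 2 := rfl

/-- the operator of a bilinear form -/
noncomputable def v8_T {E : Type*} [NormedAddCommGroup E] [InnerProductSpace ℝ E] [FiniteDimensional ℝ E]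
    (S : E →ₗ[ℝ] E →ₗ[ℝ] ℝ) : E →ₗ[ℝ] E where
  toFun v := (InnerProductSpace.toDual ℝ E).symm (LinearMap.toContinuousLinearMap (S v))
  map_add' v w := by
    rw [map_add, map_add, map_add]
  map_smul' t v := by
    rw [map_smul, map_smul, LinearIsometryEquiv.map_smulₛₗ]
    rfl

theorem v8_T_inner {E : Type*} [NormedAddCommGroup E] [InnerProductSpace ℝ E] [FiniteDimensional ℝ E]
    (S : E →ₗ[ℝ] E →ₗ[ℝ] ℝ) (v w : E) : inner ℝ (v8_T S v) w = S v w := by
  show inner ℝ ((InnerProductSpace.toDual ℝ E).symm (LinearMap.toContinuousLinearMap (S v))) w = S v w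
  rw [InnerProductSpace.toDual_symm_apply]
  rfl

/-- diagonalization of a symmetric bilinear form -/
theorem v8_diag {E : Type*} [NormedAddCommGroup E] [InnerProductSpace ℝ E] [FiniteDimensional ℝ E]
    (S : E →ₗ[ℝ] E →ₗ[ℝ] ℝ) (hS : ∀ v w, S v w = S w v) {n : ℕ} (hn : Module.finrank ℝ E = n) :
    ∃ (b : OrthonormalBasis (Fin n) ℝ E) (lam : Fin n → ℝ), ∀ i v, S (b i) v = lam i * inner ℝ (b i) v := by
  have hT : (v8_T S).IsSymmetric := by
    intro v w
    rw [v8_T_inner, real_inner_comm, v8_T_inner]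
    exact hS v w
  refine ⟨hT.eigenvectorBasis hn, hT.eigenvalues hn, fun i v => ?_⟩
  rw [← v8_T_inner, hT.apply_eigenvectorBasis hn i]
  exact real_inner_smul_left _ _ _

theorem v8_sum {E : Type*} [NormedAddCommGroup E] [InnerProductSpace ℝ E] {n : ℕ}
    (S : E →ₗ[ℝ] E →ₗ[ℝ] ℝ) (b : OrthonormalBasis (Fin n) ℝ E) (lam : Fin n → ℝ)
    (h : ∀ i v, S (b i) v = lam i * inner ℝ (b i) v) (v : E) :
    S v v = ∑ i, lam i * inner ℝ (b i) v ^ 2 ∧ ‖v‖ ^ 2 = ∑ i, (inner ℝ (b i) v : ℝ) ^ 2 := by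
  constructor
  · have h1 : S v v = S (∑ i, (inner ℝ (b i) v : ℝ) • b i) v := by
      rw [b.sum_repr' v]
    rw [h1, map_sum, LinearMap.sum_apply]
    refine Finset.sum_congr rfl fun i _ => ?_
    rw [map_smul, LinearMap.smul_apply, h, smul_eq_mul]
    ring
  · rw [← real_inner_self_eq_norm_sq, ← b.sum_inner_mul_inner v v]
    refine Finset.sum_congr rfl fun i _ => ?_
    rw [real_inner_comm, sq]

theorem exists_frame (m : ℕ) (β : (Fin m → ℂ) →ₗ[ℝ] (Fin m → ℂ) →ₗ[ℝ] ℝ) (c : ℝ)
    (h : ∀ v, 2 * c * e2 v ≤ β v v + β (Complex.I • v) (Complex.I • v)) :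
    ∃ e : Fin m → (Fin m → ℂ), ∀ x : Fin m → ℝ, e2 (∑ i, (x i : ℂ) • e i) = ∑ i, x i ^ 2 ∧
      c * ∑ i, x i ^ 2 ≤ β (∑ i, (x i : ℂ) • e i) (∑ i, (x i : ℂ) • e i) := by
  classical
  set E := EuclideanSpace ℂ (Fin m) with hE
  have hn : Module.finrank ℝ E = 2 * m := by
    rw [finrank_real_of_complex, finrank_euclideanSpace_fin]
  have hnorm : ∀ v : E, ‖v‖ ^ 2 = e2 v.ofLp := fun v => EuclideanSpace.norm_sq_eq v
  obtain ⟨b, lam, hb⟩ := v8_diag (v8_S β) (fun v w => by rw [v8_S_apply, v8_S_apply, add_comm]) hn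
  have hSS : ∀ v : E, v8_S β v v = β v.ofLp v.ofLp := by
    intro v
    rw [v8_S_apply]
    ring
  -- at least `m` of the eigenvalues are `≥ c`
  have hcard : m ≤ Fintype.card {i : Fin (2 * m) // c ≤ lam i} := by
    by_contra hlt
    push Not at hlt
    let P := {i : Fin (2 * m) // c ≤ lam i}
    let L : E →ₗ[ℝ] (P → ℝ) × (P → ℝ) :=
      { toFun := fun v => (fun i => inner ℝ (b i.1) v, fun i => inner ℝ (b i.1) (Complex.I • v))
        map_add' := by
          intro v w
          ext i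
          · exact inner_add_right _ _ _
          · show inner ℝ (b i.1) (Complex.I • (v + w)) = inner ℝ (b i.1) (Complex.I • v) + inner ℝ (b i.1) (Complex.I • w)
            rw [smul_add]
            exact inner_add_right _ _ _
        map_smul' := by
          intro t v
          ext i
          · exact real_inner_smul_right _ _ _
          · show inner ℝ (b i.1) (Complex.I • (t • v)) = t * inner ℝ (b i.1) (Complex.I • v)
            rw [smul_comm]
            exact real_inner_smul_right _ _ _ }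
    have hker : LinearMap.ker L ≠ ⊥ := by
      apply LinearMap.ker_ne_bot_of_finrank_lt
      rw [Module.finrank_prod, Module.finrank_fintype_fun_eq_card, hn]
      have e9 : Fintype.card P = Fintype.card {i : Fin (2 * m) // c ≤ lam i} := Fintype.card_congr (Equiv.refl _)
      omega
    obtain ⟨v, hv, hv0⟩ := (Submodule.ne_bot_iff _).1 hker
    rw [LinearMap.mem_ker] at hv
    have h1 : ∀ i : Fin (2 * m), c ≤ lam i → inner ℝ (b i) v = (0 : ℝ) := fun i hi =>
      congrFun (congrArg Prod.fst hv) (⟨i, hi⟩ : P)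
    have h2 : ∀ i : Fin (2 * m), c ≤ lam i → inner ℝ (b i) (Complex.I • v) = (0 : ℝ) := fun i hi =>
      congrFun (congrArg Prod.snd hv) (⟨i, hi⟩ : P)
    have hneg : ∀ u : E, u ≠ 0 → (∀ i : Fin (2 * m), c ≤ lam i → inner ℝ (b i) u = (0 : ℝ)) →
        β u.ofLp u.ofLp < c * ‖u‖ ^ 2 := by
      intro u hu hu1
      obtain ⟨e1, e2'⟩ := v8_sum (v8_S β) b lam hb u
      rw [← hSS, e1, e2', Finset.mul_sum]
      have hle : ∀ i ∈ (Finset.univ : Finset (Fin (2 * m))), lam i * inner ℝ (b i) u ^ 2 ≤ c * inner ℝ (b i) u ^ 2 := by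
        intro i _
        by_cases hi : c ≤ lam i
        · rw [hu1 i hi]
          simp
        · exact mul_le_mul_of_nonneg_right (le_of_lt (not_le.1 hi)) (sq_nonneg _)
      obtain ⟨i, hi⟩ : ∃ i, (inner ℝ (b i) u : ℝ) ≠ 0 := by
        by_contra hcon
        push Not at hcon
        apply hu
        have h3 : ‖u‖ ^ 2 = 0 := by
          rw [e2']
          exact Finset.sum_eq_zero fun i _ => by rw [hcon i]; norm_num
        exact norm_eq_zero.1 (pow_eq_zero_iff (two_ne_zero) |>.1 h3)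
      refine Finset.sum_lt_sum hle ⟨i, Finset.mem_univ _, ?_⟩
      have hlam : lam i < c := by
        by_contra hcon
        exact hi (hu1 i (not_lt.1 hcon))
      exact mul_lt_mul_of_pos_right hlam (by positivity)
    have hIv0 : Complex.I • v ≠ 0 := by
      rw [Ne, smul_eq_zero]
      rintro (h3 | h3)
      · exact Complex.I_ne_zero h3
      · exact hv0 h3
    have h3 := hneg v hv0 h1
    have h4 := hneg (Complex.I • v) hIv0 h2
    have h5 : ‖Complex.I • v‖ = ‖v‖ := by
      rw [norm_smul, Complex.norm_I, one_mul]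
    rw [h5] at h4
    have h6 := h v.ofLp
    have h7 : (Complex.I • v).ofLp = Complex.I • v.ofLp := rfl
    rw [h7] at h4
    rw [← hnorm] at h6
    linarith
  have hemb : Nonempty (Fin m ↪ {i : Fin (2 * m) // c ≤ lam i}) :=
    Function.Embedding.nonempty_of_card_le (by rw [Fintype.card_fin]; exact hcard)
  obtain ⟨φ⟩ := hemb
  refine ⟨fun i => (b (φ i).1).ofLp, fun x => ?_⟩
  set w : E := ∑ i, x i • b (φ i).1 with hw
  have hwL : ∑ i, (x i : ℂ) • (b (φ i).1).ofLp = w.ofLp := by
    rw [hw, WithLp.ofLp_sum]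
    refine Finset.sum_congr rfl fun i _ => ?_
    rw [WithLp.ofLp_smul]
    funext j
    simp
  have hinj : Function.Injective fun i => (φ i).1 := fun i j hij => φ.injective (Subtype.ext hij)
  have hin : ∀ i, inner ℝ (b (φ i).1) w = x i := by
    intro i
    rw [hw, inner_sum]
    simp only [real_inner_smul_right]
    rw [Finset.sum_eq_single i]
    · rw [b.inner_eq_one, mul_one]
    · intro j _ hj
      rw [b.inner_eq_zero (fun h1 => hj (hinj h1.symm)), mul_zero]
    · intro h1
      exact absurd (Finset.mem_univ i) h1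
  have hww : ‖w‖ ^ 2 = ∑ i, x i ^ 2 := by
    rw [← real_inner_self_eq_norm_sq]
    have h1 : inner ℝ w w = inner ℝ (∑ i, x i • b (φ i).1) w := by rw [← hw]
    rw [h1, sum_inner]
    refine Finset.sum_congr rfl fun i _ => ?_
    rw [real_inner_smul_left, hin]
    ring
  have hβ : β w.ofLp w.ofLp = ∑ i, lam (φ i).1 * x i ^ 2 := by
    rw [← hSS]
    have h1 : v8_S β w w = v8_S β (∑ i, x i • b (φ i).1) w := by rw [← hw]
    rw [h1, map_sum (v8_S β), LinearMap.sum_apply]
    refine Finset.sum_congr rfl fun i _ => ?_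
    rw [map_smul (v8_S β), LinearMap.smul_apply, hb, hin, smul_eq_mul]
    ring
  constructor
  · rw [hwL, ← hnorm, hww]
  · rw [hwL, hβ, Finset.mul_sum]
    exact Finset.sum_le_sum fun i _ => mul_le_mul_of_nonneg_right (φ i).2 (sq_nonneg _)

end PCV
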