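import Pool.Agent.PCV.V4
import Pool.Agent.PCV.V6
import Pool.Agent.PCV.V7
import Pool.Agent.PCV.V8

/-!
# [PCV-V9] the function `NN κ q` is strongly convex in `m` real directions

Uses `exists_log`, `second_diff`, `phi_second_diff`, `PP_levi`, `exists_frame`.
-/

open MeasureTheory Set Filter Topology

namespace PCV

theorem v9_e2_smul {m : ℕ} (R : ℝ) (v : Fin m → ℂ) : e2 ((R : ℂ) • v) = R ^ 2 * e2 v := by
  unfold e2
  rw [Finset.mul_sum]
  refine Finset.sum_congr rfl fun i _ => ?_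
  rw [Pi.smul_apply, smul_eq_mul, norm_mul, Complex.norm_real, mul_pow, Real.norm_eq_abs, sq_abs]

theorem v9_e2_nonneg {m : ℕ} (v : Fin m → ℂ) : 0 ≤ e2 v :=
  Finset.sum_nonneg fun _ _ => by positivity

theorem v9_pw_smul {m : ℕ} (w : Fin m → ℂ) (a : ℂ) (v : Fin m → ℂ) :
    pw w (a • v) = a * pw w v := by
  unfold pw
  rw [Finset.mul_sum]
  refine Finset.sum_congr rfl fun i _ => ?_
  rw [Pi.smul_apply, smul_eq_mul, mul_assoc]

theorem v9_pw_add {m : ℕ} (w v v' : Fin m → ℂ) : pw w (v + v') = pw w v + pw w v' := by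
  unfold pw
  rw [← Finset.sum_add_distrib]
  refine Finset.sum_congr rfl fun i _ => ?_
  rw [Pi.add_apply, add_mul]

theorem v9_PP_smul {m : ℕ} (w v : Fin m → ℂ) (R : ℝ) : PP w ((R : ℂ) • v) = R ^ 2 * PP w v := by
  unfold PP
  rw [v9_e2_smul, v9_pw_smul, Complex.re_ofReal_mul]
  ring

theorem v9_PP_le {m : ℕ} (w v : Fin m → ℂ) : PP w v ≤ 2 * e2 v := by
  unfold PP
  have h1 := one_le_nw w
  have h2 : 2 * e2 v / nw w ≤ 2 * e2 v :=
    div_le_self (mul_nonneg zero_le_two (v9_e2_nonneg v)) h1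
  have h3 : 0 ≤ 4 * (pw w v).re ^ 2 / nw w ^ 2 := by positivity
  linarith

/-- the real bilinear form -/
noncomputable def v9_ip {m : ℕ} (v v' : Fin m → ℂ) : ℝ := (∑ i, v i * (starRingEnd ℂ) (v' i)).re

theorem v9_ip_self {m : ℕ} (v : Fin m → ℂ) : v9_ip v v = e2 v := by
  unfold v9_ip e2
  rw [Complex.re_sum]
  refine Finset.sum_congr rfl fun i _ => ?_
  rw [Complex.mul_conj, Complex.ofReal_re, Complex.normSq_eq_norm_sq]

theorem v9_bil {m : ℕ} (w : Fin m → ℂ) (t : ℝ) (β : (Fin m → ℂ) →ₗ[ℂ] (Fin m → ℂ) →ₗ[ℂ] ℂ) :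
    ∃ βR : (Fin m → ℂ) →ₗ[ℝ] (Fin m → ℂ) →ₗ[ℝ] ℝ, ∀ v,
      βR v v = t * PP w v - 2 * (β v v).re := by
  refine ⟨LinearMap.mk₂ ℝ (fun v v' => t * (2 * v9_ip v v' / nw w -
    4 * ((pw w v).re * (pw w v').re) / nw w ^ 2) - 2 * (β v v').re) ?_ ?_ ?_ ?_, ?_⟩
  · intro v₁ v₂ v'
    have h1 : v9_ip (v₁ + v₂) v' = v9_ip v₁ v' + v9_ip v₂ v' := by
      unfold v9_ip
      rw [← Complex.add_re, ← Finset.sum_add_distrib]
      congr 1
      exact Finset.sum_congr rfl fun i _ => by rw [Pi.add_apply, add_mul]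
    rw [h1, v9_pw_add, map_add, LinearMap.add_apply, Complex.add_re, Complex.add_re]
    ring
  · intro a v v'
    have h0 : a • v = (a : ℂ) • v := by
      funext i
      simp
    have h1 : v9_ip ((a : ℂ) • v) v' = a * v9_ip v v' := by
      unfold v9_ip
      rw [← Complex.re_ofReal_mul, Finset.mul_sum]
      congr 1
      exact Finset.sum_congr rfl fun i _ => by rw [Pi.smul_apply, smul_eq_mul, mul_assoc]
    rw [h0, h1, v9_pw_smul, map_smul, LinearMap.smul_apply, Complex.re_ofReal_mul, smul_eq_mul,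
      Complex.re_ofReal_mul, smul_eq_mul]
    ring
  · intro v v₁ v₂
    have h1 : v9_ip v (v₁ + v₂) = v9_ip v v₁ + v9_ip v v₂ := by
      unfold v9_ip
      rw [← Complex.add_re, ← Finset.sum_add_distrib]
      congr 1
      exact Finset.sum_congr rfl fun i _ => by rw [Pi.add_apply, map_add, mul_add]
    rw [h1, v9_pw_add, map_add, Complex.add_re, Complex.add_re]
    ring
  · intro a v v'
    have h0 : a • v' = (a : ℂ) • v' := by
      funext i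
      simp
    have h1 : v9_ip v ((a : ℂ) • v') = a * v9_ip v v' := by
      unfold v9_ip
      rw [← Complex.re_ofReal_mul, Finset.mul_sum]
      congr 1
      refine Finset.sum_congr rfl fun i _ => ?_
      rw [Pi.smul_apply, smul_eq_mul, map_mul, Complex.conj_ofReal]
      ring
    rw [h0, h1, v9_pw_smul, map_smul, Complex.re_ofReal_mul, smul_eq_mul,
      Complex.re_ofReal_mul, smul_eq_mul]
    ring
  · intro v
    rw [LinearMap.mk₂_apply, v9_ip_self]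
    unfold PP
    ring

theorem v9_dd {m : ℕ} {η₀ R c₀ : ℝ} {κ : ℕ} {w₁ : Fin m → ℂ} {q g : (Fin m → ℂ) → ℂ}
    {u : (Fin m → ℂ) →ₗ[ℝ] ℝ}
    (hg : ∀ x ∈ Metric.ball (0 : Fin m → ℂ) η₀,
      Real.log ‖q (w₁ + (R : ℂ) • x)‖ = (g x).re + u x + c₀)
    (y v : Fin m → ℂ) (hy : ‖y‖ ≤ η₀ / 4) (hv : ‖v‖ ≤ η₀ / 4) (hη : 0 < η₀) :
    dd (NN κ q) (w₁ + (R : ℂ) • y) ((R : ℂ) • v) =
      κ * (Real.log (nw ((w₁ + (R : ℂ) • y) + (R : ℂ) • v)) +
        Real.log (nw ((w₁ + (R : ℂ) • y) - (R : ℂ) • v)) -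
        2 * Real.log (nw (w₁ + (R : ℂ) • y))) - 2 * (g (y + v) + g (y - v) - 2 * g y).re := by
  have h1 : (w₁ + (R : ℂ) • y) + (R : ℂ) • v = w₁ + (R : ℂ) • (y + v) := by
    rw [smul_add, add_assoc]
  have h2 : (w₁ + (R : ℂ) • y) - (R : ℂ) • v = w₁ + (R : ℂ) • (y - v) := by
    rw [smul_sub]
    abel
  have h3 : y + v ∈ Metric.ball (0 : Fin m → ℂ) η₀ := by
    rw [mem_ball_zero_iff]
    have := norm_add_le y v
    linarith
  have h4 : y - v ∈ Metric.ball (0 : Fin m → ℂ) η₀ := by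
    rw [mem_ball_zero_iff]
    have := norm_sub_le y v
    linarith
  have h5 : y ∈ Metric.ball (0 : Fin m → ℂ) η₀ := by
    rw [mem_ball_zero_iff]
    linarith
  unfold dd NN
  rw [h1, h2, hg _ h3, hg _ h4, hg _ h5, map_add, map_sub]
  simp only [Complex.sub_re, Complex.add_re, Complex.mul_re, Complex.re_ofNat, Complex.im_ofNat,
    zero_mul, sub_zero]
  ring

theorem hess (m D : ℕ) (hm : 1 ≤ m) :
    ∃ η γ Γ : ℝ, 0 < η ∧ η ≤ 1 / 8 ∧ 0 < γ ∧ 0 < Γ ∧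
      ∀ (R : ℝ) (κ : ℕ) (w₁ : Fin m → ℂ) (q : (Fin m → ℂ) → ℂ), 0 < R → R ≤ 1 → 1 ≤ κ * R ^ 2 →
      κ * R ^ 2 ≤ 2 * D → ‖w₁‖ ≤ 4 → AnalyticOnNhd ℂ q (Metric.closedBall w₁ R) →
      (∀ w, ‖w - w₁‖ ≤ R → ‖q w‖ ≤ 2 * Real.sqrt (nw w) ^ κ) →
      1 / 2 * Real.sqrt (nw w₁) ^ κ ≤ ‖q w₁‖ →
      (∀ w, ‖w - w₁‖ ≤ 4 * η * R → q w ≠ 0) ∧
      ∃ e : Fin m → (Fin m → ℂ), (∀ x : Fin m → ℝ, e2 (∑ i, (x i : ℂ) • e i) = ∑ i, x i ^ 2) ∧
        ∀ y v, ‖y - w₁‖ ≤ 2 * η * R → ‖v‖ ≤ 2 * η * R → dd (NN κ q) y v ≤ Γ * κ * e2 v ∧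
          ∀ x : Fin m → ℝ, v = ∑ i, (x i : ℂ) • e i → γ * κ * e2 v ≤ dd (NN κ q) y v := by
  obtain ⟨η₀, hη0, hη8, hlog⟩ := exists_log m D hm
  obtain ⟨C₆, hC₆, hsd⟩ := second_diff m
  obtain ⟨C₇, hC₇, hphi⟩ := phi_second_diff m
  set c₁ : ℝ := 2 / (1 + 16 * m) ^ 2 with hc₁
  have hc₁0 : 0 < c₁ := by positivity
  set C₈ : ℝ := 2 * D * C₇ + 4 * C₆ / η₀ ^ 3 with hC₈
  have hC₈0 : 0 ≤ C₈ := by positivity
  set η : ℝ := min (η₀ / 8) (c₁ / (8 * (C₈ + 1))) with hη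
  have hη1 : η ≤ η₀ / 8 := min_le_left _ _
  have hη2 : η ≤ c₁ / (8 * (C₈ + 1)) := min_le_right _ _
  have hηpos : 0 < η := lt_min (by positivity) (by positivity)
  have hηC : C₈ * (4 * η) ≤ c₁ / 2 := by
    rw [le_div_iff₀ (by positivity)] at hη2
    nlinarith
  refine ⟨η, c₁ / (4 * D + 4), 4 * D + 4 * C₆ / η₀ ^ 2 + C₈ + 1, hηpos, by linarith,
    by positivity, by positivity, ?_⟩
  intro R κ w₁ q hR hR1 hκ1 hκ2 hw₁ hq hqb hql
  obtain ⟨g, u, c₀, hga, hgb, hgq⟩ := hlog R κ w₁ q hR hR1 hκ2 hw₁ hq hqb hql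
  obtain ⟨β, hβ1, hβ2⟩ := hsd η₀ 2 g hη0 zero_le_two hga hgb
  have hRC : (R : ℂ) ≠ 0 := by exact_mod_cast hR.ne'
  have hscale : ∀ w : Fin m → ℂ, (R : ℂ) • ((R : ℂ)⁻¹ • w) = w := fun w => by
    rw [smul_smul, mul_inv_cancel₀ hRC, one_smul]
  have hnscale : ∀ w : Fin m → ℂ, ∀ a : ℝ, ‖w‖ ≤ a * R → ‖(R : ℂ)⁻¹ • w‖ ≤ a := by
    intro w a h
    rw [norm_smul, norm_inv, Complex.norm_real, Real.norm_eq_abs, abs_of_pos hR,
      inv_mul_le_iff₀ hR]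
    linarith
  constructor
  · intro w hw
    have h1 := hnscale (w - w₁) (4 * η) hw
    have h2 : (R : ℂ)⁻¹ • (w - w₁) ∈ Metric.ball (0 : Fin m → ℂ) η₀ := by
      rw [mem_ball_zero_iff]
      linarith
    have h3 := (hgq _ h2).1
    rw [hscale, add_sub_cancel] at h3
    exact h3
  · obtain ⟨βR, hβR⟩ := v9_bil w₁ (κ * R ^ 2) β
    have hA1 := one_le_nw w₁
    have hA2 : nw w₁ ≤ 1 + 16 * m := by
      have h := nw_le w₁ 4 hw₁
      linarith
    have hlevi : ∀ v, 2 * c₁ * e2 v ≤ βR v v + βR (Complex.I • v) (Complex.I • v) := by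
      intro v
      have h1 : β (Complex.I • v) (Complex.I • v) = -β v v := by
        rw [map_smul, map_smul, LinearMap.smul_apply, smul_smul, Complex.I_mul_I, neg_smul,
          one_smul]
      have h2 := PP_levi w₁ v
      have h3 : 4 * e2 v / (1 + 16 * m) ^ 2 ≤ 4 * e2 v / nw w₁ ^ 2 := by
        apply div_le_div_of_nonneg_left (mul_nonneg (by norm_num) (v9_e2_nonneg v)) (by positivity)
        exact pow_le_pow_left₀ (by linarith) hA2 2
      have h4 : 2 * c₁ * e2 v = 4 * e2 v / (1 + 16 * m) ^ 2 := by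
        rw [hc₁]
        ring
      rw [hβR, hβR, h1, Complex.neg_re, h4]
      have h5 : 0 ≤ PP w₁ v + PP w₁ (Complex.I • v) :=
        le_trans (by have := v9_e2_nonneg v; positivity) h2
      have h6 : PP w₁ v + PP w₁ (Complex.I • v) ≤
          κ * R ^ 2 * (PP w₁ v + PP w₁ (Complex.I • v)) := le_mul_of_one_le_left h5 hκ1
      linarith
    obtain ⟨e, he⟩ := exists_frame m βR c₁ hlevi
    refine ⟨e, fun x => (he x).1, ?_⟩
    intro y' v' hy' hv'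
    set y : Fin m → ℂ := (R : ℂ)⁻¹ • (y' - w₁) with hy
    set v : Fin m → ℂ := (R : ℂ)⁻¹ • v' with hv
    have hyn : ‖y‖ ≤ 2 * η := hnscale _ _ hy'
    have hvn : ‖v‖ ≤ 2 * η := hnscale _ _ hv'
    have hyy : y' = w₁ + (R : ℂ) • y := by
      rw [hy, hscale, add_sub_cancel]
    have hvv : v' = (R : ℂ) • v := by rw [hv, hscale]
    have hy4 : ‖y‖ ≤ η₀ / 4 := by linarith
    have hv4 : ‖v‖ ≤ η₀ / 4 := by linarith
    have hdd := v9_dd (κ := κ) (fun x hx => (hgq x hx).2) y v hy4 hv4 hη0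
    rw [← hyy, ← hvv] at hdd
    have hβ2' := hβ2 y v hy4 hv4
    have hRy : ‖(R : ℂ) • y‖ ≤ ‖y‖ := by
      rw [norm_smul, Complex.norm_real, Real.norm_eq_abs, abs_of_pos hR]
      exact mul_le_of_le_one_left (norm_nonneg _) hR1
    have hRv : ‖(R : ℂ) • v‖ = R * ‖v‖ := by
      rw [norm_smul, Complex.norm_real, Real.norm_eq_abs, abs_of_pos hR]
    have hRv1 : ‖(R : ℂ) • v‖ ≤ ‖v‖ := by
      rw [hRv]
      exact mul_le_of_le_one_left (norm_nonneg _) hR1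
    have hyw : ‖y' - w₁‖ ≤ ‖y‖ := by
      rw [hyy, add_sub_cancel_left]
      exact hRy
    have hphi' := hphi w₁ y' v' (by linarith) (by linarith) (by rw [hvv]; linarith)
    rw [hvv, v9_PP_smul, hRv, ← hvv] at hphi'
    set Lg : ℝ := Real.log (nw (y' + v')) + Real.log (nw (y' - v')) - 2 * Real.log (nw y') with hLg
    set Gg : ℂ := g (y + v) + g (y - v) - 2 * g y with hGg
    have hnv := norm_nonneg v
    have hny := norm_nonneg y
    have he2 := norm_sq_le_e2 v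
    have he20 := v9_e2_nonneg v
    -- the error term
    have hE1 : κ * |Lg - R ^ 2 * PP w₁ v| ≤ 2 * D * C₇ * (‖v‖ ^ 2 * (‖v‖ + ‖y‖)) := by
      have h1 : |Lg - R ^ 2 * PP w₁ v| ≤ C₇ * (R * ‖v‖) ^ 2 * (‖v‖ + ‖y‖) := by
        refine hphi'.trans ?_
        have h2 : R * ‖v‖ + ‖y' - w₁‖ ≤ ‖v‖ + ‖y‖ := by
          have h3 : R * ‖v‖ ≤ ‖v‖ := mul_le_of_le_one_left hnv hR1
          linarith
        exact mul_le_mul_of_nonneg_left h2 (by positivity)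
      calc κ * |Lg - R ^ 2 * PP w₁ v| ≤ κ * (C₇ * (R * ‖v‖) ^ 2 * (‖v‖ + ‖y‖)) :=
            mul_le_mul_of_nonneg_left h1 (Nat.cast_nonneg κ)
        _ = (κ * R ^ 2) * (C₇ * (‖v‖ ^ 2 * (‖v‖ + ‖y‖))) := by ring
        _ ≤ (2 * D) * (C₇ * (‖v‖ ^ 2 * (‖v‖ + ‖y‖))) :=
            mul_le_mul_of_nonneg_right hκ2 (by positivity)
        _ = 2 * D * C₇ * (‖v‖ ^ 2 * (‖v‖ + ‖y‖)) := by ring
    have hE2 : |Gg.re - (β v v).re| ≤ C₆ * 2 / η₀ ^ 3 * (‖v‖ ^ 2 * (‖v‖ + ‖y‖)) := by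
      rw [← Complex.sub_re]
      refine (Complex.abs_re_le_norm _).trans (hβ2'.trans (le_of_eq ?_))
      ring
    have hE : |dd (NN κ q) y' v' - βR v v| ≤ C₈ * (‖v‖ ^ 2 * (‖v‖ + ‖y‖)) := by
      have h1 : dd (NN κ q) y' v' - βR v v = κ * (Lg - R ^ 2 * PP w₁ v) -
          2 * (Gg.re - (β v v).re) := by
        rw [hdd, hβR]
        ring
      rw [h1]
      have h2 := abs_sub (κ * (Lg - R ^ 2 * PP w₁ v)) (2 * (Gg.re - (β v v).re))
      rw [abs_mul, abs_mul, Nat.abs_cast, abs_two] at h2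
      have h3 : C₈ * (‖v‖ ^ 2 * (‖v‖ + ‖y‖)) = 2 * D * C₇ * (‖v‖ ^ 2 * (‖v‖ + ‖y‖)) +
          2 * (C₆ * 2 / η₀ ^ 3 * (‖v‖ ^ 2 * (‖v‖ + ‖y‖))) := by
        rw [hC₈]
        ring
      rw [h3]
      linarith
    have hErr : C₈ * (‖v‖ ^ 2 * (‖v‖ + ‖y‖)) ≤ c₁ / 2 * e2 v := by
      have h1 : ‖v‖ + ‖y‖ ≤ 4 * η := by linarith
      calc C₈ * (‖v‖ ^ 2 * (‖v‖ + ‖y‖)) ≤ C₈ * (‖v‖ ^ 2 * (4 * η)) := by
            apply mul_le_mul_of_nonneg_left _ hC₈0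
            exact mul_le_mul_of_nonneg_left h1 (by positivity)
        _ = (C₈ * (4 * η)) * ‖v‖ ^ 2 := by ring
        _ ≤ c₁ / 2 * ‖v‖ ^ 2 := mul_le_mul_of_nonneg_right hηC (by positivity)
        _ ≤ c₁ / 2 * e2 v := mul_le_mul_of_nonneg_left he2 (by positivity)
    have hErr2 : C₈ * (‖v‖ ^ 2 * (‖v‖ + ‖y‖)) ≤ C₈ * e2 v := by
      have h1 : ‖v‖ + ‖y‖ ≤ 1 := by linarith
      apply mul_le_mul_of_nonneg_left _ hC₈0
      calc ‖v‖ ^ 2 * (‖v‖ + ‖y‖) ≤ ‖v‖ ^ 2 * 1 := mul_le_mul_of_nonneg_left h1 (by positivity)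
        _ ≤ e2 v := by rw [mul_one]; exact he2
    have habs := abs_le.1 hE
    have he2v : e2 v' = R ^ 2 * e2 v := by rw [hvv, v9_e2_smul]
    constructor
    · have h1 : βR v v ≤ (4 * D + 4 * C₆ / η₀ ^ 2) * e2 v := by
        rw [hβR]
        have h2 : κ * R ^ 2 * PP w₁ v ≤ 2 * D * (2 * e2 v) := by
          calc κ * R ^ 2 * PP w₁ v ≤ κ * R ^ 2 * (2 * e2 v) :=
                mul_le_mul_of_nonneg_left (v9_PP_le w₁ v) (by positivity)
            _ ≤ 2 * D * (2 * e2 v) := mul_le_mul_of_nonneg_right hκ2 (by positivity)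
        have h3 : -(β v v).re ≤ C₆ * 2 / η₀ ^ 2 * e2 v := by
          have h4 := (neg_le_abs (β v v).re).trans (Complex.abs_re_le_norm _)
          refine h4.trans ((hβ1 v).trans ?_)
          exact mul_le_mul_of_nonneg_left he2 (by positivity)
        have h5 : (4 * D + 4 * C₆ / η₀ ^ 2) * e2 v = 2 * D * (2 * e2 v) +
            2 * (C₆ * 2 / η₀ ^ 2 * e2 v) := by ring
        rw [h5]
        linarith
      have h2 : dd (NN κ q) y' v' ≤ (4 * D + 4 * C₆ / η₀ ^ 2 + C₈ + 1) * e2 v := by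
        have h3 : (4 * D + 4 * C₆ / η₀ ^ 2 + C₈ + 1) * e2 v =
            (4 * D + 4 * C₆ / η₀ ^ 2) * e2 v + C₈ * e2 v + e2 v := by ring
        rw [h3]
        linarith [habs.2]
      refine h2.trans ?_
      rw [he2v]
      have h4 : (4 * D + 4 * C₆ / η₀ ^ 2 + C₈ + 1) * κ * (R ^ 2 * e2 v) =
          (κ * R ^ 2) * ((4 * D + 4 * C₆ / η₀ ^ 2 + C₈ + 1) * e2 v) := by ring
      rw [h4]
      exact le_mul_of_one_le_left (by positivity) hκ1
    · intro x hx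
      have hvx : v = ∑ i, ((R⁻¹ * x i : ℝ) : ℂ) • e i := by
        rw [hv, hx, Finset.smul_sum]
        refine Finset.sum_congr rfl fun i _ => ?_
        rw [smul_smul]
        push_cast
        rfl
      have h1 := he (fun i => R⁻¹ * x i)
      rw [← hvx] at h1
      have h2 : c₁ * e2 v ≤ βR v v := by
        rw [h1.1]
        exact h1.2
      have h3 : c₁ / 2 * e2 v ≤ dd (NN κ q) y' v' := by linarith [habs.1]
      refine le_trans ?_ h3
      rw [he2v]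
      have h4 : c₁ / (4 * D + 4) * κ * (R ^ 2 * e2 v) =
          (κ * R ^ 2) * (c₁ / (4 * D + 4) * e2 v) := by ring
      rw [h4]
      calc (κ * R ^ 2) * (c₁ / (4 * D + 4) * e2 v) ≤ 2 * D * (c₁ / (4 * D + 4) * e2 v) :=
            mul_le_mul_of_nonneg_right hκ2 (by positivity)
        _ ≤ c₁ / 2 * e2 v := by
            have h5 : 2 * (D : ℝ) * (c₁ / (4 * D + 4)) ≤ c₁ / 2 := by
              rw [← mul_div_assoc, div_le_iff₀ (by positivity)]
              nlinarith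
            have h6 := mul_le_mul_of_nonneg_right h5 he20
            linarith

end PCV
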